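import Pool.Agent.H88.MC.Final
import Pool.Agent.H50.E0.HS
import Pool.Agent.H4.E0.EX
import Pool.Agent.H4.E0.DT
import Pool.Agent.H4.E0.C4
import Pool.Agent.H68.E0.MO2
import Pool.Agent.H66.MC.MK
import Pool.Agent.H33.MC.BN
import Pool.Agent.H51.MCH.CM
import Pool.Agent.H74.E0.CN
import Pool.Agent.H74.E0.CS
import Pool.Agent.H74.E0.INN
import Pool.Agent.H74.E0.HW1
import Pool.Agent.H48.E0.CT
import Pool.Agent.H48.E0.LO
import Pool.Agent.H69.E0.HW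
import Pool.Agent.H35.E0.SP
import Pool.Agent.H91.E0.PA
import Pool.Agent.H91.E0.AC
import Pool.Agent.H86.E0.SM
import Pool.Agent.H14.E0.SM0
import Pool.Agent.H14.E0.SMB
import Pool.Agent.H35.E0.SM1

/-!
Assembly.
-/

namespace Pool.Agent.H88.MC

theorem a_hs : T_HS := Pool.Agent.H50.E0.pf_hs
theorem a_ex : T_EX := Pool.Agent.H4.E0.pf_ex Pool.Agent.H68.E0.pf_mo1 Pool.Agent.H68.E0.pf_mo2
  Pool.Agent.H66.MC.pf_mk Pool.Agent.H4.E0.pf_dt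
theorem a_ct : T_CT := Pool.Agent.H48.E0.pf_ct Pool.Agent.H74.E0.INN.pf_in
  Pool.Agent.H74.E0.pf_cn Pool.Agent.H51.MCH.pf_cm
theorem a_pa : T_PA := Pool.Agent.H91.E0.pf_pa
theorem a_cs : T_CS := Pool.Agent.H74.E0.CS.pf_cs
theorem a_lo : T_LO := Pool.Agent.H48.E0.pf_lo
theorem a_hw : T_HW := Pool.Agent.H69.E0.pf_hw Pool.Agent.H74.E0.HW1.pf_hw1
theorem a_sp : T_SP := Pool.Agent.H35.E0.pf_sp a_hw Pool.Agent.H33.MC.pf_bn
theorem a_c4 : T_C4 := Pool.Agent.H4.E0.pf_c4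
theorem a_ac : T_AC := Pool.Agent.H91.E0.pf_ac

theorem a_sm : T_SM := Pool.Agent.H86.E0.pf_sm (Pool.Agent.H35.E0.pf_sm1
  (Pool.Agent.H14.E0.pf_sm0 a_ac) (Pool.Agent.H14.E0.pf_smb a_lo))

end Pool.Agent.H88.MC
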