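import Mathlib

/-!
Balanced bipartitions of graphs, and the quantities used by the polynomial-space maximum cut
algorithm with a hidden set.
-/

namespace Pool.Agent.H88.MC

open Finset

/-- the sign of a side -/
def sg (b : Bool) : ℤ := if b then 1 else -1

variable {n : ℕ}

open scoped Classical in
/-- the neighbours of `v` -/
noncomputable def nb (G : SimpleGraph (Fin n)) (v : Fin n) : Finset (Fin n) := {u | G.Adj v u}

/-- the degree of `v` -/
noncomputable def dg (G : SimpleGraph (Fin n)) (v : Fin n) : ℕ := #(nb G v)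

/-- number of neighbours of `v` on side `true` minus number of neighbours on side `false` -/
noncomputable def ay (G : SimpleGraph (Fin n)) (y : Fin n → Bool) (v : Fin n) : ℤ :=
  ∑ u ∈ nb G v, sg (y u)

open scoped Classical in
/-- the bipartition `y` is `c`-balanced: for all but at most `c n` vertices `v` the numbers of
neighbours of `v` on the two sides differ by at most `c (1 + deg v)^(1/2)` -/
def Bal (c : ℝ) (G : SimpleGraph (Fin n)) (y : Fin n → Bool) : Prop :=
  (#{v | c ^ 2 * (1 + dg G v) < (ay G y v : ℝ) ^ 2} : ℝ) ≤ c * n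

open scoped Classical in
/-- the number of `c`-balanced bipartitions (every bipartition is counted twice) -/
noncomputable def numBal (c : ℝ) (G : SimpleGraph (Fin n)) : ℕ :=
  #{y : Fin n → Bool | Bal c G y}

/-! ### the algorithm with a hidden set `U` -/

/-- balance of the neighbours of `v` outside `U` -/
noncomputable def kk (G : SimpleGraph (Fin n)) (U : Finset (Fin n)) (ξ : Fin n → Bool)
    (v : Fin n) : ℤ := ∑ u ∈ nb G v \ U, sg (ξ u)

/-- number of neighbours of `v` in `U` -/
noncomputable def gg (G : SimpleGraph (Fin n)) (U : Finset (Fin n)) (v : Fin n) : ℕ :=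
  #(nb G v ∩ U)

open scoped Classical in
/-- vertices of `U` whose side is predicted -/
noncomputable def PP (k : ℕ) (G : SimpleGraph (Fin n)) (U : Finset (Fin n)) (ξ : Fin n → Bool) :
    Finset (Fin n) := {v ∈ U | (1 + dg G v : ℤ) ≤ 4 * k ^ 2 * kk G U ξ v ^ 2}

open scoped Classical in
/-- vertices that look balanced -/
noncomputable def QQ (k : ℕ) (G : SimpleGraph (Fin n)) (U : Finset (Fin n)) (ξ : Fin n → Bool) :
    Finset (Fin n) := {v | (k : ℤ) ^ 2 * kk G U ξ v ^ 2 ≤ 4 * (1 + dg G v)}

/-- predicted side -/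
noncomputable def pred (G : SimpleGraph (Fin n)) (U : Finset (Fin n)) (ξ : Fin n → Bool)
    (v : Fin n) : Bool := decide (kk G U ξ v < 0)

open scoped Classical in
/-- number of errors of the prediction among the vertices below `j` -/
noncomputable def er (k : ℕ) (G : SimpleGraph (Fin n)) (U : Finset (Fin n)) (ξ υ : Fin n → Bool)
    (j : ℕ) : ℕ := #((PP k G U ξ).filter (fun v : Fin n => v.1 < j ∧ υ v ≠ pred G U ξ v))

open scoped Classical in
/-- few vertices have many neighbours in `U`, relative to the square root of the degree -/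
def Thin (k : ℕ) (G : SimpleGraph (Fin n)) (U : Finset (Fin n)) : Prop :=
  2 * k * #{v | 1 + dg G v < 4 * k ^ 3 * gg G U v} ≤ n

/-- many vertices are predicted, and there are few errors -/
def CA (k D : ℕ) (G : SimpleGraph (Fin n)) (U : Finset (Fin n)) (ξ υ : Fin n → Bool)
    (j : ℕ) : Prop := n ≤ 4 * k * D * #(PP k G U ξ) ∧ 10 * er k G U ξ υ j ≤ #(PP k G U ξ)

/-- almost all vertices look balanced -/
def CB (k : ℕ) (G : SimpleGraph (Fin n)) (U : Finset (Fin n)) (ξ : Fin n → Bool) : Prop :=
  k * n ≤ 2 * n + k * #(QQ k G U ξ)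

/-- the hash family -/
def hs (q a b e v : ℕ) : ℕ := (a * v ^ 2 + b * v + e) % q

open scoped Classical in
/-- the hidden sets -/
noncomputable def hset (n D q a b e : ℕ) : Finset (Fin n) := {v | D * hs q a b e v < q}

/-- a random subset with three-wise independent indicators of mean `p` -/
structure TW {Ω : Type} [Fintype Ω] {n : ℕ} (U : Ω → Finset (Fin n)) (p : ℝ) : Prop where
  one : ∀ v, ∑ ω : Ω, (if v ∈ U ω then (1 : ℝ) else 0) = p * Fintype.card Ω
  two : ∀ u v, u ≠ v → ∑ ω : Ω, (if u ∈ U ω ∧ v ∈ U ω then (1 : ℝ) else 0) =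
    p ^ 2 * Fintype.card Ω
  three : ∀ u v w, u ≠ v → u ≠ w → v ≠ w →
    ∑ ω : Ω, (if u ∈ U ω ∧ v ∈ U ω ∧ w ∈ U ω then (1 : ℝ) else 0) = p ^ 3 * Fintype.card Ω

open scoped Classical in
/-- spectral condition: on a subspace of dimension at least `c n` the adjacency operator does not
shrink the norm with weights `1 + deg`: at least `c n` singular values of the normalised adjacency
matrix `A (1 + D)^(-1/2)` are at least `c^(1/2)` -/
def Spec (c : ℝ) (G : SimpleGraph (Fin n)) : Prop :=
  ∃ W : Submodule ℝ (Fin n → ℝ), c * n ≤ Module.finrank ℝ W ∧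
    ∀ w ∈ W, c * ∑ v, (1 + dg G v : ℝ) * w v ^ 2 ≤ ∑ v, (∑ u ∈ nb G v, w u) ^ 2

/-- `G` and `H` agree outside the set of pairs `F` -/
def Agree (F H G : SimpleGraph (Fin n)) : Prop := ∀ u v, ¬ F.Adj u v → (G.Adj u v ↔ H.Adj u v)

/-- twice the number of edges between the two sides -/
noncomputable def cutv (G : SimpleGraph (Fin n)) (y : Fin n → Bool) : ℕ :=
  ∑ u, #{v ∈ nb G u | y u ≠ y v}

/-- number of edges between `X` and its complement -/
noncomputable def cutSize (G : SimpleGraph (Fin n)) (X : Set (Fin n)) : ℕ :=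
  {e | e ∈ G.edgeSet ∧ ∃ u ∈ X, ∃ v ∉ X, e = s(u, v)}.ncard

/-! ### bit strings (the list is the reversed string) -/

/-- bit `i` of the string whose reversed list is `t`; `0` beyond the end -/
def bt (t : List ℕ) (i : ℕ) : ℕ := if i < t.length then t.getD (t.length - 1 - i) 0 else 0

/-- the strings of length `j` -/
def bits : ℕ → Finset (List ℕ)
  | 0 => {[]}
  | j + 1 => (bits j).image (fun t => 0 :: t) ∪ (bits j).image (fun t => 1 :: t)

/-- the number coded (in unary) by block `r` of the string -/
def qv (n : ℕ) (t : List ℕ) (r : ℕ) : ℕ := ∑ i ∈ range (2 * n), bt t (2 * n * r + i)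

/-- the part of the string that describes the bipartition outside the hidden set -/
def xi (n : ℕ) (t : List ℕ) (v : Fin n) : Bool := decide (1 ≤ bt t (8 * n + v))

/-- the part of the string that describes the bipartition of the hidden set -/
def up (n : ℕ) (t : List ℕ) (v : Fin n) : Bool := decide (1 ≤ bt t (9 * n + v))

/-- the bipartition -/
def yy (n : ℕ) (t : List ℕ) (v : Fin n) : Bool :=
  decide (1 ≤ bt t (8 * n + v) + bt t (9 * n + v))

/-- the first four blocks are of the form `1…10…0` -/
def Pat (n : ℕ) (t : List ℕ) : Prop :=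
  ∀ r < 4, ∀ i, i + 1 < 2 * n → bt t (2 * n * r + i + 1) ≤ bt t (2 * n * r + i)

/-- the hidden set given by the string -/
noncomputable def US (n D : ℕ) (t : List ℕ) : Finset (Fin n) :=
  hset n D (qv n t 0) (qv n t 1) (qv n t 2) (qv n t 3)

/-- the nodes of the search tree whose children are visited -/
def Alive (k D n0 : ℕ) (G : SimpleGraph (Fin n)) (t : List ℕ) : Prop :=
  n < n0 ∨ (Pat n t ∧
    (8 * n < t.length → n ≤ 2 * D * #(US n D t) ∧ Thin k G (US n D t) ∧
      ∀ v ∈ US n D t, xi n t v = false) ∧
    (9 * n < t.length → (∀ v, v ∉ US n D t → up n t v = false) ∧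
      (CA k D G (US n D t) (xi n t) (up n t) (t.length - 9 * n) ∨ CB k G (US n D t) (xi n t))))

/-! ### averages over signs -/

/-- the vector of signs -/
def sgr (y : Fin n → Bool) (v : Fin n) : ℝ := if y v then 1 else -1

/-- quadratic form -/
noncomputable def qf (K : Matrix (Fin n) (Fin n) ℝ) (z : Fin n → ℝ) : ℝ := ∑ u, ∑ v, K u v * z u * z v

end Pool.Agent.H88.MC
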