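import Pool.Agent.H88.MC.Prog
import Pool.Agent.H88.MC.Defs

/-!
Depth first search over bit strings as an iteration of a transformation of lists.
-/

namespace Pool.Agent.H88.MC

open Pool.Agent.H68.OQP

/-- state at a node: flag, depth, maximal depth, best value, length of solutions, length of the
input, then the input, the best solution, and the (reversed) string of the node -/
def ndSt (x : List ℕ) (L m : ℕ) (b : ℕ × List ℕ) (t : List ℕ) : List ℕ :=
  [1, t.length, L, b.1, m, x.length] ++ x ++ b.2 ++ t

/-- final state -/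
def enSt (x : List ℕ) (L m : ℕ) (b : ℕ × List ℕ) : List ℕ :=
  [0, 0, L, b.1, m, x.length] ++ x ++ b.2

/-- backtrack: the next string in lexicographic order (`[]` if there is none) -/
def bk : List ℕ → List ℕ
  | [] => []
  | 0 :: t => 1 :: t
  | (_ + 1) :: t => bk t

/-- next state -/
def nxSt (x : List ℕ) (L m : ℕ) (b : ℕ × List ℕ) (t : List ℕ) : List ℕ :=
  if t = [] then enSt x L m b else ndSt x L m b t

/-- number of zeros among the entries `0, …, i` -/
def zc (t : List ℕ) (i : ℕ) : ℕ := ∑ j ∈ Finset.range (i + 1), if t.getD j 0 ≤ 0 then 1 else 0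

theorem zc_zero (a : ℕ) (t : List ℕ) : zc (a :: t) 0 = if a ≤ 0 then 1 else 0 := by
  simp only [zc, zero_add, Finset.sum_range_one, List.getD_cons_zero]

theorem zc_succ (a : ℕ) (t : List ℕ) (i : ℕ) :
    zc (a :: t) (i + 1) = zc t i + if a ≤ 0 then 1 else 0 := by
  simp only [zc]
  rw [Finset.sum_range_succ']
  simp

theorem zc_pos {t : List ℕ} {i : ℕ} (h : t.getD i 0 ≤ 0) : 1 ≤ zc t i := by
  unfold zc
  rw [Finset.sum_range_succ, if_pos h]
  omega

/-- the entries written by the backtracking pass -/
def bkF (t : List ℕ) (i : ℕ) : List ℕ :=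
  if 1 ≤ zc t i then (if t.getD i 0 ≤ 0 then (if zc t i ≤ 1 then [1] else [t.getD i 0])
    else [t.getD i 0]) else []

theorem flatMap_congr' {α β : Type} {f g : α → List β} {l : List α} (h : ∀ a ∈ l, f a = g a) :
    l.flatMap f = l.flatMap g := by
  induction l with
  | nil => rfl
  | cons a l ih =>
    rw [List.flatMap_cons, List.flatMap_cons, h a (by simp), ih (fun b hb => h b (by simp [hb]))]

theorem bkF_flat (t : List ℕ) : (List.range t.length).flatMap (bkF t) = bk t := by
  induction t with
  | nil => rfl
  | cons a t ih =>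
    rw [List.length_cons, List.range_succ_eq_map, List.flatMap_cons, List.flatMap_map]
    cases a with
    | zero =>
      have h0 : bkF (0 :: t) 0 = [1] := by simp [bkF, zc_zero]
      have h1 : ∀ i ∈ List.range t.length, bkF (0 :: t) (i + 1) = [t.getD i 0] := by
        intro i _
        simp only [bkF, zc_succ, List.getD_cons_succ, le_refl, if_true]
        rw [if_pos (by omega)]
        by_cases h : t.getD i 0 ≤ 0
        · have := zc_pos h
          rw [if_pos h, if_neg (by omega)]
        · rw [if_neg h]
      rw [h0, flatMap_congr' h1, flatMap_singleton', map_getD_range]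
      rfl
    | succ a =>
      have h0 : bkF ((a + 1) :: t) 0 = [] := by simp [bkF, zc_zero]
      have h1 : ∀ i ∈ List.range t.length, bkF ((a + 1) :: t) (i + 1) = bkF t i := by
        intro i _
        simp [bkF, zc_succ]
      rw [h0, flatMap_congr' h1, ih]
      rfl

theorem bk_length (t : List ℕ) :
    ∑ i ∈ Finset.range t.length, (if 1 ≤ zc t i then 1 else 0) = (bk t).length := by
  induction t with
  | nil => rfl
  | cons a t ih =>
    rw [List.length_cons, Finset.sum_range_succ']
    cases a with
    | zero =>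
      simp only [zc_succ, zc_zero, le_refl, if_true]
      have : ∀ i ∈ Finset.range t.length, (if 1 ≤ zc t i + 1 then 1 else 0) = 1 := by
        intro i _
        rw [if_pos (by omega)]
      rw [Finset.sum_congr rfl this]
      simp [bk]
    | succ a =>
      simp only [zc_succ, zc_zero]
      simp [bk, ih]

theorem bk_flag (t : List ℕ) :
    ∑ i ∈ Finset.range t.length, (if t.getD i 0 ≤ 0 then (if zc t i ≤ 1 then 1 else 0) else 0) =
      if bk t = [] then 0 else 1 := by
  induction t with
  | nil => rfl
  | cons a t ih =>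
    rw [List.length_cons, Finset.sum_range_succ']
    cases a with
    | zero =>
      simp only [zc_succ, zc_zero, List.getD_cons_succ, List.getD_cons_zero, le_refl, if_true]
      have : ∀ i ∈ Finset.range t.length,
          (if t.getD i 0 ≤ 0 then (if zc t i + 1 ≤ 1 then 1 else 0) else 0) = 0 := by
        intro i _
        by_cases h : t.getD i 0 ≤ 0
        · have := zc_pos h
          rw [if_pos h, if_neg (by omega)]
        · rw [if_neg h]
      rw [Finset.sum_congr rfl this]
      simp [bk]
    | succ a =>
      have e : bk ((a + 1) :: t) = bk t := rfl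
      rw [e, ← ih]
      simp only [zc_succ, zc_zero, List.getD_cons_succ, List.getD_cons_zero]
      simp

/-! ### the passes -/

/-- the list before the passes -/
def ly (a v L m : ℕ) (x : List ℕ) (b : ℕ × List ℕ) (t w z : List ℕ) : List ℕ :=
  a :: v :: 1 :: t.length :: L :: b.1 :: m :: x.length :: (x ++ (b.2 ++ (t ++ (w ++ z))))

theorem ly_eq (a v L m : ℕ) (x : List ℕ) (b : ℕ × List ℕ) (t w : List ℕ) :
    a :: v :: (ndSt x L m b t ++ w) = ly a v L m x b t w [] := by
  simp [ly, ndSt]

theorem getD_off (l m : List ℕ) (i : ℕ) : (l ++ m).getD (l.length + i) 0 = m.getD i 0 := by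
  rw [getD_app_right (by omega)]
  congr 1
  omega

section

variable {a v L m : ℕ} {x : List ℕ} {b : ℕ × List ℕ} {t w z : List ℕ} {i : ℕ}

theorem ly_x (h : i < x.length) : (ly a v L m x b t w z).getD (8 + i) 0 = x.getD i 0 := by
  have : ly a v L m x b t w z = [a, v, 1, t.length, L, b.1, m, x.length] ++
      (x ++ (b.2 ++ (t ++ (w ++ z)))) := rfl
  have h2 : 8 + i = [a, v, 1, t.length, L, b.1, m, x.length].length + i := rfl
  rw [this, h2, getD_off, getD_app_left h]

theorem ly_b (hb : b.2.length = m) (h : i < m) :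
    (ly a v L m x b t w z).getD (8 + x.length + i) 0 = b.2.getD i 0 := by
  have : ly a v L m x b t w z = ([a, v, 1, t.length, L, b.1, m, x.length] ++ x) ++
      (b.2 ++ (t ++ (w ++ z))) := by simp [ly]
  have h2 : 8 + x.length + i =
      ([a, v, 1, t.length, L, b.1, m, x.length] ++ x).length + i := by simp; omega
  rw [this, h2, getD_off, getD_app_left (by omega)]

theorem ly_t (hb : b.2.length = m) (h : i < t.length) :
    (ly a v L m x b t w z).getD (8 + x.length + m + i) 0 = t.getD i 0 := by
  have : ly a v L m x b t w z = ([a, v, 1, t.length, L, b.1, m, x.length] ++ x ++ b.2) ++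
      (t ++ (w ++ z)) := by simp [ly]
  have h2 : 8 + x.length + m + i =
      ([a, v, 1, t.length, L, b.1, m, x.length] ++ x ++ b.2).length + i := by simp; omega
  rw [this, h2, getD_off, getD_app_left h]

theorem ly_w (hb : b.2.length = m) (hw : w.length = m) (h : i < m) :
    (ly a v L m x b t w z).getD (8 + x.length + m + t.length + i) 0 = w.getD i 0 := by
  have : ly a v L m x b t w z = ([a, v, 1, t.length, L, b.1, m, x.length] ++ x ++ b.2 ++ t) ++
      (w ++ z) := by simp [ly]
  have h2 : 8 + x.length + m + t.length + i =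
      ([a, v, 1, t.length, L, b.1, m, x.length] ++ x ++ b.2 ++ t).length + i := by simp; omega
  rw [this, h2, getD_off, getD_app_left (by omega)]

theorem ly_z (hb : b.2.length = m) (hw : w.length = m) :
    (ly a v L m x b t w z).getD (8 + x.length + m + t.length + m + i) 0 = z.getD i 0 := by
  have : ly a v L m x b t w z =
      ([a, v, 1, t.length, L, b.1, m, x.length] ++ x ++ b.2 ++ t ++ w) ++ z := by simp [ly]
  have h2 : 8 + x.length + m + t.length + m + i =
      ([a, v, 1, t.length, L, b.1, m, x.length] ++ x ++ b.2 ++ t ++ w).length + i := by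
    simp; omega
  rw [this, h2, getD_off]

theorem ly_len (hb : b.2.length = m) (hw : w.length = m) :
    (ly a v L m x b t w z).length = 8 + x.length + m + t.length + m + z.length := by
  simp [ly]
  omega

end

/-- position of the best solution -/
def pB : Ex := .add (.con 8) (.inp (.con 7))
/-- position of the string -/
def pT : Ex := .add pB (.inp (.con 6))
/-- position of the new solution -/
def pW : Ex := .add pT (.inp (.con 3))
/-- position of the zero counts -/
def pZ : Ex := .add pW (.inp (.con 6))

/-- first pass: append the zero counts -/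
def B0 : Ls := .app (keep pZ) (tab (.inp (.con 3)) (.sum (.add (.var 0) (.con 1))
  (.ite (.inp (.add pT (.var 0))) (.con 0) (.ex (.con 1)) (.ex (.con 0)))))

/-- copy a segment -/
def seg (p e : Ex) : Ls := tab e (.ex (.inp (.add p (.var 0))))

/-- write the backtracked state -/
def upL (b : Ex) (c : Ls) : Ls :=
  .app (.ent (.sum (.inp (.con 3)) (.ite (.inp (.add pT (.var 0))) (.con 0)
    (.ite (.inp (.add pZ (.var 0))) (.con 1) (.ex (.con 1)) (.ex (.con 0))) (.ex (.con 0)))))
  (.app (.ent (.sum (.inp (.con 3)) (.ite (.con 1) (.inp (.add pZ (.var 0)))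
    (.ex (.con 1)) (.ex (.con 0)))))
  (.app (.ent (.ex (.inp (.con 4))))
  (.app (.ent (.ex b))
  (.app (.ent (.ex (.inp (.con 6))))
  (.app (.ent (.ex (.inp (.con 7))))
  (.app (seg (.con 8) (.inp (.con 7)))
  (.app c
  (.loop (.inp (.con 3)) (.ite (.con 1) (.inp (.add pZ (.var 0)))
    (.ite (.inp (.add pT (.var 0))) (.con 0)
      (.ite (.inp (.add pZ (.var 0))) (.con 1) (.ent (.ex (.con 1)))
        (.ent (.ex (.inp (.add pT (.var 0))))))
      (.ent (.ex (.inp (.add pT (.var 0)))))) .nil)))))))))

/-- write the state of the first child -/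
def dnL : Ls :=
  .app (.ent (.ex (.con 1)))
  (.app (.ent (.ex (.add (.inp (.con 3)) (.con 1))))
  (.app (.ent (.ex (.inp (.con 4))))
  (.app (.ent (.ex (.inp (.con 5))))
  (.app (.ent (.ex (.inp (.con 6))))
  (.app (.ent (.ex (.inp (.con 7))))
  (.app (seg (.con 8) (.inp (.con 7)))
  (.app (seg pB (.inp (.con 6)))
  (.app (.ent (.ex (.con 0)))
    (seg pT (.inp (.con 3)))))))))))

/-- second pass -/
def B1 : Ls := .ite (.con 1) (.inp (.con 0))
  (.ite (.add (.inp (.con 3)) (.con 1)) (.inp (.con 4)) dnL
    (.ite (.inp (.con 5)) (.inp (.con 1)) (upL (.add (.inp (.con 1)) (.con 1))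
      (seg pW (.inp (.con 6)))) (upL (.inp (.con 5)) (seg pB (.inp (.con 6))))))
  (upL (.inp (.con 5)) (seg pB (.inp (.con 6))))

theorem B0_fn {a v L m : ℕ} {x : List ℕ} {b : ℕ × List ℕ} {t w : List ℕ}
    (hb : b.2.length = m) (hw : w.length = m) :
    B0.fn (ly a v L m x b t w []) =
      ly a v L m x b t w ((List.range t.length).map (zc t)) := by
  have hZ : ∀ env z, pZ.val (ly a v L m x b t w z) env =
      8 + x.length + m + t.length + m := fun _ _ => rfl
  have hT : ∀ env z, pT.val (ly a v L m x b t w z) env = 8 + x.length + m := fun _ _ => rfl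
  have hk : ∀ env z, (Ex.inp (.con 3)).val (ly a v L m x b t w z) env = t.length :=
    fun _ _ => rfl
  have e1 : (keep pZ).vals (ly a v L m x b t w []) [] = ly a v L m x b t w [] :=
    keep_vals (by rw [hZ, ly_len hb hw]; rfl)
  have e2 : (tab (.inp (.con 3)) (.sum (.add (.var 0) (.con 1))
      (.ite (.inp (.add pT (.var 0))) (.con 0) (.ex (.con 1)) (.ex (.con 0))))).vals
        (ly a v L m x b t w []) [] = (List.range t.length).map (zc t) := by
    rw [tab_vals, hk]
    refine List.map_congr_left (fun i hi => ?_)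
    rw [List.mem_range] at hi
    simp only [Nm.val, Ex.val, List.getD_cons_zero, hT, zc]
    refine Finset.sum_congr rfl (fun j hj => ?_)
    rw [Finset.mem_range] at hj
    rw [ly_t hb (by omega)]
  show (keep pZ).vals _ [] ++ _ = _
  rw [e1, e2]
  simp [ly]

theorem seg_vals {l env : List ℕ} {p e : Ex} {r : List ℕ} (he : e.val l env = r.length)
    (h : ∀ i < r.length, l.getD (p.val l (i :: env) + i) 0 = r.getD i 0) :
    (seg p e).vals l env = r := by
  unfold seg
  rw [tab_vals, he]
  have : ∀ i ∈ List.range r.length, (Nm.ex (.inp (.add p (.var 0)))).val l (i :: env) =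
      r.getD i 0 := by
    intro i hi
    rw [List.mem_range] at hi
    simp only [Nm.val, Ex.val, List.getD_cons_zero]
    exact h i hi
  rw [List.map_congr_left this, map_getD_range]

section

variable {a v L m : ℕ} {x : List ℕ} {b : ℕ × List ℕ} {t w : List ℕ}

/-- the list before the second pass -/
def lz (a v L m : ℕ) (x : List ℕ) (b : ℕ × List ℕ) (t w : List ℕ) : List ℕ :=
  ly a v L m x b t w ((List.range t.length).map (zc t))

theorem segX (env : List ℕ) :
    (seg (.con 8) (.inp (.con 7))).vals (lz a v L m x b t w) env = x :=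
  seg_vals rfl (fun _ hi => ly_x hi)

theorem segB (hb : b.2.length = m) (env : List ℕ) :
    (seg pB (.inp (.con 6))).vals (lz a v L m x b t w) env = b.2 :=
  seg_vals hb.symm (fun i hi => ly_b hb (by omega))

theorem segT (hb : b.2.length = m) (env : List ℕ) :
    (seg pT (.inp (.con 3))).vals (lz a v L m x b t w) env = t :=
  seg_vals rfl (fun _ hi => ly_t hb hi)

theorem segW (hb : b.2.length = m) (hw : w.length = m) (env : List ℕ) :
    (seg pW (.inp (.con 6))).vals (lz a v L m x b t w) env = w :=
  seg_vals hw.symm (fun i hi => ly_w hb hw (by omega))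

theorem upL_vals (hb : b.2.length = m) (hw : w.length = m) {be : Ex} {c : Ls} {b' : ℕ × List ℕ}
    (h1 : be.val (lz a v L m x b t w) [] = b'.1) (h2 : c.vals (lz a v L m x b t w) [] = b'.2) :
    (upL be c).vals (lz a v L m x b t w) [] = nxSt x L m b' (bk t) := by
  have hZ : ∀ env, pZ.val (lz a v L m x b t w) env =
      8 + x.length + m + t.length + m := fun _ => rfl
  have hT : ∀ env, pT.val (lz a v L m x b t w) env = 8 + x.length + m := fun _ => rfl
  have hk : ∀ env, (Ex.inp (.con 3)).val (lz a v L m x b t w) env = t.length := fun _ => rfl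
  have g1 : ∀ i < t.length, (lz a v L m x b t w).getD (8 + x.length + m + i) 0 = t.getD i 0 :=
    fun i hi => ly_t hb hi
  have g2 : ∀ i < t.length, (lz a v L m x b t w).getD (8 + x.length + m + t.length + m + i) 0 =
      zc t i := by
    intro i hi
    unfold lz
    rw [ly_z hb hw, getD_map_range _ hi]
  have e1 : (Nm.sum (.inp (.con 3)) (.ite (.inp (.add pT (.var 0))) (.con 0)
      (.ite (.inp (.add pZ (.var 0))) (.con 1) (.ex (.con 1)) (.ex (.con 0)))
      (.ex (.con 0)))).val (lz a v L m x b t w) [] = if bk t = [] then 0 else 1 := by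
    rw [← bk_flag]
    simp only [Nm.val, hk]
    refine Finset.sum_congr rfl (fun i hi => ?_)
    rw [Finset.mem_range] at hi
    simp only [Ex.val, List.getD_cons_zero, hT, hZ, g1 i hi, g2 i hi]
  have e2 : (Nm.sum (.inp (.con 3)) (.ite (.con 1) (.inp (.add pZ (.var 0)))
      (.ex (.con 1)) (.ex (.con 0)))).val (lz a v L m x b t w) [] = (bk t).length := by
    rw [← bk_length]
    simp only [Nm.val, hk]
    refine Finset.sum_congr rfl (fun i hi => ?_)
    rw [Finset.mem_range] at hi
    simp only [Ex.val, List.getD_cons_zero, hZ, g2 i hi]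
  have e3 : (Ls.loop (.inp (.con 3)) (.ite (.con 1) (.inp (.add pZ (.var 0)))
    (.ite (.inp (.add pT (.var 0))) (.con 0)
      (.ite (.inp (.add pZ (.var 0))) (.con 1) (.ent (.ex (.con 1)))
        (.ent (.ex (.inp (.add pT (.var 0))))))
      (.ent (.ex (.inp (.add pT (.var 0)))))) .nil)).vals (lz a v L m x b t w) [] = bk t := by
    rw [← bkF_flat]
    simp only [Ls.vals, hk]
    refine flatMap_congr' (fun i hi => ?_)
    rw [List.mem_range] at hi
    simp only [Ex.val, Nm.val, List.getD_cons_zero, hT, hZ, g1 i hi, g2 i hi, bkF]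
  have e4 : (upL be c).vals (lz a v L m x b t w) [] =
      (if bk t = [] then 0 else 1) :: (bk t).length :: L :: b'.1 :: m :: x.length ::
        (x ++ (b'.2 ++ bk t)) := by
    simp only [upL, Ls.vals] at e3 ⊢
    rw [e1, e2, e3, h2, segX]
    simp only [Nm.val, h1]
    rfl
  rw [e4]
  unfold nxSt
  split_ifs with h
  · simp [enSt, h]
  · simp [ndSt]

/-- update of the best solution -/
def ud (v : ℕ) (w : List ℕ) (b : ℕ × List ℕ) : ℕ × List ℕ := if b.1 ≤ v then (v + 1, w) else b

theorem dnL_vals (hb : b.2.length = m) :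
    dnL.vals (lz a v L m x b t w) [] = ndSt x L m b (0 :: t) := by
  simp only [dnL, Ls.vals]
  rw [segX, segB hb, segT hb]
  have g3 : (lz a v L m x b t w).getD 3 0 = t.length := rfl
  have g4 : (lz a v L m x b t w).getD 4 0 = L := rfl
  have g5 : (lz a v L m x b t w).getD 5 0 = b.1 := rfl
  have g6 : (lz a v L m x b t w).getD 6 0 = m := rfl
  have g7 : (lz a v L m x b t w).getD 7 0 = x.length := rfl
  simp only [Nm.val, Ex.val, ndSt, g3, g4, g5, g6, g7]
  simp

theorem B1_fn (hb : b.2.length = m) (hw : w.length = m) :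
    B1.fn (lz a v L m x b t w) =
      if 1 ≤ a then (if t.length + 1 ≤ L then ndSt x L m b (0 :: t) else
        nxSt x L m (ud v w b) (bk t)) else nxSt x L m b (bk t) := by
  have h1 : ∀ env, (Ex.inp (.con 5)).val (lz a v L m x b t w) env = b.1 := fun _ => rfl
  have h2 : ∀ env, (Ex.add (.inp (.con 1)) (.con 1)).val (lz a v L m x b t w) env = v + 1 :=
    fun _ => rfl
  have u1 := upL_vals (a := a) (v := v) (L := L) (x := x) (t := t) (w := w) hb hw
    (be := .inp (.con 5)) (c := seg pB (.inp (.con 6)))
    (b' := b) (h1 _) (segB hb _)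
  have u2 := upL_vals (a := a) (v := v) (L := L) (x := x) (t := t) hb hw
    (be := .add (.inp (.con 1)) (.con 1)) (c := seg pW (.inp (.con 6)))
    (b' := (v + 1, w)) (h2 _) (segW hb hw _)
  have ea : ∀ env, (Ex.inp (.con 0)).val (lz a v L m x b t w) env = a := fun _ => rfl
  have ek : ∀ env, (Ex.add (.inp (.con 3)) (.con 1)).val (lz a v L m x b t w) env =
    t.length + 1 := fun _ => rfl
  have eL : ∀ env, (Ex.inp (.con 4)).val (lz a v L m x b t w) env = L := fun _ => rfl
  have ev : ∀ env, (Ex.inp (.con 1)).val (lz a v L m x b t w) env = v := fun _ => rfl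
  have ec : ∀ env, (Ex.con 1).val (lz a v L m x b t w) env = 1 := fun _ => rfl
  show B1.vals _ [] = _
  simp only [B1, Ls.vals]
  rw [u1, u2, dnL_vals hb, ea, ek, eL, ev, ec, h1]
  unfold ud
  by_cases c1 : 1 ≤ a
  · simp only [c1, if_true]
    by_cases c2 : t.length + 1 ≤ L
    · simp only [c2, if_true]
    · simp only [c2, if_false]
      by_cases c3 : b.1 ≤ v
      · simp only [c3, if_true]
      · simp only [c3, if_false]
  · simp only [c1, if_false]

end

end Pool.Agent.H88.MC
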