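import Pool.Agent.H88.MC.DFS

/-!
The depth first search: number of steps and result.
-/

namespace Pool.Agent.H88.MC

open Pool.Agent.H68.OQP Finset

theorem mem_bits {j : ℕ} {t : List ℕ} : t ∈ bits j ↔ t.length = j ∧ ∀ a ∈ t, a ≤ 1 := by
  induction j generalizing t with
  | zero =>
    simp only [bits, mem_singleton]
    constructor
    · rintro rfl
      simp
    · rintro ⟨h, -⟩
      exact List.length_eq_zero_iff.mp h
  | succ j ih =>
    simp only [bits, mem_union, mem_image]
    constructor
    · rintro (⟨s, hs, rfl⟩ | ⟨s, hs, rfl⟩)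
      · obtain ⟨h1, h2⟩ := ih.mp hs
        refine ⟨by simp [h1], ?_⟩
        intro a ha
        rcases List.mem_cons.mp ha with rfl | h
        · omega
        · exact h2 a h
      · obtain ⟨h1, h2⟩ := ih.mp hs
        refine ⟨by simp [h1], ?_⟩
        intro a ha
        rcases List.mem_cons.mp ha with rfl | h
        · omega
        · exact h2 a h
    · rintro ⟨h1, h2⟩
      cases t with
      | nil => simp at h1
      | cons a s =>
        have ha := h2 a (by simp)
        have hs : s ∈ bits j := ih.mpr ⟨by simpa using h1, fun b hb => h2 b (by simp [hb])⟩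
        interval_cases a
        · exact Or.inl ⟨s, hs, rfl⟩
        · exact Or.inr ⟨s, hs, rfl⟩

section dfs

variable (al : List ℕ → Prop) (vl : List ℕ → ℕ) (sol : List ℕ → List ℕ)

open scoped Classical in
/-- depth first search below the node `t`, `d` levels: number of steps and best solution -/
noncomputable def dfs : ℕ → List ℕ → ℕ × List ℕ → ℕ × (ℕ × List ℕ)
  | 0, t, b => (1, if al t then ud (vl t) (sol t) b else b)
  | d + 1, t, b => if al t then
      (1 + (dfs d (0 :: t) b).1 + (dfs d (1 :: t) (dfs d (0 :: t) b).2).1,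
        (dfs d (1 :: t) (dfs d (0 :: t) b).2).2) else (1, b)

/-- valid best solutions -/
def okb (m V : ℕ) (b : ℕ × List ℕ) : Prop := b.1 ≤ V ∧ b.2.length = m ∧ ∀ a ∈ b.2, a ≤ 1

/-- valid states -/
def okS (x : List ℕ) (L m V : ℕ) (l : List ℕ) : Prop :=
  ∃ b t, l = ndSt x L m b t ∧ okb m V b ∧ t.length ≤ L ∧ ∀ a ∈ t, a ≤ 1

variable {al vl sol}

open scoped Classical in
theorem dfs_run {F : List ℕ → List ℕ} {x : List ℕ} {L m V : ℕ}
    (hF : ∀ b t, okb m V b → t.length ≤ L → (∀ a ∈ t, a ≤ 1) →
      F (ndSt x L m b t) = if al t then (if t.length + 1 ≤ L then ndSt x L m b (0 :: t) else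
        nxSt x L m (ud (vl t) (sol t) b) (bk t)) else nxSt x L m b (bk t))
    (hsol : ∀ t, t.length ≤ L → (∀ a ∈ t, a ≤ 1) →
      vl t + 1 ≤ V ∧ (sol t).length = m ∧ ∀ a ∈ sol t, a ≤ 1) (d : ℕ) :
    ∀ (t : List ℕ) (b : ℕ × List ℕ), t.length + d = L → (∀ a ∈ t, a ≤ 1) → okb m V b →
      F^[(dfs al vl sol d t b).1] (ndSt x L m b t) =
        nxSt x L m (dfs al vl sol d t b).2 (bk t) ∧
      (∀ i < (dfs al vl sol d t b).1, okS x L m V (F^[i] (ndSt x L m b t))) ∧
      okb m V (dfs al vl sol d t b).2 := by
  have hud : ∀ t b, t.length ≤ L → (∀ a ∈ t, a ≤ 1) → okb m V b →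
      okb m V (ud (vl t) (sol t) b) := by
    intro t b h1 h2 hb
    unfold ud
    split_ifs
    · exact hsol t h1 h2
    · exact hb
  induction d with
  | zero =>
    intro t b ht h1 hb
    have h0 := hF b t hb (by omega) h1
    refine ⟨?_, ?_, ?_⟩
    · simp only [dfs, Function.iterate_one]
      rw [h0]
      split_ifs with c1 c2
      · omega
      · rfl
      · rfl
    · intro i hi
      simp only [dfs, Nat.lt_one_iff] at hi
      subst hi
      exact ⟨b, t, rfl, hb, by omega, h1⟩
    · simp only [dfs]
      split_ifs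
      · exact hud t b (by omega) h1 hb
      · exact hb
  | succ d ih =>
    intro t b ht h1 hb
    have h0 := hF b t hb (by omega) h1
    by_cases c : al t
    · rw [if_pos c, if_pos (by omega)] at h0
      have hc0 : ∀ a ∈ 0 :: t, a ≤ 1 := by
        intro a ha
        rcases List.mem_cons.mp ha with rfl | h
        · omega
        · exact h1 a h
      have hc1 : ∀ a ∈ 1 :: t, a ≤ 1 := by
        intro a ha
        rcases List.mem_cons.mp ha with rfl | h
        · omega
        · exact h1 a h
      obtain ⟨a1, a2, a3⟩ := ih (0 :: t) b (by simp; omega) hc0 hb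
      obtain ⟨b1, b2, b3⟩ := ih (1 :: t) (dfs al vl sol d (0 :: t) b).2 (by simp; omega) hc1 a3
      set T1 := (dfs al vl sol d (0 :: t) b).1 with hT1
      set T2 := (dfs al vl sol d (1 :: t) (dfs al vl sol d (0 :: t) b).2).1 with hT2
      have e1 : (dfs al vl sol (d + 1) t b).1 = 1 + T1 + T2 := by
        simp only [dfs, if_pos c]
        rfl
      have e2 : (dfs al vl sol (d + 1) t b).2 =
          (dfs al vl sol d (1 :: t) (dfs al vl sol d (0 :: t) b).2).2 := by
        simp only [dfs, if_pos c]
      have a1' : F^[T1] (ndSt x L m b (0 :: t)) =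
          ndSt x L m (dfs al vl sol d (0 :: t) b).2 (1 :: t) := by
        rw [a1]
        simp [nxSt, bk]
      have s1 : F^[1 + T1] (ndSt x L m b t) =
          ndSt x L m (dfs al vl sol d (0 :: t) b).2 (1 :: t) := by
        rw [Nat.add_comm 1 T1, Function.iterate_succ_apply, h0, a1']
      refine ⟨?_, ?_, ?_⟩
      · rw [e1, e2, Nat.add_comm (1 + T1) T2, Function.iterate_add_apply, s1, b1]
        rfl
      · intro i hi
        rw [e1] at hi
        rcases Nat.lt_or_ge i 1 with c1 | c1
        · have : i = 0 := by omega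
          subst this
          exact ⟨b, t, rfl, hb, by omega, h1⟩
        · rcases Nat.lt_or_ge i (1 + T1) with c2 | c2
          · obtain ⟨i', rfl⟩ : ∃ i', i = i' + 1 := ⟨i - 1, by omega⟩
            rw [Function.iterate_succ_apply, h0]
            exact a2 i' (by omega)
          · obtain ⟨i', rfl⟩ : ∃ i', i = i' + (1 + T1) := ⟨i - (1 + T1), by omega⟩
            rw [Function.iterate_add_apply, s1]
            exact b2 i' (by omega)
      · rw [e2]
        exact b3
    · rw [if_neg c] at h0
      have e : dfs al vl sol (d + 1) t b = (1, b) := by simp only [dfs, if_neg c]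
      rw [e]
      refine ⟨?_, ?_, hb⟩
      · simp only [Function.iterate_one]
        exact h0
      · intro i hi
        simp only [Nat.lt_one_iff] at hi
        subst hi
        exact ⟨b, t, rfl, hb, by omega, h1⟩

theorem ud_ge (v : ℕ) (w : List ℕ) (b : ℕ × List ℕ) : b.1 ≤ (ud v w b).1 ∧ v + 1 ≤ (ud v w b).1 := by
  unfold ud
  split_ifs with h
  · exact ⟨by simp; omega, le_rfl⟩
  · exact ⟨le_rfl, by omega⟩

theorem dfs_ge (d : ℕ) : ∀ (t : List ℕ) (b : ℕ × List ℕ),
    b.1 ≤ (dfs al vl sol d t b).2.1 ∧
    ∀ e ∈ bits d, (∀ i ≤ d, al (e.drop i ++ t)) → vl (e ++ t) + 1 ≤ (dfs al vl sol d t b).2.1 := by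
  induction d with
  | zero =>
    intro t b
    constructor
    · simp only [dfs]
      split_ifs
      · exact (ud_ge _ _ _).1
      · exact le_rfl
    · intro e he h
      have he' : e = [] := by simpa [bits] using he
      subst he'
      have := h 0 le_rfl
      simp only [List.drop_nil, List.nil_append] at this
      simp only [dfs, if_pos this, List.nil_append]
      exact (ud_ge _ _ _).2
  | succ d ih =>
    intro t b
    obtain ⟨a1, a2⟩ := ih (0 :: t) b
    obtain ⟨b1, b2⟩ := ih (1 :: t) (dfs al vl sol d (0 :: t) b).2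
    by_cases c : al t
    · have e2 : (dfs al vl sol (d + 1) t b).2 =
          (dfs al vl sol d (1 :: t) (dfs al vl sol d (0 :: t) b).2).2 := by
        simp only [dfs, if_pos c]
      rw [e2]
      refine ⟨a1.trans b1, ?_⟩
      intro e he h
      obtain ⟨hl, hb⟩ := mem_bits.mp he
      -- split off the last entry
      have hne : e ≠ [] := by
        intro h
        rw [h] at hl
        simp at hl
      obtain ⟨f, a, hf⟩ : ∃ f a, e = f ++ [a] :=
        ⟨e.dropLast, e.getLast hne, (List.dropLast_append_getLast hne).symm⟩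
      have hfl : f.length = d := by
        rw [hf] at hl
        simpa using hl
      have hfm : f ∈ bits d := mem_bits.mpr ⟨hfl, fun c hc => hb c (by rw [hf]; simp [hc])⟩
      have ha : a ≤ 1 := hb a (by rw [hf]; simp)
      have hal : ∀ i ≤ d, al (f.drop i ++ a :: t) := by
        intro i hi
        have := h i (by omega)
        rw [hf, List.drop_append_of_le_length (by omega)] at this
        simpa using this
      have hv : vl (e ++ t) = vl (f ++ a :: t) := by rw [hf]; simp
      rw [hv]
      interval_cases a
      · exact (a2 f hfm hal).trans b1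
      · exact b2 f hfm hal
    · have e : dfs al vl sol (d + 1) t b = (1, b) := by simp only [dfs, if_neg c]
      rw [e]
      refine ⟨le_rfl, ?_⟩
      intro e he h
      obtain ⟨hl, hb⟩ := mem_bits.mp he
      have := h (d + 1) le_rfl
      rw [← hl, List.drop_length] at this
      exact absurd this c

theorem app_mem_bits {d : ℕ} {f : List ℕ} {a : ℕ} (hf : f ∈ bits d) (ha : a ≤ 1) :
    f ++ [a] ∈ bits (d + 1) := by
  obtain ⟨h1, h2⟩ := mem_bits.mp hf
  refine mem_bits.mpr ⟨by simp [h1], ?_⟩
  intro c hc
  rcases List.mem_append.mp hc with h | h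
  · exact h2 c h
  · rw [List.mem_singleton.mp h]
    exact ha

theorem dfs_sol (d : ℕ) : ∀ (t : List ℕ) (b : ℕ × List ℕ),
    (dfs al vl sol d t b).2 = b ∨ ∃ e ∈ bits d, al (e ++ t) ∧
      (dfs al vl sol d t b).2 = (vl (e ++ t) + 1, sol (e ++ t)) := by
  induction d with
  | zero =>
    intro t b
    by_cases c : al t
    · simp only [dfs, if_pos c]
      unfold ud
      split_ifs
      · exact Or.inr ⟨[], by simp [bits], by simpa using c, by simp⟩
      · exact Or.inl rfl
    · left
      simp only [dfs, if_neg c]
  | succ d ih =>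
    intro t b
    by_cases c : al t
    · have e2 : (dfs al vl sol (d + 1) t b).2 =
          (dfs al vl sol d (1 :: t) (dfs al vl sol d (0 :: t) b).2).2 := by
        simp only [dfs, if_pos c]
      rw [e2]
      have key : ∀ (a : ℕ), a ≤ 1 → ∀ e ∈ bits d, al (e ++ a :: t) →
          ∃ e' ∈ bits (d + 1), al (e' ++ t) ∧
            (vl (e ++ a :: t) + 1, sol (e ++ a :: t)) = (vl (e' ++ t) + 1, sol (e' ++ t)) := by
        intro a ha e he h
        refine ⟨e ++ [a], app_mem_bits he ha, by simpa using h, by simp⟩
      rcases ih (1 :: t) (dfs al vl sol d (0 :: t) b).2 with h | ⟨e, he, h1, h2⟩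
      · rw [h]
        rcases ih (0 :: t) b with h' | ⟨e, he, h1, h2⟩
        · exact Or.inl h'
        · obtain ⟨e', he', h3, h4⟩ := key 0 (by omega) e he h1
          exact Or.inr ⟨e', he', h3, h2.trans h4⟩
      · obtain ⟨e', he', h3, h4⟩ := key 1 (by omega) e he h1
        exact Or.inr ⟨e', he', h3, h2.trans h4⟩
    · have e : dfs al vl sol (d + 1) t b = (1, b) := by simp only [dfs, if_neg c]
      rw [e]
      exact Or.inl rfl

open scoped Classical in
theorem dfs_count (d : ℕ) : ∀ (t : List ℕ) (b : ℕ × List ℕ),
    (dfs al vl sol d t b).1 ≤ 1 + 2 * ∑ j ∈ range (d + 1), #{e ∈ bits j | al (e ++ t)} := by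
  induction d with
  | zero =>
    intro t b
    simp only [dfs]
    omega
  | succ d ih =>
    intro t b
    by_cases c : al t
    · have e1 : (dfs al vl sol (d + 1) t b).1 = 1 + (dfs al vl sol d (0 :: t) b).1 +
          (dfs al vl sol d (1 :: t) (dfs al vl sol d (0 :: t) b).2).1 := by
        simp only [dfs, if_pos c]
      have h1 := ih (0 :: t) b
      have h2 := ih (1 :: t) (dfs al vl sol d (0 :: t) b).2
      have h3 : #{e ∈ bits 0 | al (e ++ t)} = 1 := by
        have : ({e ∈ bits 0 | al (e ++ t)} : Finset (List ℕ)) = {[]} := by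
          ext e
          simp only [bits, mem_filter, mem_singleton]
          constructor
          · exact fun h => h.1
          · rintro rfl
            exact ⟨rfl, by simpa using c⟩
        rw [this]
        simp
      have h4 : ∀ j, #{e ∈ bits j | al (e ++ 0 :: t)} + #{e ∈ bits j | al (e ++ 1 :: t)} ≤
          #{e ∈ bits (j + 1) | al (e ++ t)} := by
        intro j
        have i0 : Function.Injective (fun e : List ℕ => e ++ [0]) :=
          fun e e' h => List.append_cancel_right h
        have i1 : Function.Injective (fun e : List ℕ => e ++ [1]) :=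
          fun e e' h => List.append_cancel_right h
        have c0 := card_image_of_injective {e ∈ bits j | al (e ++ 0 :: t)} i0
        have c1 := card_image_of_injective {e ∈ bits j | al (e ++ 1 :: t)} i1
        rw [← c0, ← c1, ← card_union_of_disjoint]
        · refine card_le_card ?_
          intro e he
          rcases mem_union.mp he with h | h
          · obtain ⟨f, hf, rfl⟩ := mem_image.mp h
            rw [mem_filter] at hf
            exact mem_filter.mpr ⟨app_mem_bits hf.1 (by omega), by simpa using hf.2⟩
          · obtain ⟨f, hf, rfl⟩ := mem_image.mp h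
            rw [mem_filter] at hf
            exact mem_filter.mpr ⟨app_mem_bits hf.1 (by omega), by simpa using hf.2⟩
        · rw [disjoint_left]
          intro e h h'
          obtain ⟨f, -, rfl⟩ := mem_image.mp h
          obtain ⟨f', -, hf'⟩ := mem_image.mp h'
          have := List.append_inj_right' hf' rfl
          simp at this
      rw [e1, sum_range_succ' _ (d + 1), h3]
      have h5 := sum_le_sum (fun j (_ : j ∈ range (d + 1)) => h4 j)
      rw [sum_add_distrib] at h5
      omega
    · have e : dfs al vl sol (d + 1) t b = (1, b) := by simp only [dfs, if_neg c]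
      rw [e]
      simp

end dfs

end Pool.Agent.H88.MC
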