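import Pool.Agent.H88.MC.DFS2

/-!
The machine that performs a depth first search.
-/

namespace Pool.Agent.H88.MC

open Pool.Agent.H68.OQP Turing Polynomial

theorem unary_length (l : List ℕ) : (unary l).length = l.sum + l.length := by
  induction l with
  | nil => rfl
  | cons a l ih =>
    have : unary (a :: l) = List.replicate a true ++ [false] ++ unary l := rfl
    rw [this, List.length_append, List.length_append, List.length_replicate, ih]
    simp
    omega

theorem sum_le_len {l : List ℕ} (h : ∀ a ∈ l, a ≤ 1) : l.sum ≤ l.length := by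
  have := List.sum_le_card_nsmul l 1 h
  simpa using this

/-- the output generator: the bits of the best solution -/
def outG : Gn := .loop (.inp (.con 4)) (.ifle (.con 1)
  (.inp (.add (.add (.con 6) (.inp (.con 5))) (.var 0))) (.bit true) (.bit false))

theorem outG_out (x : List ℕ) (L m : ℕ) (b : ℕ × List ℕ) (hb : b.2.length = m) :
    outG.out (enSt x L m b) [] = b.2.map (fun a => decide (1 ≤ a)) := by
  have h4 : ∀ env, (Ex.inp (.con 4)).val (enSt x L m b) env = m := fun _ => rfl
  have h6 : ∀ i env, (Ex.inp (.add (.add (.con 6) (.inp (.con 5))) (.var 0))).val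
      (enSt x L m b) (i :: env) = b.2.getD i 0 := by
    intro i env
    have e : enSt x L m b = ([0, 0, L, b.1, m, x.length] ++ x) ++ b.2 := by simp [enSt]
    have e2 : 6 + x.length + i = ([0, 0, L, b.1, m, x.length] ++ x).length + i := by
      simp; omega
    have e3 : (enSt x L m b).getD 5 0 = x.length := rfl
    simp only [Ex.val, List.getD_cons_zero, e3]
    rw [e2, e, getD_off]
  have h7 : ∀ i, (Gn.ifle (.con 1)
      (.inp (.add (.add (.con 6) (.inp (.con 5))) (.var 0))) (.bit true) (.bit false)).out
        (enSt x L m b) [i] = [decide (1 ≤ b.2.getD i 0)] := by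
    intro i
    simp only [Gn.out]
    rw [h6]
    have e1 : (Ex.con 1).val (enSt x L m b) [i] = 1 := rfl
    rw [e1]
    by_cases h : 1 ≤ b.2.getD i 0
    · rw [if_pos h, decide_eq_true h]
    · rw [if_neg h, decide_eq_false h]
  show (List.range ((Ex.inp (.con 4)).val (enSt x L m b) [])).flatMap _ = _
  rw [h4]
  have h8 : ∀ l : List ℕ, l.flatMap (fun i => (Gn.ifle (.con 1)
      (.inp (.add (.add (.con 6) (.inp (.con 5))) (.var 0))) (.bit true) (.bit false)).out
        (enSt x L m b) [i]) = l.map (fun i => decide (1 ≤ b.2.getD i 0)) := by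
    intro l
    induction l with
    | nil => rfl
    | cons a l ih => rw [List.flatMap_cons, ih, h7]; rfl
  rw [h8, ← hb]
  conv_rhs => rw [← map_getD_range b.2]
  rw [List.map_map]
  rfl

open scoped Classical in
/-- DEPTH FIRST SEARCH ON A TURING MACHINE: if the test `al`, the value `vl` and the solution
`sol` of a node are computed in polynomial time then the search is performed by a machine in
polynomial space, with time proportional to the number of steps of the search. -/
theorem dfs_machine (h f0 : List ℕ → List ℕ) (hh : PF h) (h0 : PF f0) {ι : Type}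
    (x : ι → List ℕ) (L m V : ι → ℕ) (al : ι → List ℕ → Prop) (vl : ι → List ℕ → ℕ)
    (sol : ι → List ℕ → List ℕ)
    (hI0 : ∀ i, f0 (x i) = ndSt (x i) (L i) (m i) (0, List.replicate (m i) 0) [])
    (hIs : ∀ i t, t.length ≤ L i → (∀ a ∈ t, a ≤ 1) →
      vl i t + 1 ≤ V i ∧ (sol i t).length = m i ∧ ∀ a ∈ sol i t, a ≤ 1)
    (hIh : ∀ i b t, okb (m i) (V i) b → t.length ≤ L i → (∀ a ∈ t, a ≤ 1) →
      h (ndSt (x i) (L i) (m i) b t) =
        (if al i t then 1 else 0) :: vl i t :: (ndSt (x i) (L i) (m i) b t ++ sol i t)) :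
    ∃ (tm : FinTM2) (ei : tm.Γ tm.k₀ ≃ Bool) (eo : tm.Γ tm.k₁ ≃ Bool) (p : ℕ[X]), Binary tm ∧
      ∀ i, RunsWithin tm ei eo (unary (x i))
        ((dfs (al i) (vl i) (sol i) (L i) [] (0, List.replicate (m i) 0)).2.2.map
          (fun a => decide (1 ≤ a)))
        (((dfs (al i) (vl i) (sol i) (L i) [] (0, List.replicate (m i) 0)).1 + 1) *
          p.eval ((unary (x i)).length + L i + m i + V i))
        (p.eval ((unary (x i)).length + L i + m i + V i)) := by
  set F : List ℕ → List ℕ := fun l => B1.fn (B0.fn (h l)) with hFdef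
  have hPF : PF F := PF.comp (PF.comp hh (PF.of_ls B0)) (PF.of_ls B1)
  obtain ⟨tm, ei, eo, p, hbin, hM⟩ := loop_machine f0 F h0 hPF outG
  refine ⟨tm, ei, eo, p.comp (4 * X + 7), hbin, ?_⟩
  intro j
  have hIs' := hIs j
  have hIh' := hIh j
  have hf0 := hI0 j
  generalize x j = x at *
  generalize L j = L at *
  generalize m j = m at *
  generalize V j = V at *
  generalize al j = al at *
  generalize vl j = vl at *
  generalize sol j = sol at *
  have hF : ∀ b t, okb m V b → t.length ≤ L → (∀ a ∈ t, a ≤ 1) →
      F (ndSt x L m b t) = if al t then (if t.length + 1 ≤ L then ndSt x L m b (0 :: t) else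
        nxSt x L m (ud (vl t) (sol t) b) (bk t)) else nxSt x L m b (bk t) := by
    intro b t hb ht h1
    obtain ⟨s1, s2, s3⟩ := hIs' t ht h1
    have e1 := hIh' b t hb ht h1
    rw [ly_eq] at e1
    have e2 := B0_fn (a := if al t then 1 else 0) (v := vl t) (L := L) (x := x) (b := b)
      (t := t) hb.2.1 s2
    have e3 := B1_fn (a := if al t then 1 else 0) (v := vl t) (L := L) (x := x) (b := b)
      (t := t) hb.2.1 s2
    simp only [hFdef]
    rw [e1, e2]
    unfold lz at e3
    rw [e3]
    by_cases c : al t
    · simp only [c, if_true, le_refl]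
    · simp only [c, if_false]
      rfl
  have hb0 : okb m V (0, List.replicate m 0) :=
    ⟨Nat.zero_le _, List.length_replicate, fun a ha => by
      rw [List.eq_of_mem_replicate ha]; omega⟩
  obtain ⟨r1, r2, r3⟩ := dfs_run (al := al) hF hIs' L [] (0, List.replicate m 0)
    (by simp) (by simp) hb0
  set r := dfs al vl sol L [] (0, List.replicate m 0) with hr
  have hend : nxSt x L m r.2 (bk []) = enSt x L m r.2 := by simp [nxSt, bk]
  rw [hend, ← hf0] at r1
  rw [← hf0] at r2
  set N := (unary x).length + L + m + V with hN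
  have hX : (unary x).length = x.sum + x.length := unary_length x
  have hB : ∀ b t, okb m V b → t.length ≤ L → (∀ a ∈ t, a ≤ 1) →
      (unary (ndSt x L m b t)).length ≤ 4 * N + 7 := by
    intro b t hb ht h1
    rw [unary_length]
    have e1 := sum_le_len h1
    have e2 := sum_le_len hb.2.2
    have e3 := hb.1
    have e4 := hb.2.1
    simp only [ndSt, List.sum_append, List.length_append, List.sum_cons, List.sum_nil,
      List.length_cons, List.length_nil]
    omega
  have hB' : (unary (enSt x L m r.2)).length ≤ 4 * N + 7 := by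
    rw [unary_length]
    have e2 := sum_le_len r3.2.2
    have e3 := r3.1
    have e4 := r3.2.1
    simp only [enSt, List.sum_append, List.length_append, List.sum_cons, List.sum_nil,
      List.length_cons, List.length_nil]
    omega
  have key := hM x r.1 (4 * N + 7) (by omega) ?_ ?_ ?_
  · rw [r1, outG_out x L m r.2 r3.2.1] at key
    have e : (p.comp (4 * X + 7)).eval N = p.eval (4 * N + 7) := by simp
    rw [e]
    exact key
  · intro i hi
    rcases Nat.lt_or_ge i r.1 with c | c
    · obtain ⟨b, t, e, hb, ht, h1⟩ := r2 i c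
      rw [e]
      exact hB b t hb ht h1
    · have : i = r.1 := by omega
      rw [this, r1]
      exact hB'
  · intro i hi
    obtain ⟨b, t, e, -, -, -⟩ := r2 i hi
    rw [e]
    simp [ndSt]
  · rw [r1]
    simp [enSt]

end Pool.Agent.H88.MC
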