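import Pool.Agent.H88.MC.Targets

/-!
Targets: graphs of which only a constant fraction of the pairs is random.
-/

namespace Pool.Agent.H88.MC

open Finset

open scoped Classical in
/-- resampling: the vertices of `J ⊆ V₁` are balanced with probability at most `ρ^|J|` -/
def T_SM0 : Prop :=
  ∀ (n : ℕ) (F H : SimpleGraph (Fin n)) (V₁ V₂ J : Finset (Fin n)) (y : Fin n → Bool) (r ρ : ℝ),
    Disjoint V₁ V₂ → J ⊆ V₁ → 0 ≤ r → 0 ≤ ρ →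
    (∀ v ∈ J, (2 * r + 1) / Real.sqrt (#(nb F v ∩ V₂) + 1) ≤ ρ) →
    (#{G : SimpleGraph (Fin n) | Agree F H G ∧ ∀ v ∈ J, |(ay G y v : ℝ)| ≤ r} : ℝ) ≤
      ρ ^ #J * #{G : SimpleGraph (Fin n) | Agree F H G}

/-- many vertices on one side of a bipartition have many neighbours on the other side -/
def T_SMB : Prop :=
  ∀ (n : ℕ) (F : SimpleGraph (Fin n)) (K : ℝ), 1 ≤ K → (n : ℝ) ^ 2 ≤ K * ∑ v, dg F v →
    ∃ V₁ V₂ J : Finset (Fin n), Disjoint V₁ V₂ ∧ J ⊆ V₁ ∧ n / (8 * K) ≤ #J ∧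
      ∀ v ∈ J, n / (8 * K) ≤ #(nb F v ∩ V₂)

open scoped Classical in
/-- if at least `n² / (2K)` pairs are random then a fixed bipartition is balanced with
exponentially small probability -/
def T_SM1 : Prop :=
  ∀ K : ℝ, 1 ≤ K → ∃ c : ℝ, 0 < c ∧ ∃ n1 : ℕ, ∀ n : ℕ, n1 ≤ n →
    ∀ (F H : SimpleGraph (Fin n)), (n : ℝ) ^ 2 ≤ K * ∑ v, dg F v → ∀ y : Fin n → Bool,
      (#{G : SimpleGraph (Fin n) | Agree F H G ∧ Bal c G y} : ℝ) ≤
        2 ^ (-(2 * c * n)) * #{G : SimpleGraph (Fin n) | Agree F H G}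

open scoped Classical in
/-- semi-random graphs -/
def T_SM : Prop :=
  ∀ K : ℝ, 1 ≤ K → ∃ c : ℝ, 0 < c ∧ ∃ n1 : ℕ, ∀ n : ℕ, n1 ≤ n →
    ∀ (F H : SimpleGraph (Fin n)), (n : ℝ) ^ 2 ≤ K * ∑ v, dg F v →
      (#{G : SimpleGraph (Fin n) | Agree F H G ∧ (2 : ℝ) ^ ((1 - c) * n) < numBal c G} : ℝ) ≤
        2 ^ (-(c * n)) * #{G : SimpleGraph (Fin n) | Agree F H G}

end Pool.Agent.H88.MC
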