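import Pool.Agent.H88.MC.Main
import Pool.Agent.H88.MC.Targets2

/-!
The polynomial-space algorithm: final statement (from the targets of the board).
-/

namespace Pool.Agent.H88.MC

open Pool.Agent.H68.OQP Finset Turing Polynomial

variable {n : ℕ}

theorem FindsMaxCut.mono {tm : FinTM2} {ei : tm.Γ tm.k₀ ≃ Bool} {eo : tm.Γ tm.k₁ ≃ Bool}
    {G : SimpleGraph (Fin n)} {T T' : ℝ} {S S' : ℕ} (h : FindsMaxCut tm ei eo G T S)
    (hT : T ≤ T') (hS : S ≤ S') : FindsMaxCut tm ei eo G T' S' := by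
  obtain ⟨y, t, h1, h2, m, hm, h3, h4⟩ := h
  exact ⟨y, t, h1, h2.trans hT, m, hm, h3, fun i hi c hc => (h4 i hi c hc).trans hS⟩

theorem Bal.mono {c c' : ℝ} (hc : 0 ≤ c) (h : c ≤ c') {G : SimpleGraph (Fin n)} {y : Fin n → Bool}
    (hb : Bal c G y) : Bal c' G y := by
  classical
  unfold Bal at *
  refine le_trans ?_ (hb.trans (mul_le_mul_of_nonneg_right h (Nat.cast_nonneg _)))
  have h2 : c ^ 2 ≤ c' ^ 2 := pow_le_pow_left₀ hc h 2
  exact_mod_cast card_le_card (fun v hv => by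
    rw [mem_filter] at hv ⊢
    refine ⟨mem_univ _, lt_of_le_of_lt ?_ hv.2⟩
    exact mul_le_mul_of_nonneg_right h2 (by positivity))

theorem numBal_mono {c c' : ℝ} (hc : 0 ≤ c) (h : c ≤ c') (G : SimpleGraph (Fin n)) :
    numBal c G ≤ numBal c' G := by
  classical
  unfold numBal
  exact card_le_card (fun y hy => by
    rw [mem_filter] at hy ⊢
    exact ⟨mem_univ _, hy.2.mono hc h⟩)

theorem numBal_le (c : ℝ) (G : SimpleGraph (Fin n)) : numBal c G ≤ 2 ^ n := by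
  classical
  unfold numBal
  refine (card_le_univ _).trans ?_
  simp

/-- existence of good parameters -/
theorem params (hHS : T_HS) (hEX : T_EX) (k : ℕ) (hk : 1 ≤ k) (n : ℕ) (G : SimpleGraph (Fin n))
    (y : Fin n → Bool) (hn : 16 * k * (8000 * k ^ 4) ≤ n) (hy : ∀ v, sg (y v) * ay G y v ≤ 0) :
    ∃ q a b e, q ≤ 2 * n ∧ a ≤ 2 * n ∧ b ≤ 2 * n ∧
        e ≤ 2 * n ∧ n ≤ 2 * (8000 * k ^ 4) * #(hset n (8000 * k ^ 4) q a b e) ∧
        Thin k G (hset n (8000 * k ^ 4) q a b e) ∧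
        (∀ ξ υ : Fin n → Bool, (∀ v, v ∉ hset n (8000 * k ^ 4) q a b e → ξ v = y v) →
          (∀ v, v ∈ hset n (8000 * k ^ 4) q a b e → υ v = y v) →
            (CA k (8000 * k ^ 4) G (hset n (8000 * k ^ 4) q a b e) ξ υ n ∨
              CB k G (hset n (8000 * k ^ 4) q a b e) ξ)) := by
  have hk4 : 1 ≤ k ^ 4 := Nat.one_le_pow _ _ hk
  have hD : 1 ≤ 8000 * k ^ 4 := by omega
  have hn' : 16 * (8000 * k ^ 4) ≤ n := by nlinarith
  obtain ⟨q, hq, hq1, hq2⟩ := Nat.exists_prime_lt_and_le_two_mul n (by omega)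
  obtain ⟨p, hp1, hp2, hTW⟩ := hHS q n (8000 * k ^ 4) hq (by omega) hq1.le hD
  have : NeZero q := ⟨hq.ne_zero⟩
  have hDr : (0 : ℝ) < ((8000 * k ^ 4 : ℕ) : ℝ) := by exact_mod_cast hD
  have hqr : ((8000 * k ^ 4 : ℕ) : ℝ) ≤ q := by
    have : 8000 * k ^ 4 ≤ q := by omega
    exact_mod_cast this
  have h1q : (1 : ℝ) / q ≤ 1 / ((8000 * k ^ 4 : ℕ) : ℝ) := one_div_le_one_div_of_le hDr hqr
  have hp : p ≤ 1 / (4000 * k ^ 4) := by
    refine hp2.trans ((add_le_add_right h1q _).trans (le_of_eq ?_))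
    push_cast
    have : (k : ℝ) ≠ 0 := by positivity
    field_simp
    ring
  have hpn : 16 * (k : ℝ) ≤ p * n := by
    have h1 : (16 * (k : ℝ)) * ((8000 * k ^ 4 : ℕ) : ℝ) ≤ n := by
      have : ((16 * k * (8000 * k ^ 4) : ℕ) : ℝ) ≤ n := by exact_mod_cast hn
      push_cast at this ⊢
      linarith
    calc 16 * (k : ℝ) = (16 * (k : ℝ)) * ((8000 * k ^ 4 : ℕ) : ℝ) * (1 / ((8000 * k ^ 4 : ℕ) : ℝ)) := by
          field_simp
      _ ≤ n * p := mul_le_mul h1 hp1 (by positivity) (Nat.cast_nonneg _)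
      _ = p * n := mul_comm _ _
  obtain ⟨ω, h1, h2, h3⟩ := hEX (Fin q × Fin q × Fin q) n
    (fun ω => hset n (8000 * k ^ 4) q ω.1.1 ω.2.1.1 ω.2.2.1) p k (8000 * k ^ 4) hTW hk hD hp1 hp
    hpn G y hy
  exact ⟨q, ω.1.1, ω.2.1.1, ω.2.2.1, hq2, by have := ω.1.2; omega, by have := ω.2.1.2; omega,
    by have := ω.2.2.2; omega, h1, h2, h3⟩

open scoped Classical in
theorem final (hHS : T_HS) (hEX : T_EX) (hCT : T_CT) (hPA : T_PA) (hCS : T_CS) (hLO : T_LO)
    (hSP : T_SP) (hC4 : T_C4) (hSM : T_SM) :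
    ∀ K : ℝ, 1 ≤ K → ∃ ε : ℝ, 0 < ε ∧ ∃ (tm : FinTM2) (ei : tm.Γ tm.k₀ ≃ Bool)
      (eo : tm.Γ tm.k₁ ≃ Bool) (p : ℕ[X]), Binary tm ∧
      (∀ (n : ℕ) (G : SimpleGraph (Fin n)),
        FindsMaxCut tm ei eo G (p.eval n * (2 ^ ((1 - ε) * n) + numBal (1 / K) G))
          (p.eval n)) ∧
      (∀ (n : ℕ) (G : SimpleGraph (Fin n)), Spec (1 / K) G →
        FindsMaxCut tm ei eo G (p.eval n * 2 ^ ((1 - ε) * n)) (p.eval n)) ∧
      (∀ (n : ℕ) (G : SimpleGraph (Fin n)), (n : ℝ) ≤ K * #{v | 0 < dg G v} →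
        ∑ u, ∑ v, (#(nb G u ∩ nb G v) : ℝ) ^ 2 / ((1 + dg G u) * (1 + dg G v)) ≤ K * n →
        FindsMaxCut tm ei eo G (p.eval n * 2 ^ ((1 - ε) * n)) (p.eval n)) ∧
      (∀ (n : ℕ) (F H : SimpleGraph (Fin n)), (n : ℝ) ^ 2 ≤ K * ∑ v, dg F v →
        (#{G : SimpleGraph (Fin n) | Agree F H G ∧
          ¬ FindsMaxCut tm ei eo G (p.eval n * 2 ^ ((1 - ε) * n)) (p.eval n)} : ℝ) ≤
        2 ^ (-(ε * n)) * #{G : SimpleGraph (Fin n) | Agree F H G}) := by
  intro K hK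
  have hK0 : (0 : ℝ) < 1 / K := by positivity
  obtain ⟨ca, ha0, hale, hSPa⟩ := hSP (1 / K) hK0
  obtain ⟨cb0, hb00, hC4b⟩ := hC4 K hK
  obtain ⟨cb, hb0, hble, hSPb⟩ := hSP cb0 hb00
  obtain ⟨cr, hr0, n1, hSMr⟩ := hSM K hK
  set c1 : ℝ := min (min (1 / K) ca) (min cb cr) with hc1
  have hc10 : 0 < c1 := lt_min (lt_min hK0 ha0) (lt_min hb0 hr0)
  have hc1K : c1 ≤ 1 / K := (min_le_left _ _).trans (min_le_left _ _)
  have hc1a : c1 ≤ ca := (min_le_left _ _).trans (min_le_right _ _)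
  have hc1b : c1 ≤ cb := (min_le_right _ _).trans (min_le_left _ _)
  have hc1r : c1 ≤ cr := (min_le_right _ _).trans (min_le_right _ _)
  set k : ℕ := ⌈3 / c1⌉₊ with hkdef
  have hk3 : 3 / c1 ≤ k := Nat.le_ceil _
  have hkpos : (0 : ℝ) < k := lt_of_lt_of_le (by positivity) hk3
  have hk1 : 1 ≤ k := by exact_mod_cast hkpos
  have hkc : 3 / (k : ℝ) ≤ c1 := by
    rw [div_le_iff₀ hkpos]
    rw [div_le_iff₀ hc10] at hk3
    linarith
  set D : ℕ := 8000 * k ^ 4 with hD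
  have hk4 : 1 ≤ k ^ 4 := Nat.one_le_pow _ _ hk1
  have hD1 : 1 ≤ D := by omega
  set n0 : ℕ := 16 * k * D with hn0
  have hn01 : 1 ≤ n0 := Nat.succ_le_of_lt (by positivity)
  obtain ⟨tm, ei, eo, p0, hbin, hM⟩ := main_machine k D n0 hD1 hPA hCS
    (fun n G y hn hy => params hHS hEX k hk1 n G y hn hy) hn01 hLO
  set ε0 : ℝ := 1 / (8 * k * D) with hε0
  have hDr : (1 : ℝ) ≤ D := by exact_mod_cast hD1
  have hkr : (1 : ℝ) ≤ k := by exact_mod_cast hk1
  have hkD : (1 : ℝ) ≤ k * D := by nlinarith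
  have hε0pos : 0 < ε0 := by positivity
  have hε01 : ε0 ≤ 1 := by
    rw [hε0, div_le_one (by positivity)]
    nlinarith
  set ε : ℝ := min ε0 c1 with hε
  have hεpos : 0 < ε := lt_min hε0pos hc10
  have hεε0 : ε ≤ ε0 := min_le_left _ _
  have hεc1 : ε ≤ c1 := min_le_right _ _
  -- the polynomials
  set p1 : ℕ[X] := C (2 * ((10 * n0 + 1) * 2 ^ (10 * n0))) + 2 +
    6 * (10 * X + 1) * (2 * X + 1) ^ 4 with hp1
  set p : ℕ[X] := p1 * p0 * C (2 + 2 ^ n1) + p0 with hp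
  have hp1e : ∀ n : ℕ, p1.eval n = 2 * ((10 * n0 + 1) * 2 ^ (10 * n0)) + 2 +
      6 * (10 * n + 1) * (2 * n + 1) ^ 4 := by
    intro n
    simp [hp1]
  have hpe : ∀ n : ℕ, p.eval n = p1.eval n * p0.eval n * (2 + 2 ^ n1) + p0.eval n := by
    intro n
    simp [hp]
  have hS : ∀ n : ℕ, p0.eval n ≤ p.eval n := fun n => by rw [hpe]; omega
  -- the count
  have hW : ∀ n : ℕ, (1 : ℝ) ≤ 2 ^ ((1 - ε) * n) := fun n =>
    Real.one_le_rpow (by norm_num) (mul_nonneg (by linarith) (Nat.cast_nonneg _))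
  have hcount : ∀ (n : ℕ) (G : SimpleGraph (Fin n)),
      ((2 + 2 * ∑ j ∈ range (10 * n + 1), #{t ∈ bits j | Alive k D n0 G t} : ℕ) : ℝ) ≤
        p1.eval n * (2 ^ ((1 - ε) * n) + numBal c1 G) := by
    intro n G
    have hW1 := hW n
    have hNB : (0 : ℝ) ≤ numBal c1 G := Nat.cast_nonneg _
    rcases Nat.lt_or_ge n n0 with h | h
    · have h1 : ∑ j ∈ range (10 * n + 1), #{t ∈ bits j | Alive k D n0 G t} ≤
          (10 * n0 + 1) * 2 ^ (10 * n0) := by
        refine (sum_le_card_nsmul _ _ (2 ^ (10 * n0)) (fun j hj => ?_)).trans ?_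
        · rw [mem_range] at hj
          exact (card_filter_le _ _).trans ((bits_card j).trans
            (Nat.pow_le_pow_right (by norm_num) (by omega)))
        · rw [card_range, smul_eq_mul]
          exact Nat.mul_le_mul_right _ (by omega)
      have h2 : 2 + 2 * ∑ j ∈ range (10 * n + 1), #{t ∈ bits j | Alive k D n0 G t} ≤
          p1.eval n := by
        rw [hp1e]
        have : 0 ≤ 6 * (10 * n + 1) * (2 * n + 1) ^ 4 := Nat.zero_le _
        omega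
      have h3 : ((2 + 2 * ∑ j ∈ range (10 * n + 1), #{t ∈ bits j | Alive k D n0 G t} : ℕ) : ℝ) ≤
          (p1.eval n : ℕ) := by exact_mod_cast h2
      refine h3.trans ?_
      have h4 : (0 : ℝ) ≤ (p1.eval n : ℕ) := Nat.cast_nonneg _
      nlinarith
    · have hn1 : 1 ≤ n := by omega
      have hnr : (0 : ℝ) ≤ n := Nat.cast_nonneg _
      have e1 : (2 : ℝ) ^ ((n : ℝ) - n / (2 * D)) ≤ 2 ^ ((1 - ε) * n) := by
        refine Real.rpow_le_rpow_of_exponent_le (by norm_num) ?_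
        have h1 : ε ≤ 1 / (2 * D) := by
          refine hεε0.trans ?_
          rw [hε0]
          refine one_div_le_one_div_of_le (by positivity) ?_
          nlinarith
        have h2 : (n : ℝ) / (2 * D) = n * (1 / (2 * D)) := by ring
        rw [h2]
        nlinarith
      have e2 : (2 : ℝ) ^ ((n : ℝ) - n / (8 * k * D)) ≤ 2 ^ ((1 - ε) * n) := by
        refine Real.rpow_le_rpow_of_exponent_le (by norm_num) ?_
        have h2 : (n : ℝ) / (8 * k * D) = n * ε0 := by rw [hε0]; ring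
        rw [h2]
        nlinarith
      have e3 : (numBal (3 / k) G : ℝ) ≤ numBal c1 G := by
        exact_mod_cast numBal_mono (by positivity) hkc G
      have e4 : ∀ j ∈ range (10 * n + 1), (#{t ∈ bits j | Alive k D n0 G t} : ℝ) ≤
          (2 * n + 1) ^ 4 * (3 * (2 ^ ((1 - ε) * n) + numBal c1 G)) := by
        intro j hj
        rw [mem_range] at hj
        refine (hCT n k D n0 j G hk1 hD1 h hn1 (by omega)).trans ?_
        refine mul_le_mul_of_nonneg_left ?_ (by positivity)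
        linarith
      push_cast
      have e5 := sum_le_card_nsmul _ _ _ e4
      rw [card_range, nsmul_eq_mul] at e5
      push_cast at e5
      rw [hp1e]
      push_cast
      set W := (2 : ℝ) ^ ((1 - ε) * n) with hWdef
      set B := (numBal c1 G : ℝ) with hBdef
      have e6 : (2 : ℝ) ≤ (2 * ((10 * n0 + 1) * 2 ^ (10 * n0)) + 2) * (W + B) := by
        have h1 : (0 : ℝ) ≤ 2 * ((10 * n0 + 1) * 2 ^ (10 * n0)) := by positivity
        nlinarith
      calc 2 + 2 * ∑ j ∈ range (10 * n + 1), (#{t ∈ bits j | Alive k D n0 G t} : ℝ)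
          ≤ 2 + 2 * ((10 * n + 1) * ((2 * n + 1) ^ 4 * (3 * (W + B)))) := by linarith
        _ ≤ (2 * ((10 * n0 + 1) * 2 ^ (10 * n0)) + 2) * (W + B) +
            2 * ((10 * n + 1) * ((2 * n + 1) ^ 4 * (3 * (W + B)))) := by linarith
        _ = (2 * ((10 * n0 + 1) * 2 ^ (10 * n0)) + 2 +
            6 * (10 * n + 1) * (2 * n + 1) ^ 4) * (W + B) := by ring
  -- time bound from a bound on the number of balanced bipartitions
  have hfind : ∀ (n : ℕ) (G : SimpleGraph (Fin n)), FindsMaxCut tm ei eo G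
      (((p1.eval n : ℕ) : ℝ) * ((p0.eval n : ℕ) : ℝ) * (2 ^ ((1 - ε) * n) + numBal c1 G)) (p.eval n) := by
    intro n G
    refine (hM n G).mono ?_ (hS n)
    have h1 := mul_le_mul_of_nonneg_right (hcount n G)
      (Nat.cast_nonneg (p0.eval n) : (0 : ℝ) ≤ (p0.eval n : ℕ))
    refine h1.trans (le_of_eq ?_)
    ring
  have hfast : ∀ (n : ℕ) (G : SimpleGraph (Fin n)),
      (numBal c1 G : ℝ) ≤ (1 + 2 ^ n1) * 2 ^ ((1 - ε) * n) →
      FindsMaxCut tm ei eo G (p.eval n * 2 ^ ((1 - ε) * n)) (p.eval n) := by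
    intro n G h
    refine (hfind n G).mono ?_ le_rfl
    rw [hpe]
    push_cast
    have h1 : (0 : ℝ) ≤ ((p1.eval n : ℕ) : ℝ) * ((p0.eval n : ℕ) : ℝ) := by positivity
    have h2 : (0 : ℝ) ≤ ((p0.eval n : ℕ) : ℝ) := by positivity
    have h3 := hW n
    set W := (2 : ℝ) ^ ((1 - ε) * n)
    calc ((p1.eval n : ℕ) : ℝ) * ((p0.eval n : ℕ) : ℝ) * (W + numBal c1 G)
        ≤ ((p1.eval n : ℕ) : ℝ) * ((p0.eval n : ℕ) : ℝ) * (W + (1 + 2 ^ n1) * W) :=
          mul_le_mul_of_nonneg_left (by linarith) h1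
      _ ≤ ((p1.eval n : ℕ) : ℝ) * ((p0.eval n : ℕ) : ℝ) * (W + (1 + 2 ^ n1) * W) + p0.eval n * W := by nlinarith
      _ = (((p1.eval n : ℕ) : ℝ) * ((p0.eval n : ℕ) : ℝ) * (2 + 2 ^ n1) + p0.eval n) * W := by ring
  have hfast' : ∀ (n : ℕ) (G : SimpleGraph (Fin n)) (c' : ℝ), c1 ≤ c' →
      (numBal c' G : ℝ) ≤ 2 ^ ((1 - c') * n) →
      FindsMaxCut tm ei eo G (p.eval n * 2 ^ ((1 - ε) * n)) (p.eval n) := by
    intro n G c' hc' h
    refine hfast n G ?_
    have h1 : (numBal c1 G : ℝ) ≤ numBal c' G := by exact_mod_cast numBal_mono hc10.le hc' G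
    have h2 : (2 : ℝ) ^ ((1 - c') * n) ≤ 2 ^ ((1 - ε) * n) := by
      refine Real.rpow_le_rpow_of_exponent_le (by norm_num) ?_
      have : (0 : ℝ) ≤ n := Nat.cast_nonneg _
      nlinarith
    have h3 := hW n
    have h4 : (0 : ℝ) ≤ 2 ^ n1 := by positivity
    nlinarith
  refine ⟨ε, hεpos, tm, ei, eo, p, hbin, ?_, ?_, ?_, ?_⟩
  · intro n G
    refine (hfind n G).mono ?_ le_rfl
    rw [hpe]
    push_cast
    have h1 : (0 : ℝ) ≤ ((p1.eval n : ℕ) : ℝ) * ((p0.eval n : ℕ) : ℝ) := by positivity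
    have h2 : (0 : ℝ) ≤ ((p0.eval n : ℕ) : ℝ) := by positivity
    have h3 := hW n
    have h4 : (numBal c1 G : ℝ) ≤ numBal (1 / K) G := by
      exact_mod_cast numBal_mono hc10.le hc1K G
    have h5 : (0 : ℝ) ≤ 2 ^ n1 := by positivity
    have h6 : (0 : ℝ) ≤ (2 : ℝ) ^ ((1 - ε) * n) + numBal (1 / K) G := by positivity
    calc ((p1.eval n : ℕ) : ℝ) * ((p0.eval n : ℕ) : ℝ) * (2 ^ ((1 - ε) * n) + numBal c1 G)
        ≤ ((p1.eval n : ℕ) : ℝ) * ((p0.eval n : ℕ) : ℝ) * (2 ^ ((1 - ε) * n) + numBal (1 / K) G) :=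
          mul_le_mul_of_nonneg_left (by linarith) h1
      _ ≤ (((p1.eval n : ℕ) : ℝ) * ((p0.eval n : ℕ) : ℝ) * (2 + 2 ^ n1) + p0.eval n) *
          (2 ^ ((1 - ε) * n) + numBal (1 / K) G) := by
          refine mul_le_mul_of_nonneg_right ?_ h6
          nlinarith
  · intro n G h
    exact hfast' n G ca hc1a (hSPa n G h)
  · intro n G h1 h2
    exact hfast' n G cb hc1b (hSPb n G (hC4b n G h1 h2))
  · intro n F H hF
    rcases Nat.lt_or_ge n n1 with h | h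
    · have h0 : #{G : SimpleGraph (Fin n) | Agree F H G ∧
          ¬ FindsMaxCut tm ei eo G (p.eval n * 2 ^ ((1 - ε) * n)) (p.eval n)} = 0 := by
        rw [card_eq_zero, filter_eq_empty_iff]
        intro G _ hc
        refine hc.2 (hfast n G ?_)
        have h1 : (numBal c1 G : ℝ) ≤ 2 ^ n := by exact_mod_cast numBal_le c1 G
        have h2 : (2 : ℝ) ^ n ≤ 2 ^ n1 := pow_le_pow_right₀ (by norm_num) h.le
        have h3 := hW n
        have h4 : (0 : ℝ) ≤ 2 ^ n1 := by positivity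
        nlinarith
      rw [h0, Nat.cast_zero]
      positivity
    · have h1 : #{G : SimpleGraph (Fin n) | Agree F H G ∧
          ¬ FindsMaxCut tm ei eo G (p.eval n * 2 ^ ((1 - ε) * n)) (p.eval n)} ≤
          #{G : SimpleGraph (Fin n) | Agree F H G ∧
            (2 : ℝ) ^ ((1 - cr) * n) < numBal cr G} := by
        refine card_le_card (fun G hG => ?_)
        rw [mem_filter] at hG ⊢
        refine ⟨mem_univ _, hG.2.1, ?_⟩
        by_contra hc
        exact hG.2.2 (hfast' n G cr hc1r (not_lt.mp hc))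
      have h2 : (#{G : SimpleGraph (Fin n) | Agree F H G ∧
          ¬ FindsMaxCut tm ei eo G (p.eval n * 2 ^ ((1 - ε) * n)) (p.eval n)} : ℝ) ≤
          #{G : SimpleGraph (Fin n) | Agree F H G ∧
            (2 : ℝ) ^ ((1 - cr) * n) < numBal cr G} := by
        exact_mod_cast h1
      refine h2.trans ((hSMr n h F H hF).trans ?_)
      refine mul_le_mul_of_nonneg_right ?_ (Nat.cast_nonneg _)
      refine Real.rpow_le_rpow_of_exponent_le (by norm_num) ?_
      have : (0 : ℝ) ≤ n := Nat.cast_nonneg _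
      nlinarith

end Pool.Agent.H88.MC
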