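import Pool.Agent.H88.MC.Pass2

/-!
The numbers computed by the passes are the quantities of the algorithm.
-/

namespace Pool.Agent.H88.MC

open Pool.Agent.H68.OQP Finset

open scoped Classical in
/-- adjacency as a number -/
noncomputable def gA {n : ℕ} (G : SimpleGraph (Fin n)) (u v : ℕ) : ℕ :=
  if ∃ (hu : u < n) (hv : v < n), G.Adj ⟨u, hu⟩ ⟨v, hv⟩ then 1 else 0

/-- the list that codes a graph: the number of vertices, then the adjacency matrix, row by row -/
noncomputable def gcode {n : ℕ} (G : SimpleGraph (Fin n)) : List ℕ :=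
  n :: (List.range (n * n)).map (fun i => gA G (i / n) (i % n))

variable {n : ℕ} {G : SimpleGraph (Fin n)}

theorem mem_nb {u v : Fin n} : v ∈ nb G u ↔ G.Adj u v := by
  simp [nb]

theorem gA_fin (u v : Fin n) : gA G u v = if v ∈ nb G u then 1 else 0 := by
  have h : (∃ (hu : (u : ℕ) < n) (hv : (v : ℕ) < n), G.Adj ⟨u, hu⟩ ⟨v, hv⟩) ↔ v ∈ nb G u := by
    rw [mem_nb]
    exact ⟨fun ⟨_, _, h⟩ => h, fun h => ⟨u.2, v.2, h⟩⟩
  unfold gA
  by_cases c : v ∈ nb G u
  · rw [if_pos (h.mpr c), if_pos c]
  · rw [if_neg (fun h' => c (h.mp h')), if_neg c]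

theorem gA_le (u v : ℕ) : gA G u v ≤ 1 := by
  unfold gA
  split_ifs <;> omega

theorem gcode_length : (gcode G).length = 1 + n * n := by
  simp [gcode]
  omega

theorem gcode_getD {u v : ℕ} (hu : u < n) (hv : v < n) :
    (gcode G).getD (1 + (u * n + v)) 0 = gA G u v := by
  have h := idx_lt hu hv
  have e : 1 + (u * n + v) = (u * n + v) + 1 := by omega
  unfold gcode
  rw [e, List.getD_cons_succ, getD_map_range _ h]
  have hn : 0 < n := by omega
  have e1 : (u * n + v) / n = u := by
    rw [Nat.mul_comm, Nat.mul_add_div hn, Nat.div_eq_of_lt hv, Nat.add_zero]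
  have e2 : (u * n + v) % n = v := by
    rw [Nat.mul_comm, Nat.mul_add_mod, Nat.mod_eq_of_lt hv]
  rw [e1, e2]

/-! ### the views of a node state -/

section

variable {b : ℕ × List ℕ} {t : List ℕ}

theorem nd_length (hb : b.2.length = n) :
    (ndSt (gcode G) (10 * n) n b t).length = 7 + (n * n + n) + t.length := by
  simp only [ndSt, List.length_append, gcode_length, hb, List.length_cons, List.length_nil]
  omega

theorem nd_vw (hb : b.2.length = n) : Vw n t.length (gA G) (ndSt (gcode G) (10 * n) n b t) where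
  hn := by
    have e : ndSt (gcode G) (10 * n) n b t = [1, t.length, 10 * n, b.1, n, (gcode G).length] ++
        (gcode G ++ b.2 ++ t) := by simp [ndSt]
    have e2 : (6 : ℕ) = [1, t.length, 10 * n, b.1, n, (gcode G).length].length + 0 := rfl
    rw [e]
    conv_lhs => rw [e2]
    rw [getD_off]
    simp [gcode]
  hk := by simp [ndSt]
  hA := fun u hu v hv => by
    have h := idx_lt hu hv
    have e : ndSt (gcode G) (10 * n) n b t = [1, t.length, 10 * n, b.1, n, (gcode G).length] ++
        (gcode G ++ (b.2 ++ t)) := by simp [ndSt]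
    have e2 : 7 + (u * n + v) = [1, t.length, 10 * n, b.1, n, (gcode G).length].length +
        (1 + (u * n + v)) := by
      simp only [List.length_cons, List.length_nil]
      omega
    rw [e, e2, getD_off, getD_app_left (by rw [gcode_length]; omega), gcode_getD hu hv]
  hl := (nd_length hb).ge

theorem nd_arr (hb : b.2.length = n) : Arr (ndSt (gcode G) (10 * n) n b t) (7 + (n * n + n))
    t.length (fun i => t.getD i 0) := by
  refine ⟨(nd_length hb).ge, fun i hi => ?_⟩
  have e : ndSt (gcode G) (10 * n) n b t = ([1, t.length, 10 * n, b.1, n, (gcode G).length] ++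
      gcode G ++ b.2) ++ t := by simp [ndSt]
  have e2 : 7 + (n * n + n) + i = ([1, t.length, 10 * n, b.1, n, (gcode G).length] ++
      gcode G ++ b.2).length + i := by
    simp only [List.length_append, gcode_length, hb, List.length_cons, List.length_nil]
    omega
  rw [e, e2, getD_off]

end

/-! ### the initial state -/

/-- the program for the initial state -/
def pI : Ls := .app (.ent (.ex (.con 1))) (.app (.ent (.ex (.con 0)))
  (.app (.ent (.ex (.mul (.con 10) (.inp (.con 0))))) (.app (.ent (.ex (.con 0)))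
  (.app (.ent (.ex (.inp (.con 0)))) (.app (.ent (.ex (.add (.con 1)
    (.mul (.inp (.con 0)) (.inp (.con 0))))))
  (.app (keep (.add (.con 1) (.mul (.inp (.con 0)) (.inp (.con 0)))))
    (tab (.inp (.con 0)) (.ex (.con 0)))))))))

theorem pI_fn : pI.fn (gcode G) = ndSt (gcode G) (10 * n) n (0, List.replicate n 0) [] := by
  have e0 : ∀ env, (Ex.inp (.con 0)).val (gcode G) env = n := fun _ => rfl
  have e1 : ∀ env, (Ex.add (.con 1) (.mul (.inp (.con 0)) (.inp (.con 0)))).val (gcode G) env =
      (gcode G).length := fun _ => by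
    rw [gcode_length]
    rfl
  have e2 : (tab (.inp (.con 0)) (.ex (.con 0))).vals (gcode G) [] = List.replicate n 0 := by
    rw [tab_vals, e0]
    exact List.map_const' .. |>.trans (by simp)
  have e3 : (keep (.add (.con 1) (.mul (.inp (.con 0)) (.inp (.con 0))))).vals (gcode G) [] =
      gcode G := keep_vals (e1 _)
  show [_] ++ ([_] ++ ([(Ex.mul (.con 10) (.inp (.con 0))).val (gcode G) []] ++ ([_] ++
    ([(Ex.inp (.con 0)).val (gcode G) []] ++ ([(Ex.add (.con 1) (.mul (.inp (.con 0))
      (.inp (.con 0)))).val (gcode G) []] ++ ((keep _).vals _ _ ++ (tab _ _).vals _ _)))))) = _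
  rw [e0, e1, e2, e3]
  have e4 : (Ex.mul (.con 10) (.inp (.con 0))).val (gcode G) [] = 10 * n := rfl
  rw [e4]
  simp [ndSt]
  exact ⟨rfl, rfl⟩

end Pool.Agent.H88.MC
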