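import Pool.Agent.H88.MC.Link

/-!
The test computed by the passes is the test of the algorithm.
-/

namespace Pool.Agent.H88.MC

open Pool.Agent.H68.OQP Finset

variable {n : ℕ} {G : SimpleGraph (Fin n)} {t : List ℕ}

theorem vp_zero : vp n (bt t) ≤ 0 ↔ Pat n t := by
  unfold vp Pat
  rw [Nat.le_zero, sum_eq_zero_iff]
  constructor
  · intro h r hr i hi
    have h1 := h r (mem_range.mpr hr)
    rw [sum_eq_zero_iff] at h1
    have h2 := h1 i (mem_range.mpr (by omega))
    rw [if_pos (by omega)] at h2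
    by_contra hc
    rw [if_neg hc] at h2
    omega
  · intro h r hr
    rw [mem_range] at hr
    rw [sum_eq_zero_iff]
    intro i hi
    by_cases c : i + 2 ≤ 2 * n
    · rw [if_pos c, if_pos (h r hr i (by omega))]
    · rw [if_neg c]

theorem hash_sum (q X D : ℕ) (hD : 1 ≤ D) :
    ∑ j ∈ range (X + 1), (if q * j ≤ X then (if D * X + 1 ≤ q + D * (q * j) then 1 else 0)
      else 0) = if D * (X % q) < q then 1 else 0 := by
  rcases Nat.eq_zero_or_pos q with rfl | hq
  · rw [if_neg (by omega)]
    refine sum_eq_zero (fun j _ => ?_)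
    simp
  · have hm := Nat.mod_lt X hq
    have hd := Nat.div_add_mod X q
    have e : D * X = D * (q * (X / q)) + D * (X % q) := by
      rw [← Nat.mul_add, hd]
    have hle : X / q < X + 1 := Nat.lt_succ_of_le (Nat.div_le_self _ _)
    rw [sum_eq_single (X / q)]
    · rw [if_pos (by omega)]
      refine if_congr ?_ rfl rfl
      omega
    · intro j _ hj
      by_cases c : q * j ≤ X
      · rw [if_pos c]
        have h1 : j ≤ X / q := (Nat.le_div_iff_mul_le hq).mpr (by rw [Nat.mul_comm]; exact c)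
        have h2 : j + 1 ≤ X / q := by omega
        have h3 : q * (j + 1) ≤ q * (X / q) := Nat.mul_le_mul_left _ h2
        have h4 : D * (q * (j + 1)) ≤ D * (q * (X / q)) := Nat.mul_le_mul_left _ h3
        have h5 : D * (q * (j + 1)) = D * (q * j) + D * q := by ring
        have h6 : q ≤ D * q := Nat.le_mul_of_pos_left _ hD
        rw [if_neg (by omega)]
      · rw [if_neg c]
    · intro h
      exact absurd (mem_range.mpr hle) h

theorem wU_val {D : ℕ} (hD : 1 ≤ D) (v : Fin n) :
    wU n t D v = if v ∈ US n D t then 1 else 0 := by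
  have h := hash_sum (vC n (bt t) 0)
    (vC n (bt t) 1 * (v * v) + (vC n (bt t) 2 * v + vC n (bt t) 3)) D hD
  unfold wU vU
  rw [h]
  have c0 : vC n (bt t) 0 = qv n t 0 := rfl
  have c1 : vC n (bt t) 1 = qv n t 1 := rfl
  have c2 : vC n (bt t) 2 = qv n t 2 := rfl
  have c3 : vC n (bt t) 3 = qv n t 3 := rfl
  have e : (v ∈ US n D t) ↔ D * ((vC n (bt t) 1 * (v * v) +
      (vC n (bt t) 2 * v + vC n (bt t) 3)) % vC n (bt t) 0) < vC n (bt t) 0 := by
    have : qv n t 1 * (v : ℕ) ^ 2 + qv n t 2 * v + qv n t 3 =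
        qv n t 1 * (v * v) + (qv n t 2 * v + qv n t 3) := by ring
    unfold US hset
    rw [mem_filter, c0, c1, c2, c3, ← this]
    exact ⟨fun h => h.2, fun h => ⟨mem_univ _, h⟩⟩
  by_cases c : v ∈ US n D t
  · rw [if_pos (e.mp c), if_pos c]
  · rw [if_neg (fun h' => c (e.mpr h')), if_neg c]

/-- a sum over `range n` of an indicator -/
theorem vS_card {f : ℕ → ℕ} {s : Finset (Fin n)} (h : ∀ v : Fin n, f v = if v ∈ s then 1 else 0) :
    vS n f = #s := by
  unfold vS
  rw [Finset.sum_range]
  rw [sum_congr rfl (fun v _ => h v)]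
  simp

theorem sum_range_card {f : ℕ → ℕ} {p : Fin n → Prop} [DecidablePred p] (h : ∀ v : Fin n, f v = if p v then 1 else 0) :
    ∑ v ∈ range n, f v = #{v | p v} := by
  rw [Finset.sum_range, sum_congr rfl (fun v _ => h v)]
  simp

section

variable {D : ℕ} (hD : 1 ≤ D) (v : Fin n)

theorem wD_val : wD n (gA G) v = dg G v := by
  classical
  unfold wD vD dg
  rw [sum_range_card (p := fun u => u ∈ nb G v)]
  · congr 1
    ext u
    simp
  · intro u
    rw [gA_fin]
    by_cases c : u ∈ nb G v
    · simp [c]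
    · simp [c]

include hD in
theorem wG_val : wG n (gA G) t D v = gg G (US n D t) v := by
  classical
  unfold wG vG gg
  rw [sum_range_card (p := fun u => u ∈ nb G v ∩ US n D t)]
  · congr 1
    ext u
    simp
  · intro u
    rw [gA_fin, wU_val hD]
    by_cases c : u ∈ nb G v <;> by_cases c' : u ∈ US n D t <;> simp [c, c']

/-- neighbours outside on side `b` -/
noncomputable def kb (G : SimpleGraph (Fin n)) (U : Finset (Fin n)) (ξ : Fin n → Bool) (b : Bool)
    (v : Fin n) : ℕ := #{u ∈ nb G v \ U | ξ u = b}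

theorem kk_eq (U : Finset (Fin n)) (ξ : Fin n → Bool) :
    kk G U ξ v = (kb G U ξ true v : ℤ) - kb G U ξ false v := by
  classical
  unfold kk kb sg
  rw [card_filter, card_filter]
  push_cast
  rw [← sum_sub_distrib]
  refine sum_congr rfl (fun u _ => ?_)
  cases ξ u <;> simp

include hD in
theorem wKp_val : wKp n (gA G) t D v = kb G (US n D t) (xi n t) true v := by
  classical
  unfold wKp vKK kb
  rw [sum_range_card (p := fun u => u ∈ (nb G v \ US n D t).filter (fun u => xi n t u = true))]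
  · congr 1
    ext u
    simp
  · intro u
    rw [gA_fin, wU_val hD]
    by_cases c : u ∈ nb G v <;> by_cases c' : u ∈ US n D t <;>
      by_cases c'' : bt t (8 * n + u) = 0 <;>
      simp [c, c', c'', xi, Nat.one_le_iff_ne_zero]

include hD in
theorem wKm_val : wKm n (gA G) t D v = kb G (US n D t) (xi n t) false v := by
  classical
  unfold wKm vKK kb
  rw [sum_range_card (p := fun u => u ∈ (nb G v \ US n D t).filter (fun u => xi n t u = false))]
  · congr 1
    ext u
    simp
  · intro u
    rw [gA_fin, wU_val hD]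
    by_cases c : u ∈ nb G v <;> by_cases c' : u ∈ US n D t <;>
      by_cases c'' : bt t (8 * n + u) = 0 <;>
      simp [c, c', c'', xi, Nat.one_le_iff_ne_zero]

end

/-- the inequality that defines `PP` -/
theorem pp_iff (c d a b : ℕ) : 1 + d + 8 * c ^ 2 * (a * b) ≤ 4 * c ^ 2 * (a * a + b * b) ↔
    (1 + d : ℤ) ≤ 4 * c ^ 2 * ((a : ℤ) - b) ^ 2 := by
  zify
  constructor
  · intro h
    nlinarith [h]
  · intro h
    nlinarith [h]

theorem qq_iff (c d a b : ℕ) : c ^ 2 * (a * a + b * b) ≤ 4 * (1 + d) + 2 * c ^ 2 * (a * b) ↔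
    (c : ℤ) ^ 2 * ((a : ℤ) - b) ^ 2 ≤ 4 * (1 + d) := by
  zify
  constructor
  · intro h
    nlinarith [h]
  · intro h
    nlinarith [h]

section

variable {c D : ℕ} (hD : 1 ≤ D) (v : Fin n)

include hD in
theorem wP_val : wP n (gA G) t c D v = if v ∈ PP c G (US n D t) (xi n t) then 1 else 0 := by
  have e : v ∈ PP c G (US n D t) (xi n t) ↔ v ∈ US n D t ∧
      1 + dg G v + 8 * c ^ 2 * (kb G (US n D t) (xi n t) true v *
        kb G (US n D t) (xi n t) false v) ≤
      4 * c ^ 2 * (kb G (US n D t) (xi n t) true v * kb G (US n D t) (xi n t) true v +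
        kb G (US n D t) (xi n t) false v * kb G (US n D t) (xi n t) false v) := by
    rw [pp_iff]
    simp only [PP, mem_filter, kk_eq]
  unfold wP vP
  rw [wU_val hD, wD_val, wKp_val hD, wKm_val hD]
  by_cases c1 : v ∈ US n D t
  · by_cases c2 : 1 + dg G v + 8 * c ^ 2 * (kb G (US n D t) (xi n t) true v *
        kb G (US n D t) (xi n t) false v) ≤
      4 * c ^ 2 * (kb G (US n D t) (xi n t) true v * kb G (US n D t) (xi n t) true v +
        kb G (US n D t) (xi n t) false v * kb G (US n D t) (xi n t) false v)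
    · rw [if_pos (e.mpr ⟨c1, c2⟩), if_pos c1, if_pos c2]
      rfl
    · rw [if_neg (fun h => c2 (e.mp h).2), if_pos c1, if_neg c2]
      rfl
  · rw [if_neg (fun h => c1 (e.mp h).1), if_neg c1]
    rfl

include hD in
theorem wQ_val : wQ n (gA G) t c D v = if v ∈ QQ c G (US n D t) (xi n t) then 1 else 0 := by
  have e : v ∈ QQ c G (US n D t) (xi n t) ↔
      c ^ 2 * (kb G (US n D t) (xi n t) true v * kb G (US n D t) (xi n t) true v +
        kb G (US n D t) (xi n t) false v * kb G (US n D t) (xi n t) false v) ≤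
      4 * (1 + dg G v) + 2 * c ^ 2 * (kb G (US n D t) (xi n t) true v *
        kb G (US n D t) (xi n t) false v) := by
    rw [qq_iff]
    simp only [QQ, mem_filter, mem_univ, true_and, kk_eq]
  unfold wQ vQ
  rw [wD_val, wKp_val hD, wKm_val hD]
  exact if_congr e.symm rfl rfl

include hD in
theorem wE_val : wE n (gA G) t c D v = if v ∈ (PP c G (US n D t) (xi n t)).filter
    (fun v : Fin n => v.1 < t.length - 9 * n ∧ up n t v ≠ pred G (US n D t) (xi n t) v)
      then 1 else 0 := by
  unfold wE vE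
  rw [wP_val hD, wKp_val hD, wKm_val hD]
  have e1 : (9 * n + (v : ℕ) + 1 ≤ t.length) ↔ v.1 < t.length - 9 * n := by omega
  have e2 : (kb G (US n D t) (xi n t) true v + 1 ≤ kb G (US n D t) (xi n t) false v) ↔
      pred G (US n D t) (xi n t) v = true := by
    unfold pred
    rw [decide_eq_true_iff, kk_eq]
    omega
  have e3 : (1 ≤ bt t (9 * n + v)) ↔ up n t v = true := by
    unfold up
    rw [decide_eq_true_iff]
  by_cases c1 : v ∈ PP c G (US n D t) (xi n t)
  · rw [if_pos c1, if_pos le_rfl]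
    by_cases c2 : v.1 < t.length - 9 * n
    · rw [if_pos (e1.mpr c2)]
      by_cases c3 : pred G (US n D t) (xi n t) v = true
      · rw [if_pos (e2.mpr c3)]
        by_cases c4 : up n t v = true
        · rw [if_pos (e3.mpr c4), if_neg]
          intro h
          rw [mem_filter] at h
          exact h.2.2 (c4.trans c3.symm)
        · rw [if_neg (fun h => c4 (e3.mp h)), if_pos]
          rw [mem_filter]
          exact ⟨c1, c2, fun h => c4 (h.trans c3)⟩
      · rw [if_neg (fun h => c3 (e2.mp h))]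
        by_cases c4 : up n t v = true
        · rw [if_pos (e3.mpr c4), if_pos]
          rw [mem_filter]
          exact ⟨c1, c2, fun h => c3 (h.symm.trans c4)⟩
        · rw [if_neg (fun h => c4 (e3.mp h)), if_neg]
          intro h
          rw [mem_filter] at h
          rw [Bool.not_eq_true] at c3 c4
          exact h.2.2 (c4.trans c3.symm)
    · rw [if_neg (fun h => c2 (e1.mp h)), if_neg]
      intro h
      rw [mem_filter] at h
      exact c2 h.2.1
  · rw [if_neg c1, if_neg (by omega), if_neg]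
    intro h
    rw [mem_filter] at h
    exact c1 h.1

end

section sums

variable {c D : ℕ} (hD : 1 ≤ D)

include hD in
theorem sU : vS n (wU n t D) = #(US n D t) := vS_card (wU_val hD)

include hD in
theorem sP : vS n (wP n (gA G) t c D) = #(PP c G (US n D t) (xi n t)) := vS_card (wP_val hD)

include hD in
theorem sQ : vS n (wQ n (gA G) t c D) = #(QQ c G (US n D t) (xi n t)) := vS_card (wQ_val hD)

include hD in
theorem sE : vS n (wE n (gA G) t c D) =
    er c G (US n D t) (xi n t) (up n t) (t.length - 9 * n) := by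
  unfold er
  rw [vS_card (wE_val hD)]

include hD in
open scoped Classical in
theorem sB : vS n (wB n (gA G) t c D) =
    #{v | 1 + dg G v < 4 * c ^ 3 * gg G (US n D t) v} := by
  unfold vS
  refine sum_range_card (fun v => ?_)
  unfold wB vB
  rw [wD_val, wG_val hD]
  by_cases h : 4 * c ^ 3 * gg G (US n D t) v ≤ 1 + dg G v
  · rw [if_pos h, if_neg (by omega)]
  · rw [if_neg h, if_pos (by omega)]

include hD in
theorem sV : vS n (wV n t D) ≤ 0 ↔ ∀ v ∈ US n D t, xi n t v = false := by
  unfold vS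
  rw [Nat.le_zero, Finset.sum_range, sum_eq_zero_iff]
  constructor
  · intro h v hv
    have h1 := h v (mem_univ _)
    unfold wV vV at h1
    rw [wU_val hD, if_pos hv, if_pos le_rfl] at h1
    unfold xi
    rw [decide_eq_false_iff_not]
    intro h2
    rw [if_pos h2] at h1
    omega
  · intro h v _
    unfold wV vV
    rw [wU_val hD]
    by_cases hv : v ∈ US n D t
    · have h1 := h v hv
      unfold xi at h1
      rw [decide_eq_false_iff_not] at h1
      rw [if_pos hv, if_pos le_rfl, if_neg h1]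
    · rw [if_neg hv, if_neg (by omega)]

include hD in
theorem sW : vS n (wW n t D) ≤ 0 ↔ ∀ v, v ∉ US n D t → up n t v = false := by
  unfold vS
  rw [Nat.le_zero, Finset.sum_range, sum_eq_zero_iff]
  constructor
  · intro h v hv
    have h1 := h v (mem_univ _)
    unfold wW vW at h1
    rw [wU_val hD, if_neg hv, if_pos le_rfl] at h1
    unfold up
    rw [decide_eq_false_iff_not]
    intro h2
    rw [if_pos h2] at h1
    omega
  · intro h v _
    unfold wW vW
    rw [wU_val hD]
    by_cases hv : v ∈ US n D t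
    · rw [if_pos hv, if_neg (by omega)]
    · have h1 := h v hv
      unfold up at h1
      rw [decide_eq_false_iff_not] at h1
      rw [if_neg hv, if_pos le_rfl, if_neg h1]

end sums

open scoped Classical in
/-- the test is computed -/
theorem wAl_val {c D n0 : ℕ} (hD : 1 ≤ D) :
    wAl n (gA G) t c D n0 = if Alive c D n0 G t then 1 else 0 := by
  unfold wAl vAl
  have hB : 2 * c * vS n (wB n (gA G) t c D) ≤ n ↔ Thin c G (US n D t) := by
    rw [sB hD]
    unfold Thin
    rfl
  have hCB : c * n ≤ 2 * n + c * vS n (wQ n (gA G) t c D) ↔ CB c G (US n D t) (xi n t) := by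
    rw [sQ hD]
    rfl
  have hCA : CA c D G (US n D t) (xi n t) (up n t) (t.length - 9 * n) ↔
      n ≤ 4 * c * D * vS n (wP n (gA G) t c D) ∧
        10 * vS n (wE n (gA G) t c D) ≤ vS n (wP n (gA G) t c D) := by
    rw [sP hD, sE hD]
    rfl
  by_cases a0 : n + 1 ≤ n0
  · rw [if_pos a0, if_pos (show Alive c D n0 G t from Or.inl a0)]
  rw [if_neg a0]
  by_cases a1 : vp n (bt t) ≤ 0
  swap
  · rw [if_neg a1, if_neg]
    rintro (h | ⟨h, -⟩)
    · omega
    · exact a1 (vp_zero.mpr h)
  rw [if_pos a1]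
  have a1' := vp_zero.mp a1
  by_cases a2 : t.length ≤ 8 * n
  · rw [if_pos a2, if_pos]
    exact Or.inr ⟨a1', fun h => by omega, fun h => by omega⟩
  rw [if_neg a2]
  have key : ∀ P : Prop, (Alive c D n0 G t → P) → ¬ P → ¬ Alive c D n0 G t :=
    fun P h1 h2 h3 => h2 (h1 h3)
  have hal : Alive c D n0 G t → (n ≤ 2 * D * #(US n D t) ∧ Thin c G (US n D t) ∧
      ∀ v ∈ US n D t, xi n t v = false) := by
    rintro (h | ⟨-, h, -⟩)
    · omega
    · exact h (by omega)
  by_cases a3 : n ≤ 2 * D * vS n (wU n t D)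
  swap
  · rw [if_neg a3, if_neg]
    exact fun h => a3 (by rw [sU hD]; exact (hal h).1)
  rw [if_pos a3]
  by_cases a4 : 2 * c * vS n (wB n (gA G) t c D) ≤ n
  swap
  · rw [if_neg a4, if_neg]
    exact fun h => a4 (hB.mpr (hal h).2.1)
  rw [if_pos a4]
  by_cases a5 : vS n (wV n t D) ≤ 0
  swap
  · rw [if_neg a5, if_neg]
    exact fun h => a5 ((sV hD).mpr (hal h).2.2)
  rw [if_pos a5]
  have a3' := a3
  rw [sU hD] at a3'
  have a4' := hB.mp a4
  have a5' := (sV hD).mp a5
  by_cases a6 : t.length ≤ 9 * n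
  · rw [if_pos a6, if_pos]
    exact Or.inr ⟨a1', fun _ => ⟨a3', a4', a5'⟩, fun h => by omega⟩
  rw [if_neg a6]
  have hal2 : Alive c D n0 G t → ((∀ v, v ∉ US n D t → up n t v = false) ∧
      (CA c D G (US n D t) (xi n t) (up n t) (t.length - 9 * n) ∨
        CB c G (US n D t) (xi n t))) := by
    rintro (h | ⟨-, -, h⟩)
    · omega
    · exact h (by omega)
  by_cases a7 : vS n (wW n t D) ≤ 0
  swap
  · rw [if_neg a7, if_neg]
    exact fun h => a7 ((sW hD).mpr (hal2 h).1)
  rw [if_pos a7]
  have a7' := (sW hD).mp a7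
  by_cases a8 : c * n ≤ 2 * n + c * vS n (wQ n (gA G) t c D)
  · rw [if_pos a8, if_pos]
    exact Or.inr ⟨a1', fun _ => ⟨a3', a4', a5'⟩, fun _ => ⟨a7', Or.inr (hCB.mp a8)⟩⟩
  rw [if_neg a8]
  by_cases a9 : n ≤ 4 * c * D * vS n (wP n (gA G) t c D)
  swap
  · rw [if_neg a9, if_neg]
    intro h
    rcases (hal2 h).2 with h | h
    · exact a9 (hCA.mp h).1
    · exact a8 (hCB.mpr h)
  rw [if_pos a9]
  by_cases a10 : 10 * vS n (wE n (gA G) t c D) ≤ vS n (wP n (gA G) t c D)
  swap
  · rw [if_neg a10, if_neg]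
    intro h
    rcases (hal2 h).2 with h | h
    · exact a10 (hCA.mp h).2
    · exact a8 (hCB.mpr h)
  rw [if_pos a10, if_pos]
  exact Or.inr ⟨a1', fun _ => ⟨a3', a4', a5'⟩, fun _ => ⟨a7', Or.inl (hCA.mpr ⟨a9, a10⟩)⟩⟩

end Pool.Agent.H88.MC
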