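import Pool.Agent.H88.MC.Space

/-!
A while loop around a polynomial-time transformation of lists of natural numbers: time and space.
-/

namespace Pool.Agent.H88.MC

open Turing Function Pool.Agent.H70.TM Pool.Agent.H1.Gen Pool.Agent.H68.OQP Polynomial

/-- the list `l` on stack `0` in unary, the other stacks empty -/
def st (l : List ℕ) : ℕ → List Bool := update (fun _ => []) 0 (unary l)

/-- the function `f` on lists of naturals (in unary) is computed by a program in polynomial
time -/
def PF (f : List ℕ → List ℕ) : Prop :=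
  ∃ (c : Cmd ℕ Fl) (p : ℕ[X]), ∀ l, Does c (st l) (st (f l)) (p.eval (unary l).length)

theorem eval_mono (p : ℕ[X]) {x y : ℕ} (h : x ≤ y) : p.eval x ≤ p.eval y := by
  induction p using Polynomial.induction_on' with
  | add p q hp hq => simpa using add_le_add hp hq
  | monomial n a =>
    simp only [eval_monomial]
    exact Nat.mul_le_mul_left _ (Nat.pow_le_pow_left h _)

theorem run_len {σ : Type} {c : Cmd ℕ σ} {v v' : σ} {S S' : ℕ → List Bool} {n : ℕ}
    (h : Run c v S v' S' n) (k : ℕ) : (S' k).length ≤ (S k).length + n := by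
  induction h with
  | push k' f v S =>
    by_cases hk : k = k'
    · subst hk; simp
    · rw [update_of_ne hk]; omega
  | pop k' f v S =>
    by_cases hk : k = k'
    · subst hk; simp; omega
    · rw [update_of_ne hk]; omega
  | load f v S => omega
  | seq h1 h2 ih1 ih2 => omega
  | ite_true hp h1 ih1 => omega
  | ite_false hp h1 ih1 => omega
  | wh_false hp => omega
  | wh_true hp h1 h2 ih1 ih2 => omega

theorem does_len {c : Cmd ℕ Fl} {S S' : ℕ → List Bool} {t : ℕ} (h : Does c S S' t) (k : ℕ) :
    (S' k).length ≤ (S k).length + t := by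
  obtain ⟨v', n, hn, hr⟩ := h ⟨false, false, false⟩
  have := run_len hr k
  omega

theorem PF.comp {f g : List ℕ → List ℕ} (hf : PF f) (hg : PF g) : PF (fun l => g (f l)) := by
  obtain ⟨c, p, hc⟩ := hf
  obtain ⟨d, q, hd⟩ := hg
  refine ⟨.seq c d, p + q.comp (X + p), fun l => ?_⟩
  refine ((hc l).seq (hd (f l))).mono ?_
  simp only [eval_add, eval_comp, eval_X]
  refine Nat.add_le_add_left (eval_mono q ?_) _
  have := does_len (hc l) 0
  simpa [st] using this

/-- a generator whose output is the unary code of a list -/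
theorem PF.of_gen (g : Gn) {f : List ℕ → List ℕ} (hf : ∀ l, g.out l [] = unary (f l)) :
    PF f := by
  obtain ⟨p, hp⟩ := cmp_does g [] 4
  obtain ⟨q, hq⟩ := out_bd g
  refine ⟨.seq (cmp g [] 4) (.seq (clr 0) (mv 3 0)), p + ((2 * X + 2) + (4 * q + 2)),
    fun l => ?_⟩
  have hX : Bd (unary l).length l [] := ⟨le_rfl, by simp⟩
  have hI : Inv l [] [] 4 (st l) :=
    { inp := update_self _ _ _
      aux := by simp [st]
      free := fun k hk => update_of_ne (by omega) _ _
      len := rfl
      env := by intro i a h; simp at h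
      four := le_rfl
      lt := by intro a ha; cases ha }
  have d1 := hp _ l [] _ hX hI
  have h3 : st l 3 = [] := update_of_ne (by omega) _ _
  rw [h3, List.append_nil] at d1
  have d2 := clr_does (k := 0) (S := update (st l) 3 (g.out l []).reverse)
  have d3 := mv_does (a := 3) (k := 0) (by omega) (S := update (update (st l) 3
    (g.out l []).reverse) 0 [])
  have e : update (update (update (update (st l) 3 (g.out l []).reverse) 0 []) 3 []) 0
      ((update (update (st l) 3 (g.out l []).reverse) 0 [] 3).reverse ++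
        update (update (st l) 3 (g.out l []).reverse) 0 [] 0) = st (f l) := by
    funext i
    have := hf l
    simp only [Function.update_apply, st]
    split_ifs <;> simp_all
  rw [e] at d3
  refine (d1.seq (d2.seq d3)).mono ?_
  have h1 := hq _ l [] hX
  simp only [eval_add, eval_mul, eval_ofNat, eval_X]
  have h2 : (update (st l) 3 (g.out l []).reverse 0 : List Bool).length = (unary l).length := by
    simp [st]
  have h3 : (update (update (st l) 3 (g.out l []).reverse) 0 [] 3 : List Bool).length =
      (g.out l []).length := by simp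
  rw [h2, h3]
  omega

/-- look at the top of stack `0` -/
def chk : Cmd ℕ Fl := .seq (pp 0) (.ite cF (pu 0) nop)

/-- the loop condition: the top of stack `0` is a one -/
def cond (v : Fl) : Bool := v.c && v.d

theorem chk_does (l : List ℕ) (v : Fl) : ∃ v', RunB chk v (st l) v' (st l) 3 ∧
    cond v' = decide (0 < l.headD 0) := by
  have h1 := pp_does (k := 0) (v := v) (S := st l)
  cases l with
  | nil =>
    have e : st [] = fun _ => [] := by
      funext k
      by_cases hk : k = 0
      · subst hk; simp [st, unary]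
      · simp [st, update_of_ne hk]
    rw [e] at h1 ⊢
    have e2 : update (fun _ : ℕ => ([] : List Bool)) 0 ([] : List Bool).tail = fun _ => [] := by
      funext k
      by_cases hk : k = 0
      · subst hk; simp
      · simp [update_of_ne hk]
    simp only [List.head?_nil, Option.isSome_none, Option.getD_none] at h1
    rw [e2] at h1
    refine ⟨⟨v.b, false, v.d⟩, (h1.seq (RunB.ite_f (by simp [cF]) RunB.load)).mono (by omega), ?_⟩
    simp [cond]
  | cons x l =>
    obtain ⟨b, m, hm⟩ : ∃ b m, unary (x :: l) = b :: m := by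
      cases x with
      | zero => exact ⟨false, unary l, by simp [unary]⟩
      | succ x => exact ⟨true, List.replicate x true ++ false :: unary l, by
          simp [unary, List.replicate_succ]⟩
    have hb : b = decide (0 < x) := by
      cases x with
      | zero => simp [unary] at hm; simp [← hm.1]
      | succ x => simp [unary, List.replicate_succ] at hm; simp [← hm.1]
    have h0 : st (x :: l) 0 = b :: m := by simp [st, hm]
    rw [h0] at h1
    simp only [List.head?_cons, Option.isSome_some, Option.getD_some, List.tail_cons] at h1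
    have h2 : RunB (pu 0) (⟨v.b, true, b⟩ : Fl) (update (st (x :: l)) 0 m) ⟨v.b, true, b⟩
        (st (x :: l)) 1 := by
      refine ⟨1, le_rfl, ?_⟩
      have := Run.push 0 (fun v : Fl => v.d) ⟨v.b, true, b⟩ (update (st (x :: l)) 0 m)
      have e : update (update (st (x :: l)) 0 m) 0 (b :: update (st (x :: l)) 0 m 0) =
          st (x :: l) := by
        rw [update_self, update_idem, ← h0, update_eq_self]
      simp only at this
      rw [e] at this
      exact this
    refine ⟨⟨v.b, true, b⟩, (h1.seq (RunB.ite_t (by simp [cF]) h2)).mono (by omega), ?_⟩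
    simp [cond, hb]

section

variable {N : ℕ}

/-- space-bounded run of a program over the stacks `0, …, N`, in at most `t` steps -/
def RQ (N : ℕ) (c : Cmd ℕ Fl) (v : Fl) (S : ℕ → List Bool) (v' : Fl) (S' : ℕ → List Bool)
    (t B : ℕ) : Prop :=
  ∃ n ≤ t, RunSp (ren (fn N) c) v (fun i : Fin (N + 1) => S i) v'
    (fun i : Fin (N + 1) => S' i) n B

variable {c c₁ c₂ : Cmd ℕ Fl} {v v' v'' : Fl} {S S' S'' : ℕ → List Bool} {t t₁ t₂ B : ℕ}

theorem RQ.mono {t' : ℕ} (h : RQ N c v S v' S' t B) (ht : t ≤ t') : RQ N c v S v' S' t' B := by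
  obtain ⟨n, hn, h⟩ := h
  exact ⟨n, hn.trans ht, h⟩

theorem RQ.of_runB (hb : Below (N + 1) c) (h : RunB c v S v' S' t)
    (hB : sz (fun i : Fin (N + 1) => S i) + t ≤ B) : RQ N c v S v' S' t B := by
  obtain ⟨n, hn, hr⟩ := h
  exact ⟨n, hn, RunSp.of_run (run_fin hr hb) (by omega)⟩

theorem RQ.seq (h₁ : RQ N c₁ v S v' S' t₁ B) (h₂ : RQ N c₂ v' S' v'' S'' t₂ B) :
    RQ N (.seq c₁ c₂) v S v'' S'' (t₁ + t₂) B := by
  obtain ⟨n, hn, h1⟩ := h₁
  obtain ⟨m, hm, h2⟩ := h₂
  exact ⟨n + m, by omega, RunSp.seq h1 h2⟩

theorem RQ.wh_f {p : Fl → Bool} (hp : p v = false)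
    (hB : sz (fun i : Fin (N + 1) => S i) ≤ B) : RQ N (.wh p c) v S v S 1 B :=
  ⟨1, le_rfl, RunSp.wh_false hp hB⟩

theorem RQ.wh_t {p : Fl → Bool} (hp : p v = true)
    (hB : sz (fun i : Fin (N + 1) => S i) ≤ B) (h₁ : RQ N c v S v' S' t₁ B)
    (h₂ : RQ N (.wh p c) v' S' v'' S'' t₂ B) :
    RQ N (.wh p c) v S v'' S'' (t₁ + t₂ + 1) B := by
  obtain ⟨n, hn, h1⟩ := h₁
  obtain ⟨m, hm, h2⟩ := h₂
  exact ⟨n + m + 1, by omega, RunSp.wh_true hp hB h1 h2⟩

theorem sz_st (l : List ℕ) : sz (fun i : Fin (N + 1) => st l i) = (unary l).length := by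
  unfold sz
  rw [Fin.sum_univ_succ]
  have : ∀ i : Fin N, (st l (i.succ : Fin (N + 1))).length = 0 := by
    intro i
    have : ((i.succ : Fin (N + 1)) : ℕ) ≠ 0 := by simp
    rw [st, update_of_ne this]
    rfl
  simp [st]

theorem st_fin (l : List ℕ) : (fun i : Fin (N + 1) => st l i) =
    update (fun _ => []) (fn N 0) (unary l) := by
  have := update_fn (n := N) (k := 0) (Nat.succ_pos N) (fun _ => []) (unary l)
  exact this

end

/-- the program: initialise, loop while the first entry is positive, write the output -/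
def loopProg (c0 c : Cmd ℕ Fl) (g : Gn) : Cmd ℕ Fl :=
  .seq c0 (.seq chk (.seq (.wh cond (.seq c chk)) (prg g)))

/-- MACHINE LEMMA: `f0` and `f` computable in polynomial time; iterate `f` from `f0 x` until the
first entry is `0`, then output the string given by `g`: time (number of iterations) times a
polynomial in the largest state, space a polynomial in the largest state. -/
theorem loop_machine (f0 f : List ℕ → List ℕ) (h0 : PF f0) (hf : PF f) (g : Gn) :
    ∃ (tm : FinTM2) (ei : tm.Γ tm.k₀ ≃ Bool) (eo : tm.Γ tm.k₁ ≃ Bool) (p : ℕ[X]), Binary tm ∧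
      ∀ (x : List ℕ) (T B : ℕ), (unary x).length ≤ B →
        (∀ t ≤ T, (unary (f^[t] (f0 x))).length ≤ B) →
        (∀ t < T, 0 < (f^[t] (f0 x)).headD 0) → (f^[T] (f0 x)).headD 0 = 0 →
        RunsWithin tm ei eo (unary x) (g.out (f^[T] (f0 x)) []) ((T + 1) * p.eval B)
          (p.eval B) := by
  obtain ⟨c0, p0, hc0⟩ := h0
  obtain ⟨c, p, hc⟩ := hf
  -- the output program
  obtain ⟨q, hq⟩ : ∃ q : ℕ[X], ∀ l, Does (prg g) (st l) (update (fun _ => []) 1 (g.out l []))
      (q.eval (unary l).length) := by
    obtain ⟨p, hp⟩ := cmp_does g [] 4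
    obtain ⟨q, hq⟩ := out_bd g
    refine ⟨p + ((2 * X + 2) + (4 * q + 2)), fun l => ?_⟩
    have hX : Bd (unary l).length l [] := ⟨le_rfl, by simp⟩
    have hI : Inv l [] [] 4 (st l) :=
      { inp := update_self _ _ _
        aux := by simp [st]
        free := fun k hk => update_of_ne (by omega) _ _
        len := rfl
        env := by intro i a h; simp at h
        four := le_rfl
        lt := by intro a ha; cases ha }
    have d1 := hp _ l [] _ hX hI
    have h3 : st l 3 = [] := update_of_ne (by omega) _ _
    rw [h3, List.append_nil] at d1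
    have d2 := clr_does (k := 0) (S := update (st l) 3 (g.out l []).reverse)
    have d3 := mv_does (a := 3) (k := 1) (by omega) (S := update (update (st l) 3
      (g.out l []).reverse) 0 [])
    have e : update (update (update (update (st l) 3 (g.out l []).reverse) 0 []) 3 []) 1
        ((update (update (st l) 3 (g.out l []).reverse) 0 [] 3).reverse ++
          update (update (st l) 3 (g.out l []).reverse) 0 [] 1) =
        update (fun _ => []) 1 (g.out l []) := by
      funext i
      simp only [Function.update_apply, st]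
      split_ifs <;> simp_all
    rw [e] at d3
    refine (d1.seq (d2.seq d3)).mono ?_
    have h1 := hq _ l [] hX
    simp only [eval_add, eval_mul, eval_ofNat, eval_X]
    have h2 : (update (st l) 3 (g.out l []).reverse 0 : List Bool).length =
        (unary l).length := by simp [st]
    have h3 : (update (update (st l) 3 (g.out l []).reverse) 0 [] 3 : List Bool).length =
        (g.out l []).length := by simp
    rw [h2, h3]
    omega
  obtain ⟨N0, hN0⟩ := exists_below (loopProg c0 c g)
  set N := max N0 1 with hN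
  have hb : Below (N + 1) (loopProg c0 c g) :=
    hN0.mono (le_trans (le_max_left _ _) (Nat.le_succ _))
  have hb0 : Below (N + 1) c0 := hb.1
  have hb1 : Below (N + 1) chk := hb.2.1
  have hb2 : Below (N + 1) c := hb.2.2.1.1
  have hb3 : Below (N + 1) (prg g) := hb.2.2.2
  let P : ℕ[X] := p0 + p + q + X + 10
  refine ⟨machine (K := Fin (N + 1)) (ren (fn N) (loopProg c0 c g)) (fn N 0) (fn N 1)
    ⟨false, false, false⟩, Equiv.refl Bool, Equiv.refl Bool, P, fun _ => ⟨Equiv.refl Bool⟩, ?_⟩
  intro x T B hx hsz hpos hend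
  have hP : P.eval B = p0.eval B + p.eval B + q.eval B + B + 10 := by
    simp [P]
  -- the loop
  have hloop : ∀ (T : ℕ) (l : List ℕ) (v : Fl), cond v = decide (0 < l.headD 0) →
      (∀ t ≤ T, (unary (f^[t] l)).length ≤ B) →
      (∀ t < T, 0 < (f^[t] l).headD 0) → (f^[T] l).headD 0 = 0 →
      ∃ v', RQ N (.wh cond (.seq c chk)) v (st l) v' (st (f^[T] l)) (T * (p.eval B + 4) + 1)
        (P.eval B) := by
    intro T
    induction T with
    | zero =>
      intro l v hv hs _ he
      have h1 : cond v = false := by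
        rw [hv]
        simp only [Function.iterate_zero, id_eq] at he
        rw [he]
        rfl
      refine ⟨v, ?_⟩
      have := hs 0 le_rfl
      simp only [Function.iterate_zero, id_eq] at this
      have h2 : RQ N (.wh cond (.seq c chk)) v (st l) v (st l) 1 (P.eval B) :=
        RQ.wh_f h1 (by rw [sz_st, hP]; omega)
      exact h2.mono (by omega)
    | succ T ih =>
      intro l v hv hs hp he
      have hl : (unary l).length ≤ B := hs 0 (Nat.zero_le _)
      have hl1 : (unary (f l)).length ≤ B := hs 1 (by omega)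
      have h1 : cond v = true := by
        rw [hv]
        have := hp 0 (by omega)
        simpa using this
      obtain ⟨v₁, hr1⟩ := hc l v
      have hr1' : RunB c v (st l) v₁ (st (f l)) (p.eval B) := hr1.mono (eval_mono p hl)
      obtain ⟨v₂, hr2, hv2⟩ := chk_does (f l) v₁
      have q1 : RQ N c v (st l) v₁ (st (f l)) (p.eval B) (P.eval B) :=
        RQ.of_runB hb2 hr1' (by rw [sz_st, hP]; omega)
      have q2 : RQ N chk v₁ (st (f l)) v₂ (st (f l)) 3 (P.eval B) :=
        RQ.of_runB hb1 hr2 (by rw [sz_st, hP]; omega)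
      obtain ⟨v₃, h3⟩ := ih (f l) v₂ hv2
        (fun t ht => by
          have := hs (t + 1) (by omega)
          rwa [Function.iterate_succ_apply] at this)
        (fun t ht => by
          have := hp (t + 1) (by omega)
          rwa [Function.iterate_succ_apply] at this)
        (by rwa [Function.iterate_succ_apply] at he)
      refine ⟨v₃, ?_⟩
      have h4 := RQ.wh_t h1 (by rw [sz_st, hP]; omega) (q1.seq q2) h3
      rw [← Function.iterate_succ_apply] at h4
      refine h4.mono ?_
      ring_nf
      omega
  obtain ⟨v₁, hr1⟩ := hc0 x ⟨false, false, false⟩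
  have hr1' := hr1.mono (eval_mono p0 hx)
  have hl0 : (unary (f0 x)).length ≤ B := hsz 0 (Nat.zero_le _)
  obtain ⟨v₂, hr2, hv2⟩ := chk_does (f0 x) v₁
  obtain ⟨v₃, h3⟩ := hloop T (f0 x) v₂ hv2 hsz hpos hend
  have hlT : (unary (f^[T] (f0 x))).length ≤ B := hsz T le_rfl
  obtain ⟨v₄, hr4⟩ := hq (f^[T] (f0 x)) v₃
  have hr4' := hr4.mono (eval_mono q hlT)
  have q1 : RQ N c0 ⟨false, false, false⟩ (st x) v₁ (st (f0 x)) (p0.eval B) (P.eval B) :=
    RQ.of_runB hb0 hr1' (by rw [sz_st, hP]; omega)
  have q2 : RQ N chk v₁ (st (f0 x)) v₂ (st (f0 x)) 3 (P.eval B) :=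
    RQ.of_runB hb1 hr2 (by rw [sz_st, hP]; omega)
  have q4 : RQ N (prg g) v₃ (st (f^[T] (f0 x))) v₄
      (update (fun _ => []) 1 (g.out (f^[T] (f0 x)) [])) (q.eval B) (P.eval B) :=
    RQ.of_runB hb3 hr4' (by rw [sz_st, hP]; omega)
  obtain ⟨n, hn, hr⟩ := q1.seq (q2.seq (h3.seq q4))
  have hr' : RunSp (ren (fn N) (loopProg c0 c g)) ⟨false, false, false⟩
      (update (fun _ => []) (fn N 0) (unary x)) v₄
      (update (fun _ => []) (fn N 1) (g.out (f^[T] (f0 x)) [])) n (P.eval B) := by
    have e1 := st_fin (N := N) x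
    have e2 := update_fn (n := N) (k := 1) (by omega) (fun _ => []) (g.out (f^[T] (f0 x)) [])
    have := hr
    rw [e1, e2] at this
    exact this
  obtain ⟨m, hm, hm2⟩ := runsWithin_machine _ _ _ _ hr'
  refine ⟨m, hm.trans ?_, hm2⟩
  rw [hP]
  have : (T + 1) * (p0.eval B + p.eval B + q.eval B + B + 10) =
      T * (p.eval B + 4) + T * (p0.eval B + q.eval B + B + 6) +
        (p0.eval B + p.eval B + q.eval B + B + 10) := by ring
  rw [this]
  omega

end Pool.Agent.H88.MC
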