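import Pool.Agent.H88.MC.Defs

/-!
Targets of the mathematical part of the polynomial-space maximum cut algorithm with a hidden set.
-/

namespace Pool.Agent.H88.MC

open Finset

/-! ### the random hidden set -/

/-- the hash family gives three-wise independent sets -/
def T_HS : Prop :=
  ∀ q n D : ℕ, q.Prime → 3 ≤ n → n ≤ q → 1 ≤ D →
    ∃ p : ℝ, 1 / (D : ℝ) ≤ p ∧ p ≤ 1 / D + 1 / q ∧
      TW (Ω := Fin q × Fin q × Fin q)
        (fun ω => hset n D q ω.1.1 ω.2.1.1 ω.2.2.1) p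

/-- second moment of a signed sum of centred indicators -/
def T_MO1 : Prop :=
  ∀ (Ω : Type) [Fintype Ω] (n : ℕ) (U : Ω → Finset (Fin n)) (p : ℝ), TW U p → 0 ≤ p → p ≤ 1 →
    ∀ (N : Finset (Fin n)) (y : Fin n → ℝ), (∀ u, y u ^ 2 = 1) →
      ∑ ω : Ω, (∑ u ∈ N, ((if u ∈ U ω then (1 : ℝ) else 0) - p) * y u) ^ 2 ≤
        p * #N * Fintype.card Ω

/-- the same on the event that another vertex is hidden -/
def T_MO2 : Prop :=
  ∀ (Ω : Type) [Fintype Ω] (n : ℕ) (U : Ω → Finset (Fin n)) (p : ℝ), TW U p → 0 ≤ p → p ≤ 1 →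
    ∀ (N : Finset (Fin n)) (y : Fin n → ℝ), (∀ u, y u ^ 2 = 1) → ∀ v, v ∉ N →
      ∑ ω : Ω, (if v ∈ U ω then (1 : ℝ) else 0) *
        (∑ u ∈ N, ((if u ∈ U ω then (1 : ℝ) else 0) - p) * y u) ^ 2 ≤
        p ^ 2 * #N * Fintype.card Ω

/-- Markov inequality for several functions -/
def T_MK : Prop :=
  ∀ (Ω : Type) [Fintype Ω] [Nonempty Ω] (m : ℕ) (f : Fin m → Ω → ℝ) (a b : Fin m → ℝ),
    (∀ i ω, 0 ≤ f i ω) → (∀ i, 0 < b i) → (∀ i, ∑ ω, f i ω ≤ a i * Fintype.card Ω) →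
    ∑ i, a i / b i < 1 → ∃ ω, ∀ i, f i ω ≤ b i

/-- deterministic part of the existence of a good hidden set -/
def T_DT : Prop :=
  ∀ (n : ℕ) (U : Finset (Fin n)) (p : ℝ) (k D : ℕ) (G : SimpleGraph (Fin n))
    (y : Fin n → Bool) (X : Fin n → ℝ) (S : Finset (Fin n)), 1 ≤ k → 1 ≤ D → 1 / (D : ℝ) ≤ p →
    p ≤ 1 / 4 → (∀ v, sg (y v) * ay G y v ≤ 0) →
    (∀ v, X v = ∑ u ∈ nb G v, ((if u ∈ U then (1 : ℝ) else 0) - p) * sgr y u) →
    (∀ v, v ∈ S ↔ (1 + dg G v : ℤ) ≤ k ^ 2 * ay G y v ^ 2) →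
    ((n : ℝ) ≤ k * #S → p * #S / 2 ≤ #(S ∩ U) ∧
      (#{v ∈ U | (1 + dg G v : ℝ) / (16 * k ^ 2) < X v ^ 2} : ℝ) ≤ p * n / (4 * k) ∧
      (#{v ∈ U | (1 + dg G v : ℝ) / (4 * k ^ 2) ≤ X v ^ 2} : ℝ) ≤ p * n / (40 * k)) →
    (#{v | (1 + dg G v : ℝ) / k ^ 2 < X v ^ 2} : ℝ) ≤ n / k →
    ∀ ξ υ : Fin n → Bool, (∀ v, v ∉ U → ξ v = y v) → (∀ v, v ∈ U → υ v = y v) →
      (CA k D G U ξ υ n ∨ CB k G U ξ)

/-- EXISTENCE: some hidden set is good for a locally optimal bipartition `y` -/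
def T_EX : Prop :=
  ∀ (Ω : Type) [Fintype Ω] [Nonempty Ω] (n : ℕ) (U : Ω → Finset (Fin n)) (p : ℝ) (k D : ℕ),
    TW U p → 1 ≤ k → 1 ≤ D → 1 / (D : ℝ) ≤ p → p ≤ 1 / (4000 * k ^ 4) → 16 * k ≤ p * n →
    ∀ (G : SimpleGraph (Fin n)) (y : Fin n → Bool), (∀ v, sg (y v) * ay G y v ≤ 0) →
      ∃ ω, n ≤ 2 * D * #(U ω) ∧ Thin k G (U ω) ∧
        ∀ ξ υ : Fin n → Bool, (∀ v, v ∉ U ω → ξ v = y v) → (∀ v, v ∈ U ω → υ v = y v) →
          (CA k D G (U ω) ξ υ n ∨ CB k G (U ω) ξ)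

/-! ### counting -/

/-- few small sets -/
def T_BN : Prop :=
  ∀ δ : ℝ, 0 < δ → δ ≤ 1 → ∀ n : ℕ,
    (#{T : Finset (Fin n) | (#T : ℝ) ≤ δ ^ 2 / 4 * n} : ℝ) ≤ Real.exp (δ * n)

open scoped Classical in
/-- few pairs with many predicted vertices and few errors -/
def T_CN : Prop :=
  ∀ (n k D j : ℕ) (G : SimpleGraph (Fin n)) (U : Finset (Fin n)), 1 ≤ k → 1 ≤ D →
    (#{q : (Fin n → Bool) × (Fin n → Bool) | (∀ v ∈ U, q.1 v = false) ∧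
      (∀ v, v ∉ U → q.2 v = false) ∧ (∀ v : Fin n, j ≤ v.1 → q.2 v = false) ∧
      CA k D G U q.1 q.2 j} : ℝ) ≤ 2 ^ ((n : ℝ) - n / (8 * k * D))

open scoped Classical in
/-- pairs for which almost all vertices look balanced come from balanced bipartitions -/
def T_CM : Prop :=
  ∀ (n k : ℕ) (G : SimpleGraph (Fin n)) (U : Finset (Fin n)), 1 ≤ k → Thin k G U →
    #{q : (Fin n → Bool) × (Fin n → Bool) | (∀ v ∈ U, q.1 v = false) ∧
      (∀ v, v ∉ U → q.2 v = false) ∧ CB k G U q.1} ≤ 2 * numBal (3 / k) G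

/-- strings with the first four blocks of the form `1…10…0` are determined by the numbers and the
two bipartitions -/
def T_IN : Prop :=
  ∀ (n j : ℕ) (t t' : List ℕ), j ≤ 10 * n → t ∈ bits j → t' ∈ bits j → Pat n t → Pat n t' →
    (∀ r < 4, qv n t r = qv n t' r) → xi n t = xi n t' → up n t = up n t' → t = t'

open scoped Classical in
/-- number of alive strings of length `j` -/
def T_CT : Prop :=
  ∀ (n k D n0 j : ℕ) (G : SimpleGraph (Fin n)), 1 ≤ k → 1 ≤ D → n0 ≤ n → 1 ≤ n → j ≤ 10 * n →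
    (#{t ∈ bits j | Alive k D n0 G t} : ℝ) ≤
      (2 * n + 1) ^ 4 * (1 + 2 ^ ((n : ℝ) - n / (2 * D)) + 2 ^ ((n : ℝ) - n / (8 * k * D)) +
        2 * numBal (3 / k) G)

/-- a good hidden set and a bipartition give a path in the search tree -/
def T_PA : Prop :=
  ∀ (n k D n0 q a b e : ℕ) (G : SimpleGraph (Fin n)) (y : Fin n → Bool), 1 ≤ n →
    q ≤ 2 * n → a ≤ 2 * n → b ≤ 2 * n → e ≤ 2 * n →
    n ≤ 2 * D * #(hset n D q a b e) → Thin k G (hset n D q a b e) →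
    (∀ ξ υ : Fin n → Bool, (∀ v, v ∉ hset n D q a b e → ξ v = y v) →
      (∀ v, v ∈ hset n D q a b e → υ v = y v) →
          (CA k D G (hset n D q a b e) ξ υ n ∨ CB k G (hset n D q a b e) ξ)) →
    ∃ t ∈ bits (10 * n), (∀ i ≤ 10 * n, Alive k D n0 G (t.drop i)) ∧ yy n t = y

/-! ### maximum cuts -/

/-- a maximum cut is locally optimal -/
def T_LO : Prop :=
  ∀ (n : ℕ) (G : SimpleGraph (Fin n)) (y : Fin n → Bool), (∀ z, cutv G z ≤ cutv G y) →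
    ∀ v, sg (y v) * ay G y v ≤ 0

/-- the two definitions of the size of a cut -/
def T_CS : Prop :=
  ∀ (n : ℕ) (G : SimpleGraph (Fin n)) (y : Fin n → Bool),
    cutv G y = 2 * cutSize G {v | y v = true}

/-! ### lower tail of quadratic forms -/

/-- decoupling -/
def T_HW1 : Prop :=
  ∀ (n : ℕ) (K : Matrix (Fin n) (Fin n) ℝ), K.transpose = K → K * K = K → ∀ a : ℝ,
    ∑ y : Fin n → Bool, Real.exp (a * (qf K (sgr y) - K.trace)) ≤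
      ∑ y : Fin n → Bool, Real.exp (8 * a ^ 2 * qf K (sgr y))

/-- lower tail -/
def T_HW : Prop :=
  ∀ (n : ℕ) (K : Matrix (Fin n) (Fin n) ℝ), K.transpose = K → K * K = K →
    (#{y : Fin n → Bool | qf K (sgr y) ≤ K.trace / 2} : ℝ) ≤
      2 ^ n * Real.exp (-(7 / 960) * K.trace)

/-! ### classes of graphs with few balanced bipartitions -/

/-- the spectral class -/
def T_SP : Prop :=
  ∀ c : ℝ, 0 < c → ∃ c' : ℝ, 0 < c' ∧ c' ≤ c ∧ ∀ (n : ℕ) (G : SimpleGraph (Fin n)), Spec c G →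
    (numBal c' G : ℝ) ≤ 2 ^ ((1 - c') * n)

open scoped Classical in
/-- few 4-cycles -/
def T_C4 : Prop :=
  ∀ C : ℝ, 1 ≤ C → ∃ c : ℝ, 0 < c ∧ ∀ (n : ℕ) (G : SimpleGraph (Fin n)),
    (n : ℝ) ≤ C * #{v | 0 < dg G v} →
    ∑ u, ∑ v, (#(nb G u ∩ nb G v) : ℝ) ^ 2 / ((1 + dg G u) * (1 + dg G v)) ≤ C * n → Spec c G

/-- anti-concentration -/
def T_AC : Prop :=
  ∀ (n : ℕ) (S : Finset (Fin n)) (y : Fin n → Bool) (x : ℤ) (r : ℝ), 0 ≤ r →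
    (#{A ∈ S.powerset | |(x : ℝ) + ∑ u ∈ A, sgr y u| ≤ r} : ℝ) ≤
      (2 * r + 1) * 2 ^ #S / Real.sqrt (#S + 1)

open scoped Classical in
/-- for a random graph a fixed bipartition is balanced with exponentially small probability -/
def T_RG1 : Prop :=
  ∃ c : ℝ, 0 < c ∧ ∃ n1 : ℕ, ∀ n : ℕ, n1 ≤ n → ∀ y : Fin n → Bool,
    (#{G : SimpleGraph (Fin n) | Bal c G y} : ℝ) ≤
      2 ^ (-(2 * c * n)) * Fintype.card (SimpleGraph (Fin n))

open scoped Classical in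
/-- almost all graphs -/
def T_RG : Prop :=
  ∃ c : ℝ, 0 < c ∧ ∃ n1 : ℕ, ∀ n : ℕ, n1 ≤ n →
    (#{G : SimpleGraph (Fin n) | (2 : ℝ) ^ ((1 - c) * n) < numBal c G} : ℝ) ≤
      2 ^ (-(c * n)) * Fintype.card (SimpleGraph (Fin n))

end Pool.Agent.H88.MC
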