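import Pool.Agent.H88.MC.Link2
import Pool.Agent.H88.MC.Targets

/-!
The algorithm on a Turing machine.
-/

namespace Pool.Agent.H88.MC

open Pool.Agent.H68.OQP Finset Turing Polynomial

/-- the machine, started with the code of `G`, writes a maximum cut of `G` in at most `T` steps and
space at most `S` -/
def FindsMaxCut (tm : FinTM2) (ei : tm.Γ tm.k₀ ≃ Bool) (eo : tm.Γ tm.k₁ ≃ Bool) {n : ℕ}
    (G : SimpleGraph (Fin n)) (T : ℝ) (S : ℕ) : Prop :=
  ∃ (y : Fin n → Bool) (t : ℕ), (∀ X : Set (Fin n), cutSize G X ≤ cutSize G {v | y v = true}) ∧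
    (t : ℝ) ≤ T ∧ RunsWithin tm ei eo (unary (gcode G)) (List.ofFn y) t S

variable {n : ℕ} {G : SimpleGraph (Fin n)} {t : List ℕ}

theorem wY_val (v : Fin n) : wY n t v = if yy n t v = true then 1 else 0 := by
  unfold wY vY yy
  simp only [decide_eq_true_eq]

theorem vZ_val : vZ n (gA G) (wY n t) = cutv G (yy n t) := by
  unfold vZ cutv
  rw [Finset.sum_range]
  refine sum_congr rfl (fun u _ => ?_)
  rw [sum_range_card (p := fun v => v ∈ (nb G u).filter (fun v => yy n t u ≠ yy n t v))]
  · congr 1
    ext v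
    simp
  · intro v
    rw [gA_fin, wY_val, wY_val]
    by_cases c : v ∈ nb G u
    · cases hu : yy n t u <;> cases hv : yy n t v <;> simp [c, hv]
    · simp [c]

theorem sol_out : ((List.range n).map (wY n t)).map (fun a => decide (1 ≤ a)) =
    List.ofFn (yy n t) := by
  refine List.ext_getElem (by simp) (fun i h1 h2 => ?_)
  have hi : i < n := by simpa using h1
  simp only [List.getElem_map, List.getElem_range, List.getElem_ofFn]
  have := wY_val (n := n) (t := t) ⟨i, hi⟩
  simp only at this
  rw [this]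
  cases yy n t ⟨i, hi⟩ <;> simp

theorem bits_card (j : ℕ) : #(bits j) ≤ 2 ^ j := by
  induction j with
  | zero => simp [bits]
  | succ j ih =>
    refine (card_union_le _ _).trans ?_
    have h1 := card_image_le (s := bits j) (f := fun t => 0 :: t)
    have h2 := card_image_le (s := bits j) (f := fun t => 1 :: t)
    rw [pow_succ]
    omega

theorem cutv_le (y : Fin n → Bool) : cutv G y ≤ n * n := by
  unfold cutv
  refine (sum_le_card_nsmul univ _ n (fun u _ => ?_)).trans ?_
  · exact (card_le_univ _).trans (by simp)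
  · simp

open scoped Classical in
/-- the machine for given constants -/
theorem main_machine (c D n0 : ℕ) (hD : 1 ≤ D) (hPA : T_PA) (hCS : T_CS)
    (hex : ∀ (n : ℕ) (G : SimpleGraph (Fin n)) (y : Fin n → Bool), n0 ≤ n →
      (∀ v, sg (y v) * ay G y v ≤ 0) → ∃ q a b e, q ≤ 2 * n ∧ a ≤ 2 * n ∧ b ≤ 2 * n ∧
        e ≤ 2 * n ∧ n ≤ 2 * D * #(hset n D q a b e) ∧ Thin c G (hset n D q a b e) ∧
        (∀ ξ υ : Fin n → Bool, (∀ v, v ∉ hset n D q a b e → ξ v = y v) →
          (∀ v, v ∈ hset n D q a b e → υ v = y v) →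
            (CA c D G (hset n D q a b e) ξ υ n ∨ CB c G (hset n D q a b e) ξ)))
    (hn0 : 1 ≤ n0) (hLO : T_LO) :
    ∃ (tm : FinTM2) (ei : tm.Γ tm.k₀ ≃ Bool) (eo : tm.Γ tm.k₁ ≃ Bool) (p : ℕ[X]), Binary tm ∧
      ∀ (n : ℕ) (G : SimpleGraph (Fin n)), FindsMaxCut tm ei eo G
        (((2 + 2 * ∑ j ∈ range (10 * n + 1), #{t ∈ bits j | Alive c D n0 G t} : ℕ) : ℝ) *
          p.eval n) (p.eval n) := by
  obtain ⟨tm, ei, eo, p, hbin, hM⟩ := dfs_machine (allF c D n0) pI.fn (allF_PF c D n0)
    (PF.of_ls pI) (ι := Σ n : ℕ, SimpleGraph (Fin n)) (fun i => gcode i.2)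
    (fun i => 10 * i.1) (fun i => i.1) (fun i => i.1 * i.1 + 1)
    (fun i t => Alive c D n0 i.2 t) (fun i t => vZ i.1 (gA i.2) (wY i.1 t))
    (fun i t => (List.range i.1).map (wY i.1 t))
    (fun i => pI_fn)
    (by
      intro i t _ _
      refine ⟨?_, by simp, ?_⟩
      · simp only [vZ_val]
        have := cutv_le (G := i.2) (yy i.1 t)
        omega
      · intro a ha
        simp only [List.mem_map, List.mem_range] at ha
        obtain ⟨v, hv, rfl⟩ := ha
        unfold wY vY
        split_ifs <;> omega)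
    (by
      intro i b t hb ht h1
      rw [allF_eq (nd_vw hb.2.1) (nd_length hb.2.1) (nd_arr hb.2.1), wAl_val hD])
  refine ⟨tm, ei, eo, p.comp (3 * X ^ 2 + 14 * X + 3), hbin, ?_⟩
  intro n G
  have hM' := hM ⟨n, G⟩
  simp only at hM'
  set r := dfs (Alive c D n0 G) (fun t => vZ n (gA G) (wY n t))
    (fun t => (List.range n).map (wY n t)) (10 * n) [] (0, List.replicate n 0) with hr
  -- sizes
  set N := (unary (gcode G)).length + 10 * n + n + (n * n + 1) with hN
  have hNle : N ≤ 3 * n ^ 2 + 14 * n + 3 := by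
    have h1 : (gcode G).sum ≤ n + n * n := by
      have : ((List.range (n * n)).map (fun i => gA G (i / n) (i % n))).sum ≤ n * n := by
        have h2 := sum_le_len (l := (List.range (n * n)).map (fun i => gA G (i / n) (i % n)))
          (fun a ha => by
            obtain ⟨i, -, rfl⟩ := List.mem_map.mp ha
            exact gA_le _ _)
        simpa using h2
      simp only [gcode, List.sum_cons]
      omega
    have h2 := unary_length (gcode G)
    rw [gcode_length] at h2
    rw [hN, h2]
    nlinarith [h1]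
  have hev : (p.comp (3 * X ^ 2 + 14 * X + 3)).eval n = p.eval (3 * n ^ 2 + 14 * n + 3) := by
    simp
  have hpe : p.eval N ≤ (p.comp (3 * X ^ 2 + 14 * X + 3)).eval n := by
    rw [hev]
    exact eval_mono p hNle
  -- steps
  have hcount := dfs_count (al := Alive c D n0 G) (vl := fun t => vZ n (gA G) (wY n t))
    (sol := fun t => (List.range n).map (wY n t)) (10 * n) [] (0, List.replicate n 0)
  simp only [List.append_nil] at hcount
  rw [← hr] at hcount
  -- the optimum
  obtain ⟨ys, hys⟩ : ∃ ys : Fin n → Bool, ∀ z, cutv G z ≤ cutv G ys := by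
    obtain ⟨y, -, hy⟩ := exists_max_image univ (fun z : Fin n → Bool => cutv G z)
      ⟨fun _ => true, mem_univ _⟩
    exact ⟨y, fun z => hy z (mem_univ _)⟩
  obtain ⟨tt, ht1, ht2, ht3⟩ : ∃ t ∈ bits (10 * n), (∀ i ≤ 10 * n, Alive c D n0 G (t.drop i)) ∧
      yy n t = ys := by
    rcases Nat.lt_or_ge n n0 with h | h
    · rcases Nat.eq_zero_or_pos n with h0 | h0
      · subst h0
        refine ⟨[], by simp [bits], fun i _ => Or.inl h, ?_⟩
        funext v
        exact v.elim0
      · obtain ⟨t, h1, -, h3⟩ := hPA n 0 n 0 1 0 0 0 G ys h0 (by omega) (by omega) (by omega)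
          (by omega) (by
            have : hset n n 1 0 0 0 = univ := by
              ext v
              simp [hset, hs]
            rw [this, card_univ, Fintype.card_fin]
            nlinarith) (by simp [Thin]) (fun ξ υ _ _ => Or.inr (by simp [CB]))
        exact ⟨t, h1, fun i _ => Or.inl h, h3⟩
    · obtain ⟨q, a, b, e, h1, h2, h3, h4, h5, h6, h7⟩ := hex n G ys h (hLO n G ys hys)
      exact hPA n c D n0 q a b e G ys (by omega) h1 h2 h3 h4 h5 h6 h7
  have hge := (dfs_ge (al := Alive c D n0 G) (vl := fun t => vZ n (gA G) (wY n t))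
    (sol := fun t => (List.range n).map (wY n t)) (10 * n) [] (0, List.replicate n 0)).2 tt ht1
    (by simpa using ht2)
  rw [List.append_nil, ← hr] at hge
  have hge' : cutv G ys + 1 ≤ r.2.1 := by
    have e : vZ n (gA G) (wY n tt) = cutv G ys := by rw [vZ_val, ht3]
    rw [← e]
    exact hge
  have hsol := dfs_sol (al := Alive c D n0 G) (vl := fun t => vZ n (gA G) (wY n t))
    (sol := fun t => (List.range n).map (wY n t)) (10 * n) [] (0, List.replicate n 0)
  rw [← hr] at hsol
  rcases hsol with hbad | ⟨e, -, -, he⟩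
  · rw [hbad] at hge'
    simp only at hge'
    omega
  · rw [List.append_nil, vZ_val] at he
    have h1 : cutv G ys ≤ cutv G (yy n e) := by
      have : r.2.1 = cutv G (yy n e) + 1 := by rw [he]
      omega
    have h2 : r.2.2.map (fun a => decide (1 ≤ a)) = List.ofFn (yy n e) := by
      rw [he]
      exact sol_out
    rw [h2] at hM'
    refine ⟨yy n e, (r.1 + 1) * p.eval N, ?_, ?_, ?_⟩
    · intro X
      classical
      have e1 := hCS n G (fun v => decide (v ∈ X))
      have e2 := hCS n G (yy n e)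
      have e3 : {v | decide (v ∈ X) = true} = X := by
        ext v
        simp
      rw [e3] at e1
      have e4 := hys (fun v => decide (v ∈ X))
      omega
    · push_cast
      have e1 : (r.1 + 1 : ℝ) ≤ 2 + 2 * ∑ j ∈ range (10 * n + 1),
          (#{t ∈ bits j | Alive c D n0 G t} : ℝ) := by
        have : r.1 + 1 ≤ 2 + 2 * ∑ j ∈ range (10 * n + 1),
          #{t ∈ bits j | Alive c D n0 G t} := by omega
        exact_mod_cast this
      refine mul_le_mul e1 (by exact_mod_cast hpe) (by positivity) ?_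
      exact le_trans (by positivity) e1
    · obtain ⟨m, hm, h3, h4⟩ := hM'
      exact ⟨m, hm, h3, fun i hi c hc => (h4 i hi c hc).trans hpe⟩

end Pool.Agent.H88.MC
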