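import Pool.Agent.H88.MC.DFS3

/-!
The passes that compute the test, the value and the solution of a node.
-/

namespace Pool.Agent.H88.MC

open Pool.Agent.H68.OQP Finset

/-! ### positions -/

/-- number of vertices -/
def eN : Ex := .inp (.con 6)
/-- depth of the node -/
def eK : Ex := .inp (.con 1)
/-- position of the string -/
def oT : Ex := .add (.con 7) (.add (.mul eN eN) eN)
/-- position of the bits in the right order -/
def oS : Ex := .add oT eK
/-- position of the scalars -/
def oC : Ex := .add oS (.mul (.con 10) eN)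
/-- position of array `i` -/
def oA (i : ℕ) : Ex := .add (.add oC (.con 5)) (.mul (.con i) eN)
/-- a bit of the string -/
def bS (i : Ex) : Ex := .inp (.add oS i)
/-- a scalar -/
def sc (i : ℕ) : Ex := .inp (.add oC (.con i))
/-- an entry of array `i` -/
def ar (i : ℕ) (v : Ex) : Ex := .inp (.add (oA i) v)
/-- an entry of the adjacency matrix -/
def ad (u v : Ex) : Ex := .inp (.add (.con 7) (.add (.mul u eN) v))
/-- zero -/
def nz : Nm := .ex (.con 0)
/-- one -/
def no : Nm := .ex (.con 1)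

/-! ### views -/

/-- the list starts with a node state for a graph on `n` vertices with adjacency matrix `A` -/
structure Vw (n k : ℕ) (A : ℕ → ℕ → ℕ) (l : List ℕ) : Prop where
  hn : l.getD 6 0 = n
  hk : l.getD 1 0 = k
  hA : ∀ u < n, ∀ v < n, l.getD (7 + (u * n + v)) 0 = A u v
  hl : 7 + (n * n + n) + k ≤ l.length

/-- the list contains the values of `f` from position `off` on -/
def Arr (l : List ℕ) (off len : ℕ) (f : ℕ → ℕ) : Prop :=
  off + len ≤ l.length ∧ ∀ i < len, l.getD (off + i) 0 = f i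

variable {n k : ℕ} {A : ℕ → ℕ → ℕ} {l : List ℕ}

theorem idx_lt {u v : ℕ} (hu : u < n) (hv : v < n) : u * n + v < n * n := by
  have : (u + 1) * n ≤ n * n := Nat.mul_le_mul_right _ hu
  rw [Nat.succ_mul] at this
  omega

theorem Vw.app (h : Vw n k A l) (r : List ℕ) : Vw n k A (l ++ r) where
  hn := by rw [getD_app_left (by have := h.hl; omega), h.hn]
  hk := by rw [getD_app_left (by have := h.hl; omega), h.hk]
  hA := fun u hu v hv => by
    have := h.hl
    have := idx_lt hu hv
    rw [getD_app_left (by omega), h.hA u hu v hv]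
  hl := by
    have := h.hl
    rw [List.length_append]
    omega

theorem Arr.app {off len : ℕ} {f : ℕ → ℕ} (h : Arr l off len f) (r : List ℕ) :
    Arr (l ++ r) off len f := by
  refine ⟨by rw [List.length_append]; have := h.1; omega, fun i hi => ?_⟩
  rw [getD_app_left (by have := h.1; omega), h.2 i hi]

theorem Arr.new {len : ℕ} (f : ℕ → ℕ) : Arr (l ++ (List.range len).map f) l.length len f := by
  refine ⟨by simp, fun i hi => ?_⟩
  rw [getD_off, getD_map_range f hi]

section

variable (h : Vw n k A l)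

include h

theorem eN_val (env : List ℕ) : eN.val l env = n := h.hn

theorem eK_val (env : List ℕ) : eK.val l env = k := h.hk

theorem oT_val (env : List ℕ) : oT.val l env = 7 + (n * n + n) := by
  simp only [oT, Ex.val, eN_val h]

theorem oS_val (env : List ℕ) : oS.val l env = 7 + (n * n + n) + k := by
  simp only [oS, Ex.val, oT_val h, eK_val h]

theorem oC_val (env : List ℕ) : oC.val l env = 7 + (n * n + n) + k + 10 * n := by
  simp only [oC, Ex.val, oS_val h, eN_val h]

theorem oA_val (i : ℕ) (env : List ℕ) :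
    (oA i).val l env = 7 + (n * n + n) + k + 10 * n + 5 + i * n := by
  simp only [oA, Ex.val, oC_val h, eN_val h]

theorem ad_val {u v : Ex} {env : List ℕ} (hu : u.val l env < n) (hv : v.val l env < n) :
    (ad u v).val l env = A (u.val l env) (v.val l env) := by
  simp only [ad, Ex.val, eN_val h]
  exact h.hA _ hu _ hv

theorem bS_val {f : ℕ → ℕ} (hf : Arr l (7 + (n * n + n) + k) (10 * n) f) {i : Ex}
    {env : List ℕ} (hi : i.val l env < 10 * n) : (bS i).val l env = f (i.val l env) := by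
  simp only [bS, Ex.val, oS_val h]
  exact hf.2 _ hi

theorem ar_val {i : ℕ} {f : ℕ → ℕ} (hf : Arr l (7 + (n * n + n) + k + 10 * n + 5 + i * n) n f)
    {v : Ex} {env : List ℕ} (hv : v.val l env < n) : (ar i v).val l env = f (v.val l env) := by
  simp only [ar, Ex.val, oA_val h]
  exact hf.2 _ hv

end

/-! ### the reversal pass -/

theorem bt_sum (t : List ℕ) (i : ℕ) :
    ∑ j ∈ range t.length, (if j + i + 1 ≤ t.length then
      (if t.length ≤ j + i + 1 then t.getD j 0 else 0) else 0) = bt t i := by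
  unfold bt
  split_ifs with h
  · rw [sum_eq_single (t.length - 1 - i)]
    · rw [if_pos (by omega), if_pos (by omega)]
    · intro j _ hj
      by_cases c1 : j + i + 1 ≤ t.length
      · rw [if_pos c1, if_neg (by omega)]
      · rw [if_neg c1]
    · intro hj
      rw [mem_range] at hj
      omega
  · refine sum_eq_zero (fun j _ => ?_)
    rw [if_neg (by omega)]

/-- the bits in the right order -/
def pS : Ls := .app (keep oS) (tab (.mul (.con 10) eN) (.sum eK
  (.ite (.add (.add (.var 0) (.var 1)) (.con 1)) eK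
    (.ite eK (.add (.add (.var 0) (.var 1)) (.con 1)) (.ex (.inp (.add oT (.var 0)))) nz) nz)))

theorem pS_fn {t : List ℕ} (h : Vw n t.length A l) (hl : l.length = 7 + (n * n + n) + t.length)
    (ht : Arr l (7 + (n * n + n)) t.length (fun i => t.getD i 0)) :
    pS.fn l = l ++ (List.range (10 * n)).map (bt t) := by
  have e1 : (keep oS).vals l [] = l := keep_vals (by rw [oS_val h, hl])
  show (keep oS).vals l [] ++ (tab _ _).vals l [] = _
  rw [e1, tab_vals]
  have e2 : (Ex.mul (.con 10) eN).val l [] = 10 * n := by simp only [Ex.val, eN_val h]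
  rw [e2]
  congr 1
  refine List.map_congr_left (fun i hi => ?_)
  rw [← bt_sum]
  simp only [Nm.val, eK_val h]
  refine sum_congr rfl (fun j hj => ?_)
  rw [mem_range] at hj
  simp only [nz, Nm.val, Ex.val, oT_val h, List.getD_cons_zero, List.getD_cons_succ]
  rw [ht.2 j hj]

/-! ### the scalar pass -/

/-- number of violations of the pattern -/
def vp (n : ℕ) (S : ℕ → ℕ) : ℕ :=
  ∑ r ∈ range 4, ∑ i ∈ range (2 * n), if i + 2 ≤ 2 * n then
    (if S (2 * n * r + i + 1) ≤ S (2 * n * r + i) then 0 else 1) else 0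

/-- number coded by block `r` -/
def vq (n : ℕ) (S : ℕ → ℕ) (r : ℕ) : ℕ := ∑ i ∈ range (2 * n), S (2 * n * r + i)

/-- the five scalars: the four numbers and the number of violations -/
def vC (n : ℕ) (S : ℕ → ℕ) (r : ℕ) : ℕ := if r < 4 then vq n S r else vp n S

/-- term for the number coded by block `r` -/
def nq (r : ℕ) : Nm := .sum (.mul (.con 2) eN)
  (.ex (bS (.add (.mul (.mul (.con 2) eN) (.con r)) (.var 0))))

/-- term for the number of violations -/
def nvp : Nm := .sum (.con 4) (.sum (.mul (.con 2) eN)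
  (.ite (.add (.var 0) (.con 2)) (.mul (.con 2) eN)
    (.ite (bS (.add (.add (.mul (.mul (.con 2) eN) (.var 1)) (.var 0)) (.con 1)))
      (bS (.add (.mul (.mul (.con 2) eN) (.var 1)) (.var 0))) nz no) nz))

/-- the scalars -/
def pC : Ls := .app (keep oC) (.app (.ent (nq 0)) (.app (.ent (nq 1)) (.app (.ent (nq 2))
  (.app (.ent (nq 3)) (.ent nvp)))))

theorem pC_fn {S : ℕ → ℕ} (h : Vw n k A l) (hl : l.length = 7 + (n * n + n) + k + 10 * n)
    (hS : Arr l (7 + (n * n + n) + k) (10 * n) S) :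
    pC.fn l = l ++ (List.range 5).map (vC n S) := by
  have e1 : (keep oC).vals l [] = l := keep_vals (by rw [oC_val h, hl])
  have e2 : ∀ env, (Ex.mul (.con 2) eN).val l env = 2 * n := by
    intro env
    simp only [Ex.val, eN_val h]
  have e3 : ∀ r < 4, (nq r).val l [] = vq n S r := by
    intro r hr
    simp only [nq, vq, Nm.val, e2]
    refine sum_congr rfl (fun i hi => ?_)
    rw [mem_range] at hi
    have e4 : (Ex.add (.mul (.mul (.con 2) eN) (.con r)) (.var 0)).val l [i] =
        2 * n * r + i := by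
      simp only [Ex.val, eN_val h, List.getD_cons_zero]
    have hb : 2 * n * r + i < 10 * n := by
      have : 2 * n * r ≤ 2 * n * 3 := Nat.mul_le_mul_left _ (by omega)
      omega
    rw [bS_val h hS (by rw [e4]; exact hb), e4]
  have e4 : nvp.val l [] = vp n S := by
    simp only [nvp, vp, Nm.val, e2]
    refine sum_congr rfl (fun r hr => ?_)
    have hr' : r < 4 := mem_range.mp hr
    refine sum_congr rfl (fun i hi => ?_)
    rw [mem_range] at hi
    have e5 : (Ex.add (.var 0) (.con 2)).val l [i, r] = i + 2 := rfl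
    rw [e5]
    by_cases c : i + 2 ≤ 2 * n
    · rw [if_pos c, if_pos c]
      have hb : 2 * n * r + i + 1 < 10 * n := by
        have : 2 * n * r ≤ 2 * n * 3 := Nat.mul_le_mul_left _ (by omega)
        omega
      have e6 : (Ex.add (.mul (.mul (.con 2) eN) (.var 1)) (.var 0)).val l [i, r] =
          2 * n * r + i := by
        simp only [Ex.val, eN_val h, List.getD_cons_zero, List.getD_cons_succ]
      have e7 : (Ex.add (.add (.mul (.mul (.con 2) eN) (.var 1)) (.var 0)) (.con 1)).val l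
          [i, r] = 2 * n * r + i + 1 := by
        rw [← e6]
        rfl
      rw [bS_val h hS (by rw [e7]; omega), e7, bS_val h hS (by rw [e6]; omega), e6]
      rfl
    · rw [if_neg c, if_neg c]
      rfl
  show (keep oC).vals l [] ++ ([(nq 0).val l []] ++ ([(nq 1).val l []] ++
    ([(nq 2).val l []] ++ ([(nq 3).val l []] ++ [nvp.val l []])))) = _
  rw [e1, e3 0 (by omega), e3 1 (by omega), e3 2 (by omega), e3 3 (by omega), e4]
  rfl

/-! ### array passes -/

/-- append an array -/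
def pa (i : ℕ) (x : Nm) : Ls := .app (keep (oA i)) (tab eN x)

theorem pa_fn (h : Vw n k A l) {i : ℕ}
    (hl : l.length = 7 + (n * n + n) + k + 10 * n + 5 + i * n) {x : Nm} {f : ℕ → ℕ}
    (hx : ∀ v < n, x.val l [v] = f v) : (pa i x).fn l = l ++ (List.range n).map f := by
  have e1 : (keep (oA i)).vals l [] = l := keep_vals (by rw [oA_val h, hl])
  show (keep (oA i)).vals l [] ++ (tab eN x).vals l [] = _
  rw [e1, tab_vals, eN_val h]
  congr 1
  exact List.map_congr_left (fun v hv => hx v (List.mem_range.mp hv))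

/-- the polynomial of the hash function -/
def eX (i : ℕ) : Ex := .add (.mul (sc 1) (.mul (.var i) (.var i))) (.add (.mul (sc 2) (.var i))
  (sc 3))

/-- indicator of the hidden set -/
def nU (D : ℕ) : Nm := .sum (.add (eX 0) (.con 1)) (.ite (.mul (sc 0) (.var 0)) (eX 1)
  (.ite (.add (.mul (.con D) (eX 1)) (.con 1))
    (.add (sc 0) (.mul (.con D) (.mul (sc 0) (.var 0)))) no nz) nz)

/-- value of `nU` -/
def vU (D : ℕ) (C : ℕ → ℕ) (v : ℕ) : ℕ :=
  ∑ j ∈ range (C 1 * (v * v) + (C 2 * v + C 3) + 1),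
    if C 0 * j ≤ C 1 * (v * v) + (C 2 * v + C 3) then
      (if D * (C 1 * (v * v) + (C 2 * v + C 3)) + 1 ≤ C 0 + D * (C 0 * j) then 1 else 0) else 0

theorem sc_val (h : Vw n k A l) {C : ℕ → ℕ}
    (hC : Arr l (7 + (n * n + n) + k + 10 * n) 5 C) {i : ℕ} (hi : i < 5) (env : List ℕ) :
    (sc i).val l env = C i := by
  simp only [sc, Ex.val, oC_val h]
  exact hC.2 i hi

theorem nU_val (h : Vw n k A l) {C : ℕ → ℕ} (hC : Arr l (7 + (n * n + n) + k + 10 * n) 5 C)
    (D v : ℕ) : (nU D).val l [v] = vU D C v := by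
  have h0 := sc_val h hC (i := 0) (by omega)
  have h1 := sc_val h hC (i := 1) (by omega)
  have h2 := sc_val h hC (i := 2) (by omega)
  have h3 := sc_val h hC (i := 3) (by omega)
  simp only [nU, vU, eX, no, nz, Nm.val, Ex.val, h0, h1, h2, h3, List.getD_cons_zero,
    List.getD_cons_succ]

/-- neighbours outside the hidden set on side `true` (`x = no, y = nz`) or `false` -/
def nKK (x y : Nm) : Nm := .sum eN (.ite (.con 1) (ad (.var 1) (.var 0))
  (.ite (ar 0 (.var 0)) (.con 0) (.ite (.con 1) (bS (.add (.mul (.con 8) eN) (.var 0))) x y) nz)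
  nz)

/-- value of `nKK` -/
def vKK (n : ℕ) (A : ℕ → ℕ → ℕ) (S U : ℕ → ℕ) (x y v : ℕ) : ℕ :=
  ∑ u ∈ range n, if 1 ≤ A v u then (if U u ≤ 0 then (if 1 ≤ S (8 * n + u) then x else y) else 0)
    else 0

section

variable {S U : ℕ → ℕ} {v : ℕ}

theorem nKK_val (h : Vw n k A l) (hS : Arr l (7 + (n * n + n) + k) (10 * n) S)
    (hU : Arr l (7 + (n * n + n) + k + 10 * n + 5 + 0 * n) n U) (hv : v < n) {x y : Nm} {a b : ℕ}
    (hx : ∀ env, x.val l env = a) (hy : ∀ env, y.val l env = b) :
    (nKK x y).val l [v] = vKK n A S U a b v := by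
  simp only [nKK, vKK, Nm.val, eN_val h]
  refine sum_congr rfl (fun u hu => ?_)
  rw [mem_range] at hu
  have e1 : (Ex.add (.mul (.con 8) eN) (.var 0)).val l [u, v] = 8 * n + u := by
    simp only [Ex.val, eN_val h, List.getD_cons_zero]
  rw [ad_val h (by exact hv) (by exact hu), ar_val h hU (by exact hu),
    bS_val h hS (by rw [e1]; omega), e1, hx, hy]
  rfl

/-- degree -/
def nD : Nm := .sum eN (.ite (.con 1) (ad (.var 1) (.var 0)) no nz)

/-- value of `nD` -/
def vD (n : ℕ) (A : ℕ → ℕ → ℕ) (v : ℕ) : ℕ := ∑ u ∈ range n, if 1 ≤ A v u then 1 else 0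

theorem nD_val (h : Vw n k A l) (hv : v < n) : nD.val l [v] = vD n A v := by
  simp only [nD, vD, Nm.val, eN_val h]
  refine sum_congr rfl (fun u hu => ?_)
  rw [mem_range] at hu
  rw [ad_val h (by exact hv) (by exact hu)]
  rfl

/-- number of neighbours in the hidden set -/
def nG : Nm := .sum eN (.ite (.con 1) (ad (.var 1) (.var 0)) (.ite (ar 0 (.var 0)) (.con 0) nz no)
  nz)

/-- value of `nG` -/
def vG (n : ℕ) (A : ℕ → ℕ → ℕ) (U : ℕ → ℕ) (v : ℕ) : ℕ :=
  ∑ u ∈ range n, if 1 ≤ A v u then (if U u ≤ 0 then 0 else 1) else 0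

theorem nG_val (h : Vw n k A l)
    (hU : Arr l (7 + (n * n + n) + k + 10 * n + 5 + 0 * n) n U) (hv : v < n) :
    nG.val l [v] = vG n A U v := by
  simp only [nG, vG, Nm.val, eN_val h]
  refine sum_congr rfl (fun u hu => ?_)
  rw [mem_range] at hu
  rw [ad_val h (by exact hv) (by exact hu), ar_val h hU (by exact hu)]
  rfl

end

/-- `1 + d + 8 c² K⁺ K⁻ ≤ 4 c² (K⁺² + K⁻²)` on `U` -/
def nP (c : ℕ) : Nm := .ite (.con 1) (ar 0 (.var 0))
  (.ite (.add (.add (.con 1) (ar 3 (.var 0)))
      (.mul (.con (8 * c ^ 2)) (.mul (ar 1 (.var 0)) (ar 2 (.var 0)))))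
    (.mul (.con (4 * c ^ 2)) (.add (.mul (ar 1 (.var 0)) (ar 1 (.var 0)))
      (.mul (ar 2 (.var 0)) (ar 2 (.var 0))))) no nz) nz

/-- value of `nP` -/
def vP (c : ℕ) (U Kp Km d : ℕ → ℕ) (v : ℕ) : ℕ :=
  if 1 ≤ U v then (if 1 + d v + 8 * c ^ 2 * (Kp v * Km v) ≤
    4 * c ^ 2 * (Kp v * Kp v + Km v * Km v) then 1 else 0) else 0

/-- errors -/
def nE : Nm := .ite (.con 1) (ar 5 (.var 0))
  (.ite (.add (.add (.mul (.con 9) eN) (.var 0)) (.con 1)) eK
    (.ite (.add (ar 1 (.var 0)) (.con 1)) (ar 2 (.var 0))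
      (.ite (.con 1) (bS (.add (.mul (.con 9) eN) (.var 0))) nz no)
      (.ite (.con 1) (bS (.add (.mul (.con 9) eN) (.var 0))) no nz)) nz) nz

/-- value of `nE` -/
def vE (n k : ℕ) (S P Kp Km : ℕ → ℕ) (v : ℕ) : ℕ :=
  if 1 ≤ P v then (if 9 * n + v + 1 ≤ k then (if Kp v + 1 ≤ Km v then
    (if 1 ≤ S (9 * n + v) then 0 else 1) else (if 1 ≤ S (9 * n + v) then 1 else 0)) else 0) else 0

/-- vertices that look balanced -/
def nQ (c : ℕ) : Nm := .ite (.mul (.con (c ^ 2)) (.add (.mul (ar 1 (.var 0)) (ar 1 (.var 0)))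
      (.mul (ar 2 (.var 0)) (ar 2 (.var 0)))))
    (.add (.mul (.con 4) (.add (.con 1) (ar 3 (.var 0))))
      (.mul (.con (2 * c ^ 2)) (.mul (ar 1 (.var 0)) (ar 2 (.var 0))))) no nz

/-- value of `nQ` -/
def vQ (c : ℕ) (Kp Km d : ℕ → ℕ) (v : ℕ) : ℕ :=
  if c ^ 2 * (Kp v * Kp v + Km v * Km v) ≤ 4 * (1 + d v) + 2 * c ^ 2 * (Kp v * Km v) then 1 else 0

/-- vertices with too many neighbours in the hidden set -/
def nB (c : ℕ) : Nm := .ite (.mul (.con (4 * c ^ 3)) (ar 4 (.var 0)))
  (.add (.con 1) (ar 3 (.var 0))) nz no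

/-- value of `nB` -/
def vB (c : ℕ) (d g : ℕ → ℕ) (v : ℕ) : ℕ := if 4 * c ^ 3 * g v ≤ 1 + d v then 0 else 1

/-- violations outside -/
def nV : Nm := .ite (.con 1) (ar 0 (.var 0))
  (.ite (.con 1) (bS (.add (.mul (.con 8) eN) (.var 0))) no nz) nz

/-- value of `nV` -/
def vV (n : ℕ) (S U : ℕ → ℕ) (v : ℕ) : ℕ :=
  if 1 ≤ U v then (if 1 ≤ S (8 * n + v) then 1 else 0) else 0

/-- violations inside -/
def nW : Nm := .ite (ar 0 (.var 0)) (.con 0)
  (.ite (.con 1) (bS (.add (.mul (.con 9) eN) (.var 0))) no nz) nz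

/-- value of `nW` -/
def vW (n : ℕ) (S U : ℕ → ℕ) (v : ℕ) : ℕ :=
  if U v ≤ 0 then (if 1 ≤ S (9 * n + v) then 1 else 0) else 0

/-- the bipartition -/
def nY : Nm := .ite (.con 1) (.add (bS (.add (.mul (.con 8) eN) (.var 0)))
  (bS (.add (.mul (.con 9) eN) (.var 0)))) no nz

/-- value of `nY` -/
def vY (n : ℕ) (S : ℕ → ℕ) (v : ℕ) : ℕ := if 1 ≤ S (8 * n + v) + S (9 * n + v) then 1 else 0

section

variable {S U Kp Km d g P : ℕ → ℕ} {v : ℕ}

theorem nP_val (h : Vw n k A l) (c : ℕ)
    (hU : Arr l (7 + (n * n + n) + k + 10 * n + 5 + 0 * n) n U)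
    (h1 : Arr l (7 + (n * n + n) + k + 10 * n + 5 + 1 * n) n Kp)
    (h2 : Arr l (7 + (n * n + n) + k + 10 * n + 5 + 2 * n) n Km)
    (h3 : Arr l (7 + (n * n + n) + k + 10 * n + 5 + 3 * n) n d) (hv : v < n) :
    (nP c).val l [v] = vP c U Kp Km d v := by
  have e0 := ar_val h hU (v := .var 0) (env := [v]) hv
  have e1 := ar_val h h1 (v := .var 0) (env := [v]) hv
  have e2 := ar_val h h2 (v := .var 0) (env := [v]) hv
  have e3 := ar_val h h3 (v := .var 0) (env := [v]) hv
  simp only [nP, vP, no, nz, Nm.val, Ex.val, e0, e1, e2, e3, List.getD_cons_zero]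

theorem s8_val (h : Vw n k A l) (hS : Arr l (7 + (n * n + n) + k) (10 * n) S) (hv : v < n) :
    (bS (.add (.mul (.con 8) eN) (.var 0))).val l [v] = S (8 * n + v) := by
  have e1 : (Ex.add (.mul (.con 8) eN) (.var 0)).val l [v] = 8 * n + v := by
    simp only [Ex.val, eN_val h, List.getD_cons_zero]
  rw [bS_val h hS (by rw [e1]; omega), e1]

theorem s9_val (h : Vw n k A l) (hS : Arr l (7 + (n * n + n) + k) (10 * n) S) (hv : v < n) :
    (bS (.add (.mul (.con 9) eN) (.var 0))).val l [v] = S (9 * n + v) := by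
  have e1 : (Ex.add (.mul (.con 9) eN) (.var 0)).val l [v] = 9 * n + v := by
    simp only [Ex.val, eN_val h, List.getD_cons_zero]
  rw [bS_val h hS (by rw [e1]; omega), e1]

theorem nE_val (h : Vw n k A l) (hS : Arr l (7 + (n * n + n) + k) (10 * n) S)
    (h1 : Arr l (7 + (n * n + n) + k + 10 * n + 5 + 1 * n) n Kp)
    (h2 : Arr l (7 + (n * n + n) + k + 10 * n + 5 + 2 * n) n Km)
    (h5 : Arr l (7 + (n * n + n) + k + 10 * n + 5 + 5 * n) n P) (hv : v < n) :
    nE.val l [v] = vE n k S P Kp Km v := by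
  have e1 := ar_val h h1 (v := .var 0) (env := [v]) hv
  have e2 := ar_val h h2 (v := .var 0) (env := [v]) hv
  have e5 := ar_val h h5 (v := .var 0) (env := [v]) hv
  simp only [nE, vE, no, nz, Nm.val, Ex.val, e1, e2, e5, s9_val h hS hv, eN_val h, eK_val h,
    List.getD_cons_zero]

theorem nQ_val (h : Vw n k A l) (c : ℕ)
    (h1 : Arr l (7 + (n * n + n) + k + 10 * n + 5 + 1 * n) n Kp)
    (h2 : Arr l (7 + (n * n + n) + k + 10 * n + 5 + 2 * n) n Km)
    (h3 : Arr l (7 + (n * n + n) + k + 10 * n + 5 + 3 * n) n d) (hv : v < n) :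
    (nQ c).val l [v] = vQ c Kp Km d v := by
  have e1 := ar_val h h1 (v := .var 0) (env := [v]) hv
  have e2 := ar_val h h2 (v := .var 0) (env := [v]) hv
  have e3 := ar_val h h3 (v := .var 0) (env := [v]) hv
  simp only [nQ, vQ, no, nz, Nm.val, Ex.val, e1, e2, e3, List.getD_cons_zero]

theorem nB_val (h : Vw n k A l) (c : ℕ)
    (h3 : Arr l (7 + (n * n + n) + k + 10 * n + 5 + 3 * n) n d)
    (h4 : Arr l (7 + (n * n + n) + k + 10 * n + 5 + 4 * n) n g) (hv : v < n) :
    (nB c).val l [v] = vB c d g v := by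
  have e3 := ar_val h h3 (v := .var 0) (env := [v]) hv
  have e4 := ar_val h h4 (v := .var 0) (env := [v]) hv
  simp only [nB, vB, no, nz, Nm.val, Ex.val, e3, e4, List.getD_cons_zero]

theorem nV_val (h : Vw n k A l) (hS : Arr l (7 + (n * n + n) + k) (10 * n) S)
    (hU : Arr l (7 + (n * n + n) + k + 10 * n + 5 + 0 * n) n U) (hv : v < n) :
    nV.val l [v] = vV n S U v := by
  have e0 := ar_val h hU (v := .var 0) (env := [v]) hv
  simp only [nV, vV, no, nz, Nm.val, Ex.val, e0, s8_val h hS hv, List.getD_cons_zero]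

theorem nW_val (h : Vw n k A l) (hS : Arr l (7 + (n * n + n) + k) (10 * n) S)
    (hU : Arr l (7 + (n * n + n) + k + 10 * n + 5 + 0 * n) n U) (hv : v < n) :
    nW.val l [v] = vW n S U v := by
  have e0 := ar_val h hU (v := .var 0) (env := [v]) hv
  simp only [nW, vW, no, nz, Nm.val, Ex.val, e0, s9_val h hS hv, List.getD_cons_zero]

theorem nY_val (h : Vw n k A l) (hS : Arr l (7 + (n * n + n) + k) (10 * n) S) (hv : v < n) :
    nY.val l [v] = vY n S v := by
  simp only [nY, vY, no, nz, Nm.val, Ex.val, s8_val h hS hv, s9_val h hS hv]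

end

end Pool.Agent.H88.MC
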