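import Pool.Agent.H88.MC.Pass

/-!
The last passes and the composition of all passes.
-/

namespace Pool.Agent.H88.MC

open Pool.Agent.H68.OQP Finset

variable {n k : ℕ} {A : ℕ → ℕ → ℕ} {l : List ℕ}

/-- sum of an array -/
def nS (i : ℕ) : Nm := .sum eN (.ex (ar i (.var 0)))

/-- sum of an array of length `n` -/
def vS (n : ℕ) (f : ℕ → ℕ) : ℕ := ∑ v ∈ range n, f v

theorem nS_val (h : Vw n k A l) {i : ℕ} {f : ℕ → ℕ}
    (hf : Arr l (7 + (n * n + n) + k + 10 * n + 5 + i * n) n f) (env : List ℕ) :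
    (nS i).val l env = vS n f := by
  simp only [nS, vS, Nm.val, eN_val h]
  refine sum_congr rfl (fun v hv => ?_)
  rw [mem_range] at hv
  rw [ar_val h hf (by exact hv)]
  rfl

/-- twice the size of the cut -/
def nZ : Nm := .sum eN (.sum eN (.ite (.con 1) (ad (.var 1) (.var 0))
  (.ite (.add (ar 11 (.var 1)) (ar 11 (.var 0))) (.con 1)
    (.ite (.con 1) (.add (ar 11 (.var 1)) (ar 11 (.var 0))) no nz) nz) nz))

/-- value of `nZ` -/
def vZ (n : ℕ) (A : ℕ → ℕ → ℕ) (Y : ℕ → ℕ) : ℕ :=
  ∑ u ∈ range n, ∑ v ∈ range n, if 1 ≤ A u v then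
    (if Y u + Y v ≤ 1 then (if 1 ≤ Y u + Y v then 1 else 0) else 0) else 0

theorem nZ_val (h : Vw n k A l) {Y : ℕ → ℕ}
    (hY : Arr l (7 + (n * n + n) + k + 10 * n + 5 + 11 * n) n Y) : nZ.val l [] = vZ n A Y := by
  simp only [nZ, vZ, Nm.val, eN_val h]
  refine sum_congr rfl (fun u hu => ?_)
  refine sum_congr rfl (fun v hv => ?_)
  rw [mem_range] at hu hv
  have e1 : (Ex.add (ar 11 (.var 1)) (ar 11 (.var 0))).val l [v, u] = Y u + Y v := by
    have a1 := ar_val h hY (v := .var 1) (env := [v, u]) hu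
    have a2 := ar_val h hY (v := .var 0) (env := [v, u]) hv
    show (ar 11 (.var 1)).val l [v, u] + (ar 11 (.var 0)).val l [v, u] = _
    rw [a1, a2]
    rfl
  rw [ad_val h (by exact hu) (by exact hv), e1]
  rfl

/-- second scalar pass -/
def pD : Ls := .app (keep (oA 12)) (.app (.ent (nS 0)) (.app (.ent (nS 5)) (.app (.ent (nS 6))
  (.app (.ent (nS 7)) (.app (.ent (nS 8)) (.app (.ent (nS 9)) (.app (.ent (nS 10))
    (.ent nZ))))))))

/-- a scalar of the second pass -/
def sd (i : ℕ) : Ex := .inp (.add (oA 12) (.con i))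

/-- the test -/
def nAl (c D n0 : ℕ) : Nm :=
  .ite (.add eN (.con 1)) (.con n0) no
  (.ite (sc 4) (.con 0)
    (.ite eK (.mul (.con 8) eN) no
      (.ite eN (.mul (.con (2 * D)) (sd 0))
        (.ite (.mul (.con (2 * c)) (sd 4)) eN
          (.ite (sd 5) (.con 0)
            (.ite eK (.mul (.con 9) eN) no
              (.ite (sd 6) (.con 0)
                (.ite (.mul (.con c) eN) (.add (.mul (.con 2) eN) (.mul (.con c) (sd 3))) no
                  (.ite eN (.mul (.con (4 * c * D)) (sd 1))
                    (.ite (.mul (.con 10) (sd 2)) (sd 1) no nz) nz)) nz)) nz) nz) nz)) nz)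

/-- value of the test -/
def vAl (n k c D n0 vio u p e q b x y : ℕ) : ℕ :=
  if n + 1 ≤ n0 then 1 else
  if vio ≤ 0 then
    if k ≤ 8 * n then 1 else
    if n ≤ 2 * D * u then
      if 2 * c * b ≤ n then
        if x ≤ 0 then
          if k ≤ 9 * n then 1 else
          if y ≤ 0 then
            if c * n ≤ 2 * n + c * q then 1 else
            if n ≤ 4 * c * D * p then (if 10 * e ≤ p then 1 else 0) else 0
          else 0
        else 0
      else 0
    else 0
  else 0

/-- last pass -/
def pF (c D n0 : ℕ) : Ls := .app (.ent (nAl c D n0)) (.app (.ent (.ex (sd 7)))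
  (.app (keep oS) (tab eN (.ex (ar 11 (.var 0))))))

/-- all passes -/
def allP (c D n0 : ℕ) : List Ls :=
  [pS, pC, pa 0 (nU D), pa 1 (nKK no nz), pa 2 (nKK nz no), pa 3 nD, pa 4 nG, pa 5 (nP c),
    pa 6 nE, pa 7 (nQ c), pa 8 (nB c), pa 9 nV, pa 10 nW, pa 11 nY, pD, pF c D n0]

/-- the composition -/
def allF (c D n0 : ℕ) (l : List ℕ) : List ℕ := (allP c D n0).foldl (fun l P => P.fn l) l

theorem allF_PF (c D n0 : ℕ) : PF (allF c D n0) := PF.of_passes _

section values

variable (n k : ℕ) (A : ℕ → ℕ → ℕ) (t : List ℕ) (c D : ℕ)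

/-- hidden set -/
def wU : ℕ → ℕ := vU D (vC n (bt t))
/-- neighbours outside on side true -/
def wKp : ℕ → ℕ := vKK n A (bt t) (wU n t D) 1 0
/-- neighbours outside on side false -/
def wKm : ℕ → ℕ := vKK n A (bt t) (wU n t D) 0 1
/-- degree -/
def wD : ℕ → ℕ := vD n A
/-- hidden neighbours -/
def wG : ℕ → ℕ := vG n A (wU n t D)
/-- predicted -/
def wP : ℕ → ℕ := vP c (wU n t D) (wKp n A t D) (wKm n A t D) (wD n A)
/-- errors -/
def wE : ℕ → ℕ := vE n t.length (bt t) (wP n A t c D) (wKp n A t D) (wKm n A t D)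
/-- balanced -/
def wQ : ℕ → ℕ := vQ c (wKp n A t D) (wKm n A t D) (wD n A)
/-- bad -/
def wB : ℕ → ℕ := vB c (wD n A) (wG n A t D)
/-- violations -/
def wV : ℕ → ℕ := vV n (bt t) (wU n t D)
/-- violations -/
def wW : ℕ → ℕ := vW n (bt t) (wU n t D)
/-- bipartition -/
def wY : ℕ → ℕ := vY n (bt t)

/-- result of the test -/
def wAl (n0 : ℕ) : ℕ := vAl n t.length c D n0 (vp n (bt t)) (vS n (wU n t D))
  (vS n (wP n A t c D)) (vS n (wE n A t c D)) (vS n (wQ n A t c D)) (vS n (wB n A t c D))
  (vS n (wV n t D)) (vS n (wW n t D))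

end values

theorem allF_eq {c D n0 : ℕ} {t : List ℕ} (h : Vw n t.length A l)
    (hl : l.length = 7 + (n * n + n) + t.length)
    (ht : Arr l (7 + (n * n + n)) t.length (fun i => t.getD i 0)) :
    allF c D n0 l = wAl n A t c D n0 :: vZ n A (wY n t) ::
      (l ++ (List.range n).map (wY n t)) := by
  -- the list after each pass
  have e0 := pS_fn h hl ht
  set l1 := l ++ (List.range (10 * n)).map (bt t) with hl1
  have L1 : l1.length = 7 + (n * n + n) + t.length + 10 * n := by
    rw [hl1, List.length_append, List.length_map, List.length_range, hl]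
  have h1 : Vw n t.length A l1 := h.app _
  have S1 : Arr l1 (7 + (n * n + n) + t.length) (10 * n) (bt t) := by
    have := Arr.new (l := l) (len := 10 * n) (bt t)
    rwa [hl] at this
  have e1 := pC_fn h1 L1 S1
  set l2 := l1 ++ (List.range 5).map (vC n (bt t)) with hl2
  have L2 : l2.length = 7 + (n * n + n) + t.length + 10 * n + 5 + 0 * n := by
    rw [hl2, List.length_append, List.length_map, List.length_range, L1]
    omega
  have h2 : Vw n t.length A l2 := h1.app _
  have S2 := S1.app ((List.range 5).map (vC n (bt t)))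
  rw [← hl2] at S2
  have C2 : Arr l2 (7 + (n * n + n) + t.length + 10 * n) 5 (vC n (bt t)) := by
    have := Arr.new (l := l1) (len := 5) (vC n (bt t))
    rwa [L1] at this
  -- arrays
  have step : ∀ (i : ℕ) (l : List ℕ) (f : ℕ → ℕ),
      l.length = 7 + (n * n + n) + t.length + 10 * n + 5 + i * n →
      (l ++ (List.range n).map f).length =
        7 + (n * n + n) + t.length + 10 * n + 5 + (i + 1) * n ∧
      Arr (l ++ (List.range n).map f)
        (7 + (n * n + n) + t.length + 10 * n + 5 + i * n) n f := by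
    intro i l f hl
    refine ⟨by rw [List.length_append, List.length_map, List.length_range, hl]; ring, ?_⟩
    have := Arr.new (l := l) (len := n) f
    rwa [hl] at this
  have e2 := pa_fn h2 (i := 0) L2 (x := nU D) (f := wU n t D) (fun v _ => nU_val h2 C2 D v)
  set l3 := l2 ++ (List.range n).map (wU n t D) with hl3
  obtain ⟨L3, U3⟩ := step 0 l2 (wU n t D) L2
  rw [← hl3] at L3 U3
  have h3 : Vw n t.length A l3 := h2.app _
  have S3 : Arr l3 (7 + (n * n + n) + t.length) (10 * n) (bt t) := S2.app _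
  have e3 := pa_fn h3 (i := 1) L3 (x := nKK no nz) (f := wKp n A t D)
    (fun v hv => nKK_val h3 S3 U3 hv (fun _ => rfl) (fun _ => rfl))
  set l4 := l3 ++ (List.range n).map (wKp n A t D) with hl4
  obtain ⟨L4, Kp4⟩ := step 1 l3 (wKp n A t D) L3
  rw [← hl4] at L4 Kp4
  have h4 : Vw n t.length A l4 := h3.app _
  have S4 : Arr l4 (7 + (n * n + n) + t.length) (10 * n) (bt t) := S3.app _
  have U4 : Arr l4 _ n (wU n t D) := U3.app _
  have e4 := pa_fn h4 (i := 2) L4 (x := nKK nz no) (f := wKm n A t D)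
    (fun v hv => nKK_val h4 S4 U4 hv (fun _ => rfl) (fun _ => rfl))
  set l5 := l4 ++ (List.range n).map (wKm n A t D) with hl5
  obtain ⟨L5, Km5⟩ := step 2 l4 (wKm n A t D) L4
  rw [← hl5] at L5 Km5
  have h5 : Vw n t.length A l5 := h4.app _
  have S5 : Arr l5 (7 + (n * n + n) + t.length) (10 * n) (bt t) := S4.app _
  have U5 : Arr l5 _ n (wU n t D) := U4.app _
  have Kp5 : Arr l5 _ n (wKp n A t D) := Kp4.app _
  have e5 := pa_fn h5 (i := 3) L5 (x := nD) (f := wD n A) (fun v hv => nD_val h5 hv)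
  set l6 := l5 ++ (List.range n).map (wD n A) with hl6
  obtain ⟨L6, D6⟩ := step 3 l5 (wD n A) L5
  rw [← hl6] at L6 D6
  have h6 : Vw n t.length A l6 := h5.app _
  have S6 : Arr l6 (7 + (n * n + n) + t.length) (10 * n) (bt t) := S5.app _
  have U6 : Arr l6 _ n (wU n t D) := U5.app _
  have Kp6 : Arr l6 _ n (wKp n A t D) := Kp5.app _
  have Km6 : Arr l6 _ n (wKm n A t D) := Km5.app _
  have e6 := pa_fn h6 (i := 4) L6 (x := nG) (f := wG n A t D) (fun v hv => nG_val h6 U6 hv)
  set l7 := l6 ++ (List.range n).map (wG n A t D) with hl7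
  obtain ⟨L7, G7⟩ := step 4 l6 (wG n A t D) L6
  rw [← hl7] at L7 G7
  have h7 : Vw n t.length A l7 := h6.app _
  have S7 : Arr l7 (7 + (n * n + n) + t.length) (10 * n) (bt t) := S6.app _
  have U7 : Arr l7 _ n (wU n t D) := U6.app _
  have Kp7 : Arr l7 _ n (wKp n A t D) := Kp6.app _
  have Km7 : Arr l7 _ n (wKm n A t D) := Km6.app _
  have D7 : Arr l7 _ n (wD n A) := D6.app _
  have e7 := pa_fn h7 (i := 5) L7 (x := nP c) (f := wP n A t c D)
    (fun v hv => nP_val h7 c U7 Kp7 Km7 D7 hv)
  set l8 := l7 ++ (List.range n).map (wP n A t c D) with hl8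
  obtain ⟨L8, P8⟩ := step 5 l7 (wP n A t c D) L7
  rw [← hl8] at L8 P8
  have h8 : Vw n t.length A l8 := h7.app _
  have S8 : Arr l8 (7 + (n * n + n) + t.length) (10 * n) (bt t) := S7.app _
  have U8 : Arr l8 _ n (wU n t D) := U7.app _
  have Kp8 : Arr l8 _ n (wKp n A t D) := Kp7.app _
  have Km8 : Arr l8 _ n (wKm n A t D) := Km7.app _
  have D8 : Arr l8 _ n (wD n A) := D7.app _
  have G8 : Arr l8 _ n (wG n A t D) := G7.app _
  have e8 := pa_fn h8 (i := 6) L8 (x := nE) (f := wE n A t c D)
    (fun v hv => nE_val h8 S8 Kp8 Km8 P8 hv)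
  set l9 := l8 ++ (List.range n).map (wE n A t c D) with hl9
  obtain ⟨L9, E9⟩ := step 6 l8 (wE n A t c D) L8
  rw [← hl9] at L9 E9
  have h9 : Vw n t.length A l9 := h8.app _
  have S9 : Arr l9 (7 + (n * n + n) + t.length) (10 * n) (bt t) := S8.app _
  have U9 : Arr l9 _ n (wU n t D) := U8.app _
  have Kp9 : Arr l9 _ n (wKp n A t D) := Kp8.app _
  have Km9 : Arr l9 _ n (wKm n A t D) := Km8.app _
  have D9 : Arr l9 _ n (wD n A) := D8.app _
  have G9 : Arr l9 _ n (wG n A t D) := G8.app _
  have P9 : Arr l9 _ n (wP n A t c D) := P8.app _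
  have e9 := pa_fn h9 (i := 7) L9 (x := nQ c) (f := wQ n A t c D)
    (fun v hv => nQ_val h9 c Kp9 Km9 D9 hv)
  set l10 := l9 ++ (List.range n).map (wQ n A t c D) with hl10
  obtain ⟨L10, Q10⟩ := step 7 l9 (wQ n A t c D) L9
  rw [← hl10] at L10 Q10
  have h10 : Vw n t.length A l10 := h9.app _
  have S10 : Arr l10 (7 + (n * n + n) + t.length) (10 * n) (bt t) := S9.app _
  have U10 : Arr l10 _ n (wU n t D) := U9.app _
  have D10 : Arr l10 _ n (wD n A) := D9.app _
  have G10 : Arr l10 _ n (wG n A t D) := G9.app _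
  have P10 : Arr l10 _ n (wP n A t c D) := P9.app _
  have E10 : Arr l10 _ n (wE n A t c D) := E9.app _
  have e10 := pa_fn h10 (i := 8) L10 (x := nB c) (f := wB n A t c D)
    (fun v hv => nB_val h10 c D10 G10 hv)
  set l11 := l10 ++ (List.range n).map (wB n A t c D) with hl11
  obtain ⟨L11, B11⟩ := step 8 l10 (wB n A t c D) L10
  rw [← hl11] at L11 B11
  have h11 : Vw n t.length A l11 := h10.app _
  have S11 : Arr l11 (7 + (n * n + n) + t.length) (10 * n) (bt t) := S10.app _
  have U11 : Arr l11 _ n (wU n t D) := U10.app _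
  have P11 : Arr l11 _ n (wP n A t c D) := P10.app _
  have E11 : Arr l11 _ n (wE n A t c D) := E10.app _
  have Q11 : Arr l11 _ n (wQ n A t c D) := Q10.app _
  have e11 := pa_fn h11 (i := 9) L11 (x := nV) (f := wV n t D)
    (fun v hv => nV_val h11 S11 U11 hv)
  set l12 := l11 ++ (List.range n).map (wV n t D) with hl12
  obtain ⟨L12, V12⟩ := step 9 l11 (wV n t D) L11
  rw [← hl12] at L12 V12
  have h12 : Vw n t.length A l12 := h11.app _
  have S12 : Arr l12 (7 + (n * n + n) + t.length) (10 * n) (bt t) := S11.app _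
  have U12 : Arr l12 _ n (wU n t D) := U11.app _
  have P12 : Arr l12 _ n (wP n A t c D) := P11.app _
  have E12 : Arr l12 _ n (wE n A t c D) := E11.app _
  have Q12 : Arr l12 _ n (wQ n A t c D) := Q11.app _
  have B12 : Arr l12 _ n (wB n A t c D) := B11.app _
  have e12 := pa_fn h12 (i := 10) L12 (x := nW) (f := wW n t D)
    (fun v hv => nW_val h12 S12 U12 hv)
  set l13 := l12 ++ (List.range n).map (wW n t D) with hl13
  obtain ⟨L13, W13⟩ := step 10 l12 (wW n t D) L12
  rw [← hl13] at L13 W13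
  have h13 : Vw n t.length A l13 := h12.app _
  have S13 : Arr l13 (7 + (n * n + n) + t.length) (10 * n) (bt t) := S12.app _
  have e13 := pa_fn h13 (i := 11) L13 (x := nY) (f := wY n t)
    (fun v hv => nY_val h13 S13 hv)
  have U13 : Arr l13 _ n (wU n t D) := U12.app _
  have P13 : Arr l13 _ n (wP n A t c D) := P12.app _
  have E13 : Arr l13 _ n (wE n A t c D) := E12.app _
  have Q13 : Arr l13 _ n (wQ n A t c D) := Q12.app _
  have B13 : Arr l13 _ n (wB n A t c D) := B12.app _
  have V13 : Arr l13 _ n (wV n t D) := V12.app _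
  set l14 := l13 ++ (List.range n).map (wY n t) with hl14
  obtain ⟨L14, Y14⟩ := step 11 l13 (wY n t) L13
  rw [← hl14] at L14 Y14
  have h14 : Vw n t.length A l14 := h13.app _
  have U14 : Arr l14 _ n (wU n t D) := U13.app _
  have P14 : Arr l14 _ n (wP n A t c D) := P13.app _
  have E14 : Arr l14 _ n (wE n A t c D) := E13.app _
  have Q14 : Arr l14 _ n (wQ n A t c D) := Q13.app _
  have B14 : Arr l14 _ n (wB n A t c D) := B13.app _
  have V14 : Arr l14 _ n (wV n t D) := V13.app _
  have W14 : Arr l14 _ n (wW n t D) := W13.app _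
  have e14 : pD.fn l14 = l14 ++ [vS n (wU n t D), vS n (wP n A t c D), vS n (wE n A t c D),
      vS n (wQ n A t c D), vS n (wB n A t c D), vS n (wV n t D), vS n (wW n t D),
      vZ n A (wY n t)] := by
    have k1 : (keep (oA 12)).vals l14 [] = l14 := keep_vals (by rw [oA_val h14, L14])
    show (keep (oA 12)).vals l14 [] ++ ([(nS 0).val l14 []] ++ ([(nS 5).val l14 []] ++
      ([(nS 6).val l14 []] ++ ([(nS 7).val l14 []] ++ ([(nS 8).val l14 []] ++
      ([(nS 9).val l14 []] ++ ([(nS 10).val l14 []] ++ [nZ.val l14 []]))))))) = _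
    rw [k1, nS_val h14 U14, nS_val h14 P14, nS_val h14 E14, nS_val h14 Q14, nS_val h14 B14,
      nS_val h14 V14, nS_val h14 W14, nZ_val h14 Y14]
    rfl
  set r := [vS n (wU n t D), vS n (wP n A t c D), vS n (wE n A t c D),
      vS n (wQ n A t c D), vS n (wB n A t c D), vS n (wV n t D), vS n (wW n t D),
      vZ n A (wY n t)] with hr
  set l15 := l14 ++ r with hl15
  have h15 : Vw n t.length A l15 := h14.app _
  have Y15 : Arr l15 _ n (wY n t) := Y14.app _
  have sd15 : ∀ (i : ℕ) (env : List ℕ), (sd i).val l15 env = r.getD i 0 := by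
    intro i env
    simp only [sd, Ex.val, oA_val h15]
    have : 7 + (n * n + n) + t.length + 10 * n + 5 + 12 * n = l14.length := by
      rw [L14]
    rw [this, hl15, getD_off]
  -- the scalars of the first pass
  have C15 : Arr l15 (7 + (n * n + n) + t.length + 10 * n) 5 (vC n (bt t)) :=
    (((((((((((((C2.app _).app _).app _).app _).app _).app _).app _).app _).app _).app _).app
      _).app _).app _)
  have c4 : ∀ env, (sc 4).val l15 env = vp n (bt t) := by
    intro env
    rw [sc_val h15 C15 (by omega)]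
    rfl
  have e15 : (pF c D n0).fn l15 = wAl n A t c D n0 :: vZ n A (wY n t) ::
      (l ++ (List.range n).map (wY n t)) := by
    show [(nAl c D n0).val l15 []] ++ ([(sd 7).val l15 []] ++ ((keep oS).vals l15 [] ++
      (tab eN (.ex (ar 11 (.var 0)))).vals l15 [])) = _
    have k1 : (keep oS).vals l15 [] = l := by
      rw [keep_vals_gen, oS_val h15, ← hl]
      have k2 : ∀ i ∈ List.range l.length, l15.getD i 0 = l.getD i 0 := by
        intro i hi
        rw [List.mem_range] at hi
        obtain ⟨s, hs⟩ : l <+: l15 :=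
          (List.prefix_append l _).trans <| (List.prefix_append l1 _).trans <|
          (List.prefix_append l2 _).trans <| (List.prefix_append l3 _).trans <|
          (List.prefix_append l4 _).trans <| (List.prefix_append l5 _).trans <|
          (List.prefix_append l6 _).trans <| (List.prefix_append l7 _).trans <|
          (List.prefix_append l8 _).trans <| (List.prefix_append l9 _).trans <|
          (List.prefix_append l10 _).trans <| (List.prefix_append l11 _).trans <|
          (List.prefix_append l12 _).trans <| (List.prefix_append l13 _).trans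
          (List.prefix_append l14 _)
        rw [← hs, getD_app_left hi]
      rw [List.map_congr_left k2, map_getD_range]
    have k2 : (tab eN (.ex (ar 11 (.var 0)))).vals l15 [] = (List.range n).map (wY n t) := by
      rw [tab_vals, eN_val h15]
      refine List.map_congr_left (fun i hi => ?_)
      rw [List.mem_range] at hi
      show (ar 11 (.var 0)).val l15 [i] = _
      rw [ar_val h15 Y15 (by exact hi)]
      rfl
    rw [k1, k2]
    have k3 : (nAl c D n0).val l15 [] = wAl n A t c D n0 := by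
      simp only [nAl, wAl, vAl, no, nz, Nm.val, Ex.val, sd15, c4, eN_val h15, eK_val h15]
      rfl
    rw [k3, sd15]
    rfl
  show (allP c D n0).foldl (fun l P => P.fn l) l = _
  simp only [allP, List.foldl_cons, List.foldl_nil]
  rw [e0, e1, e2, e3, e4, e5, e6, e7, e8, e9, e10, e11, e12, e13, e14, e15]

end Pool.Agent.H88.MC
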