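import Pool.Agent.H88.MC.Loop

/-!
A small language for transformations of lists of natural numbers, computable in polynomial time.
-/

namespace Pool.Agent.H88.MC

open Pool.Agent.H68.OQP

/-- numerical terms: expressions, sums, case distinctions on `a ≤ b`, finite sums over a loop
index (the innermost loop index is `var 0`) -/
inductive Nm : Type
  | ex (e : Ex) : Nm
  | add (a b : Nm) : Nm
  | ite (a b : Ex) (x y : Nm) : Nm
  | sum (e : Ex) (x : Nm) : Nm

/-- value of a term -/
def Nm.val (l : List ℕ) : List ℕ → Nm → ℕ
  | env, .ex e => e.val l env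
  | env, .add a b => a.val l env + b.val l env
  | env, .ite a b x y => if a.val l env ≤ b.val l env then x.val l env else y.val l env
  | env, .sum e x => ∑ i ∈ Finset.range (e.val l env), x.val l (i :: env)

/-- the generator of a term -/
def Nm.gn : Nm → Gn
  | .ex e => .un e
  | .add a b => .seq a.gn b.gn
  | .ite a b x y => .ifle a b x.gn y.gn
  | .sum e x => .loop e x.gn

theorem flatMap_replicate (f : ℕ → ℕ) (n : ℕ) :
    (List.range n).flatMap (fun i => List.replicate (f i) true) =
      List.replicate (∑ i ∈ Finset.range n, f i) true := by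
  induction n with
  | zero => simp
  | succ n ih =>
    rw [List.range_succ, List.flatMap_append, ih, Finset.sum_range_succ, List.replicate_add]
    simp

theorem Nm.gn_out (l : List ℕ) (x : Nm) : ∀ env, x.gn.out l env =
    List.replicate (x.val l env) true := by
  induction x with
  | ex e => intro env; rfl
  | add a b iha ihb =>
    intro env
    simp only [Nm.gn, Gn.out, iha, ihb, Nm.val, List.replicate_add]
  | ite a b x y ihx ihy =>
    intro env
    simp only [Nm.gn, Gn.out, ihx, ihy, Nm.val]
    split_ifs <;> rfl
  | sum e x ih =>
    intro env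
    simp only [Nm.gn, Gn.out, ih, Nm.val]
    exact flatMap_replicate _ _

/-- list terms -/
inductive Ls : Type
  | nil : Ls
  | ent (x : Nm) : Ls
  | app (a b : Ls) : Ls
  | loop (e : Ex) (a : Ls) : Ls
  | ite (a b : Ex) (x y : Ls) : Ls

/-- the list given by a list term -/
def Ls.vals (l : List ℕ) : List ℕ → Ls → List ℕ
  | _, .nil => []
  | env, .ent x => [x.val l env]
  | env, .app a b => a.vals l env ++ b.vals l env
  | env, .loop e a => (List.range (e.val l env)).flatMap (fun i => a.vals l (i :: env))
  | env, .ite a b x y => if a.val l env ≤ b.val l env then x.vals l env else y.vals l env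

/-- the generator of a list term -/
def Ls.gn : Ls → Gn
  | .nil => .nil
  | .ent x => .seq x.gn (.bit false)
  | .app a b => .seq a.gn b.gn
  | .loop e a => .loop e a.gn
  | .ite a b x y => .ifle a b x.gn y.gn

theorem unary_append (l m : List ℕ) : unary (l ++ m) = unary l ++ unary m := by
  simp [unary]

theorem unary_flatMap (f : ℕ → List ℕ) (l : List ℕ) :
    unary (l.flatMap f) = l.flatMap (fun i => unary (f i)) := by
  induction l with
  | nil => rfl
  | cons a l ih => rw [List.flatMap_cons, unary_append, ih, List.flatMap_cons]

theorem Ls.gn_out (l : List ℕ) (x : Ls) : ∀ env, x.gn.out l env = unary (x.vals l env) := by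
  induction x with
  | nil => intro env; rfl
  | ent x =>
    intro env
    simp [Ls.gn, Gn.out, Nm.gn_out, Ls.vals, unary]
  | app a b iha ihb =>
    intro env
    simp only [Ls.gn, Gn.out, iha, ihb, Ls.vals, unary_append]
  | loop e a ih =>
    intro env
    simp only [Ls.gn, Gn.out, ih, Ls.vals, unary_flatMap]
  | ite a b x y ihx ihy =>
    intro env
    simp only [Ls.gn, Gn.out, ihx, ihy, Ls.vals]
    split_ifs <;> rfl

/-- the function on lists given by a list term -/
def Ls.fn (P : Ls) (l : List ℕ) : List ℕ := P.vals l []

/-- every list term is computable in polynomial time -/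
theorem PF.of_ls (P : Ls) : PF P.fn := PF.of_gen P.gn (fun l => P.gn_out l [])

/-- a list term applied to a list of `Ls` passes -/
theorem PF.of_passes : ∀ (Ps : List Ls), PF (fun l => Ps.foldl (fun l P => P.fn l) l)
  | [] => by
    refine ⟨Pool.Agent.H1.Gen.nop, 1, fun l => ?_⟩
    simpa using Pool.Agent.H1.Gen.nop_does (S := st l)
  | P :: Ps => by
    simpa using PF.comp (PF.of_ls P) (PF.of_passes Ps)

/-- copy the first `e` entries -/
def keep (e : Ex) : Ls := .loop e (.ent (.ex (.inp (.var 0))))

theorem map_getD_range (l : List ℕ) : (List.range l.length).map (fun i => l.getD i 0) = l := by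
  refine List.ext_getElem (by simp) (fun i h1 h2 => ?_)
  simp only [List.getElem_map, List.getElem_range]
  exact List.getD_eq_getElem _ _ h2

theorem flatMap_singleton' (f : ℕ → ℕ) (l : List ℕ) : l.flatMap (fun i => [f i]) = l.map f := by
  induction l with
  | nil => rfl
  | cons a l ih => simp [List.flatMap_cons, ih]

theorem keep_vals {l env : List ℕ} {e : Ex} (h : e.val l env = l.length) :
    (keep e).vals l env = l := by
  simp only [keep, Ls.vals, Nm.val, Ex.val, h, List.getD_cons_zero, flatMap_singleton']
  exact map_getD_range l

theorem keep_vals_gen (l env : List ℕ) (e : Ex) :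
    (keep e).vals l env = (List.range (e.val l env)).map (fun i => l.getD i 0) := by
  simp only [keep, Ls.vals, Nm.val, Ex.val, List.getD_cons_zero, flatMap_singleton']

/-- one entry for each index below `e` -/
def tab (e : Ex) (x : Nm) : Ls := .loop e (.ent x)

theorem tab_vals (l env : List ℕ) (e : Ex) (x : Nm) :
    (tab e x).vals l env = (List.range (e.val l env)).map (fun i => x.val l (i :: env)) := by
  simp only [tab, Ls.vals, flatMap_singleton']

/-- an input graph: `n`, then the `n * n` entries of the adjacency matrix, row by row -/
theorem getD_map_range (f : ℕ → ℕ) {n i : ℕ} (h : i < n) :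
    ((List.range n).map f).getD i 0 = f i := by
  rw [List.getD_eq_getElem _ _ (by simpa using h)]
  simp

theorem getD_app_left {l m : List ℕ} {i : ℕ} (h : i < l.length) :
    (l ++ m).getD i 0 = l.getD i 0 := List.getD_append _ _ _ _ h

theorem getD_app_right {l m : List ℕ} {i : ℕ} (h : l.length ≤ i) :
    (l ++ m).getD i 0 = m.getD (i - l.length) 0 := List.getD_append_right _ _ _ _ h

end Pool.Agent.H88.MC
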