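import Pool.Agent.H1.Gen.Main

/-!
Executions of stack programs with a bound on the total length of all stacks.
-/

namespace Pool.Agent.H88.MC

open Turing Function Pool.Agent.H70.TM Pool.Agent.H1.Gen

section

variable {K : Type} [DecidableEq K] [Fintype K] {σ : Type}

/-- total length of the stacks -/
def sz (S : K → List Bool) : ℕ := ∑ k, (S k).length

theorem sz_update (S : K → List Bool) (k : K) (l : List Bool) :
    sz (update S k l) + (S k).length = sz S + l.length := by
  unfold sz
  rw [← Finset.add_sum_erase _ _ (Finset.mem_univ k), ← Finset.add_sum_erase _ (fun k => (S k).length)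
    (Finset.mem_univ k)]
  rw [update_self]
  have : ∑ x ∈ Finset.univ.erase k, (update S k l x).length =
      ∑ x ∈ Finset.univ.erase k, (S x).length := by
    refine Finset.sum_congr rfl (fun x hx => ?_)
    rw [update_of_ne (Finset.ne_of_mem_erase hx)]
  rw [this]
  ring

theorem sz_push (S : K → List Bool) (k : K) (b : Bool) : sz (update S k (b :: S k)) = sz S + 1 := by
  have := sz_update S k (b :: S k)
  rw [List.length_cons] at this
  omega

theorem sz_pop (S : K → List Bool) (k : K) : sz (update S k (S k).tail) ≤ sz S := by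
  have := sz_update S k (S k).tail
  rw [List.length_tail] at this
  omega

theorem run_sz {c : Cmd K σ} {v v' : σ} {S S' : K → List Bool} {n : ℕ}
    (h : Run c v S v' S' n) : sz S' ≤ sz S + n := by
  induction h with
  | push k f v S => rw [sz_push]
  | pop k f v S => exact (sz_pop S k).trans (Nat.le_succ _)
  | load f v S => exact Nat.le_succ _
  | seq h1 h2 ih1 ih2 => omega
  | ite_true hp h1 ih1 => omega
  | ite_false hp h1 ih1 => omega
  | wh_false hp => omega
  | wh_true hp h1 h2 ih1 ih2 => omega

/-- `n` steps lead from `a` to `b`, and all configurations visited have size at most `B` -/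
def SB {Λ : Type} (M : Λ → TM2.Stmt (fun _ : K => Bool) Λ σ) (a : TM2.Cfg (fun _ : K => Bool) Λ σ)
    (n : ℕ) (b : TM2.Cfg (fun _ : K => Bool) Λ σ) (B : ℕ) : Prop :=
  steps M n a = some b ∧ ∀ i ≤ n, ∀ c, steps M i a = some c → sz c.stk ≤ B

variable {Λ : Type} {M : Λ → TM2.Stmt (fun _ : K => Bool) Λ σ}

theorem SB.trans {a b c : TM2.Cfg (fun _ : K => Bool) Λ σ} {n m B : ℕ} (h1 : SB M a n b B)
    (h2 : SB M b m c B) : SB M a (n + m) c B := by
  refine ⟨steps_add h1.1 h2.1, fun i hi d hd => ?_⟩
  rcases le_total i n with h | h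
  · exact h1.2 i h d hd
  · obtain ⟨j, rfl⟩ := Nat.exists_eq_add_of_le h
    refine h2.2 j (by omega) d ?_
    have h3 := h1.1
    unfold steps at *
    rw [Nat.add_comm, Function.iterate_add_apply, h3] at hd
    exact hd

theorem SB.one {a b : TM2.Cfg (fun _ : K => Bool) Λ σ} {B : ℕ} (h : TM2.step M a = some b)
    (ha : sz a.stk ≤ B) (hb : sz b.stk ≤ B) : SB M a 1 b B := by
  refine ⟨steps_one h, fun i hi c hc => ?_⟩
  interval_cases i
  · have : a = c := by simpa [steps] using hc
    rw [← this]
    exact ha
  · rw [steps_one h] at hc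
    have : b = c := by simpa using hc
    rw [← this]
    exact hb

theorem SB.mono {a b : TM2.Cfg (fun _ : K => Bool) Λ σ} {n B B' : ℕ} (h : SB M a n b B)
    (hB : B ≤ B') : SB M a n b B' :=
  ⟨h.1, fun i hi c hc => (h.2 i hi c hc).trans hB⟩

/-- space-bounded run of a program, inside any machine -/
def RunSp (c : Cmd K σ) (v : σ) (S : K → List Bool) (v' : σ) (S' : K → List Bool)
    (n B : ℕ) : Prop :=
  ∀ (Λ : Type) (M : Λ → TM2.Stmt (fun _ : K => Bool) Λ σ) (e : Lab c → Λ) (nx : Λ),
    (∀ l, M (e l) = comp c e nx l) →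
    SB M ⟨some (e (entry c)), v, S⟩ n ⟨some nx, v', S'⟩ B

variable {c c₁ c₂ : Cmd K σ} {v v' v'' : σ} {S S' S'' : K → List Bool} {n m B : ℕ}

theorem RunSp.mono {B' : ℕ} (h : RunSp c v S v' S' n B) (hB : B ≤ B') :
    RunSp c v S v' S' n B' := fun Λ M e nx hM => (h Λ M e nx hM).mono hB

theorem RunSp.seq (h1 : RunSp c₁ v S v' S' n B) (h2 : RunSp c₂ v' S' v'' S'' m B) :
    RunSp (.seq c₁ c₂) v S v'' S'' (n + m) B := by
  intro Λ M e nx hM
  have e1 := h1 Λ M (fun l => e (.inl l)) (e (.inr (entry c₂))) (fun l => hM (.inl l))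
  have e2 := h2 Λ M (fun l => e (.inr l)) nx (fun l => hM (.inr l))
  exact e1.trans e2

theorem RunSp.ite_true {p : σ → Bool} (hp : p v = true) (hB : sz S ≤ B)
    (h1 : RunSp c₁ v S v' S' n B) : RunSp (.ite p c₁ c₂) v S v' S' (n + 1) B := by
  intro Λ M e nx hM
  have e0 : SB M ⟨some (e (entry (.ite p c₁ c₂))), v, S⟩ 1
      ⟨some (e (some (.inl (entry c₁)))), v, S⟩ B := by
    refine SB.one ?_ hB hB
    rw [TM2.step, hM]
    simp [entry, H70.TM.comp, TM2.stepAux, hp]
  have e1 := h1 Λ M (fun l => e (some (.inl l))) nx (fun l => hM (some (.inl l)))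
  rw [Nat.add_comm]
  exact e0.trans e1

theorem RunSp.ite_false {p : σ → Bool} (hp : p v = false) (hB : sz S ≤ B)
    (h1 : RunSp c₂ v S v' S' n B) : RunSp (.ite p c₁ c₂) v S v' S' (n + 1) B := by
  intro Λ M e nx hM
  have e0 : SB M ⟨some (e (entry (.ite p c₁ c₂))), v, S⟩ 1
      ⟨some (e (some (.inr (entry c₂)))), v, S⟩ B := by
    refine SB.one ?_ hB hB
    rw [TM2.step, hM]
    simp [entry, H70.TM.comp, TM2.stepAux, hp]
  have e1 := h1 Λ M (fun l => e (some (.inr l))) nx (fun l => hM (some (.inr l)))
  rw [Nat.add_comm]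
  exact e0.trans e1

theorem RunSp.wh_false {p : σ → Bool} (hp : p v = false) (hB : sz S ≤ B) :
    RunSp (.wh p c) v S v S 1 B := by
  intro Λ M e nx hM
  refine SB.one ?_ hB hB
  rw [TM2.step, hM]
  simp [entry, H70.TM.comp, TM2.stepAux, hp]

theorem RunSp.wh_true {p : σ → Bool} (hp : p v = true) (hB : sz S ≤ B)
    (h1 : RunSp c v S v' S' n B) (h2 : RunSp (.wh p c) v' S' v'' S'' m B) :
    RunSp (.wh p c) v S v'' S'' (n + m + 1) B := by
  intro Λ M e nx hM
  have e0 : SB M ⟨some (e (entry (.wh p c))), v, S⟩ 1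
      ⟨some (e (some (entry c))), v, S⟩ B := by
    refine SB.one ?_ hB hB
    rw [TM2.step, hM]
    simp [entry, H70.TM.comp, TM2.stepAux, hp]
  have e1 := h1 Λ M (fun l => e (some l)) (e none) (fun l => hM (some l))
  have e2 := h2 Λ M e nx hM
  have : n + m + 1 = 1 + (n + m) := by omega
  rw [this]
  exact e0.trans (e1.trans e2)

theorem RunSp.of_run (h : Run c v S v' S' n) : ∀ {B : ℕ}, sz S + n ≤ B →
    RunSp c v S v' S' n B := by
  induction h with
  | push k f v S =>
    intro B hB Λ M e nx hM
    refine SB.one ?_ (by simpa using by omega) (by simp only; rw [sz_push]; omega)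
    rw [TM2.step, hM]
    rfl
  | pop k f v S =>
    intro B hB Λ M e nx hM
    refine SB.one ?_ (by simpa using by omega)
      ((sz_pop S k).trans (by omega))
    rw [TM2.step, hM]
    rfl
  | load f v S =>
    intro B hB Λ M e nx hM
    refine SB.one ?_ (by simpa using by omega) (by simpa using by omega)
    rw [TM2.step, hM]
    rfl
  | seq h1 h2 ih1 ih2 =>
    intro B hB
    have := run_sz h1
    exact RunSp.seq (ih1 (B := B) (by omega)) (ih2 (B := B) (by omega))
  | ite_true hp h1 ih1 =>
    intro B hB
    exact RunSp.ite_true hp (by omega) (ih1 (B := B) (by omega))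
  | ite_false hp h1 ih1 =>
    intro B hB
    exact RunSp.ite_false hp (by omega) (ih1 (B := B) (by omega))
  | wh_false hp =>
    intro B hB
    exact RunSp.wh_false hp (by omega)
  | wh_true hp h1 h2 ih1 ih2 =>
    intro B hB
    have := run_sz h1
    exact RunSp.wh_true hp (by omega) (ih1 (B := B) (by omega)) (ih2 (B := B) (by omega))

end

/-! The bundled machine. -/

/-- total length of the stacks of a configuration -/
def space {tm : FinTM2} (c : tm.Cfg) : ℕ :=
  haveI := tm.kFin
  ∑ k, (c.stk k).length

/-- all stacks of the machine are binary -/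
def Binary (tm : FinTM2) : Prop := ∀ k, Nonempty (tm.Γ k ≃ Bool)

/-- the machine `tm`, started with `x` on its input stack, halts with `y` on its output stack
(and the other stacks empty) after at most `T` steps, and until then the total length of its
stacks is at most `S` -/
def RunsWithin (tm : FinTM2) (ei : tm.Γ tm.k₀ ≃ Bool) (eo : tm.Γ tm.k₁ ≃ Bool) (x y : List Bool)
    (T S : ℕ) : Prop :=
  ∃ n ≤ T, (flip bind tm.step)^[n] (some (initList tm (x.map ei.invFun))) =
      some (haltList tm (y.map eo.invFun)) ∧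
    ∀ i ≤ n, ∀ c : tm.Cfg, (flip bind tm.step)^[i] (some (initList tm (x.map ei.invFun))) =
      some c → space c ≤ S

theorem runsWithin_machine {K σ : Type} [DecidableEq K] [Fintype K] [Fintype σ] (c : Cmd K σ)
    (i o : K) (init : σ) {x y : List Bool} {v' : σ} {n B : ℕ}
    (h : RunSp c init (update (fun _ => []) i x) v' (update (fun _ => []) o y) n B) :
    RunsWithin (machine c i o init) (Equiv.refl Bool) (Equiv.refl Bool) x y (n + 1) B := by
  have hsteps := h (Option (Lab c)) (machine c i o init).m some none (fun _ => rfl)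
  have hmap : List.map (Equiv.refl Bool).invFun x = x := List.map_id' _
  have hmap' : List.map (Equiv.refl Bool).invFun y = y := List.map_id' _
  have hinit := Eq.trans (congrArg (initList (machine c i o init)) hmap)
    (initList_machine c i o init x)
  have hhalt := Eq.trans (congrArg (haltList (machine c i o init)) hmap')
    (haltList_machine c i o init y)
  have hB : sz (update (fun _ => []) o y) ≤ B := hsteps.2 n le_rfl _ hsteps.1
  have hlast : SB (K := K) (Λ := Option (Lab c)) (machine c i o init).m
      ⟨some none, v', update (fun _ => []) o y⟩ 1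
      ⟨none, init, update (fun _ => []) o y⟩ B := SB.one rfl hB hB
  have key := hsteps.trans hlast
  refine ⟨n + 1, le_rfl, ?_, ?_⟩
  · exact (congrArg (fun x => (flip bind (TM2.step (machine c i o init).m))^[n + 1]
      (some x)) hinit).trans (key.1.trans (congrArg some hhalt).symm)
  · intro j hj d hd
    have hd' := (congrArg (fun x => (flip bind (TM2.step (machine c i o init).m))^[j]
      (some x)) hinit).symm.trans hd
    exact key.2 j hj d hd'

end Pool.Agent.H88.MC
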